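import Pool.Agent.L7h94.SI.AlgM

/-!
# Tate classes and monomials
-/

set_option linter.unusedVariables false
set_option linter.unusedSectionVars false
set_option autoImplicit false

open CategoryTheory AlgebraicGeometry CategoryTheory.Limits

universe u v w

namespace Pool.Agent.L7h94.SI

open Module

/-! ### Numbers modulo roots of unity -/

section KT

variable {K : Type*} [Field K]

/-- the group of the nonzero numbers modulo roots of unity -/
abbrev KT (K : Type*) [Field K] := Kˣ ⧸ CommGroup.torsion Kˣ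

lemma kt_eq {x y : Kˣ} : (x : KT K) = (y : KT K) ↔ ∃ s, 0 < s ∧ x ^ s = y ^ s := by
  rw [QuotientGroup.eq, CommGroup.mem_torsion, isOfFinOrder_iff_pow_eq_one]
  refine exists_congr fun s => and_congr_right fun _ => ?_
  rw [mul_pow, inv_pow, inv_mul_eq_one]

lemma kt_pow_inj {c d : KT K} {n : ℕ} (hn : 0 < n) (h : c ^ n = d ^ n) : c = d := by
  obtain ⟨x, rfl⟩ := QuotientGroup.mk_surjective c
  obtain ⟨y, rfl⟩ := QuotientGroup.mk_surjective d
  rw [← QuotientGroup.mk_pow, ← QuotientGroup.mk_pow, kt_eq] at h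
  obtain ⟨s, hs, h1⟩ := h
  rw [← pow_mul, ← pow_mul] at h1
  exact kt_eq.2 ⟨n * s, Nat.mul_pos hn hs, h1⟩

end KT

section TT

variable {β κ : Type*} [Fintype β] [DecidableEq β] [CommGroup κ] (q : κ) (cls : β → κ)

/-- The vectors of the Tate classes. -/
def TT : AddSubgroup (β → ℤ) where
  carrier := {z | Even (∑ l, z l) ∧ (∏ l, cls l ^ z l) ^ 2 = q ^ (∑ l, z l)}
  zero_mem' := by simp
  add_mem' {x y} hx hy := by
    refine ⟨?_, ?_⟩
    · simp only [Pi.add_apply, Finset.sum_add_distrib]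
      exact hx.1.add hy.1
    · simp only [Pi.add_apply, Finset.sum_add_distrib, zpow_add, Finset.prod_mul_distrib, mul_pow]
      rw [hx.2, hy.2]
  neg_mem' {x} hx := by
    refine ⟨?_, ?_⟩
    · simp only [Pi.neg_apply, Finset.sum_neg_distrib]
      exact hx.1.neg
    · simp only [Pi.neg_apply, Finset.sum_neg_distrib, zpow_neg, Finset.prod_inv_distrib, inv_pow]
      rw [hx.2]

variable {q cls}

lemma mem_TT {z : β → ℤ} : z ∈ TT q cls ↔
    Even (∑ l, z l) ∧ (∏ l, cls l ^ z l) ^ 2 = q ^ (∑ l, z l) := Iff.rfl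

lemma sum_single (l : β) : ∑ j, (Pi.single l 1 : β → ℤ) j = 1 := by
  rw [Finset.sum_eq_single l]
  · rw [Pi.single_eq_same]
  · intro j _ hj
    rw [Pi.single_eq_of_ne hj]
  · intro h; exact absurd (Finset.mem_univ _) h

lemma prod_single (cls : β → κ) (l : β) : ∏ j, cls j ^ ((Pi.single l 1 : β → ℤ) j) = cls l := by
  rw [Finset.prod_eq_single l]
  · rw [Pi.single_eq_same, zpow_one]
  · intro j _ hj
    rw [Pi.single_eq_of_ne hj, zpow_zero]
  · intro h; exact absurd (Finset.mem_univ _) h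

lemma sum_cv {n : ℕ} (S : Finset (Fin (n + 1) × β)) : ∑ l, cv S l = S.card := by
  simp only [cv, Finset.sum_apply]
  rw [Finset.sum_comm, Finset.sum_congr rfl fun a _ => sum_single a.2]
  simp

lemma prod_cv (cls : β → κ) {n : ℕ} (S : Finset (Fin (n + 1) × β)) :
    ∏ l, cls l ^ (cv S l) = ∏ a ∈ S, cls a.2 := by
  simp only [cv, Finset.sum_apply]
  have h1 : ∀ l, cls l ^ (∑ a ∈ S, (Pi.single a.2 1 : β → ℤ) l) =
      ∏ a ∈ S, cls l ^ ((Pi.single a.2 1 : β → ℤ) l) := by
    intro l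
    induction S using Finset.induction_on with
    | empty => simp
    | insert a S ha ih => rw [Finset.sum_insert ha, Finset.prod_insert ha, zpow_add, ih]
  rw [Finset.prod_congr rfl fun l _ => h1 l, Finset.prod_comm,
    Finset.prod_congr rfl fun a _ => prod_single cls a.2]

end TT

open Pool.Agent.H914 Pool.Agent.H914.VarClass Pool.Agent.H914.VarClass.Obj
  Pool.Agent.H914.WeilCohomology Pool.Agent.W534 Pool.Agent.H281R3.HT
open Pool.Agent.Y133.Half (algSys cycRank numRank_add TSpan isTate_iff tateSet tateDim tateDim_eq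
  eig_mul')
open Pool.Agent.Y163 (pw pr)
open Pool.Agent.R940 (frob_pr frob_one' repr_zero)

variable {k : Type u} [Field k] {𝒱 : VarClass k} {ops : CycleOps 𝒱}
  {W : WeilCohomology.{u, v} ops} {X Y Z : 𝒱.Obj} {p : ℕ} (Φ : FrobSystem W p)

variable {β : Type w} [Fintype β] [DecidableEq β] {b : β → W.H X} {lam : β → W.K}

/-- the letters are eigenvectors of Frobenius -/
structure Eig (b : β → W.H X) (lam : β → W.K) : Prop where
  eig : ∀ l t, frob Φ X t (b l) = lam l ^ t • b l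
  ne : ∀ l, lam l ≠ 0

lemma q_ne (X : 𝒱.Obj) : ((p : W.K) ^ Φ.e X) ≠ 0 :=
  pow_ne_zero _ (Nat.cast_ne_zero.2 Φ.p_pos.ne')

/-- the class of `q` -/
noncomputable def qc (X : 𝒱.Obj) : KT W.K := ((Units.mk0 _ (q_ne Φ X) : W.Kˣ) : KT W.K)

variable {Φ}

/-- the classes of the eigenvalues -/
noncomputable def lc (hE : Eig Φ b lam) (l : β) : KT W.K :=
  ((Units.mk0 (lam l) (hE.ne l) : W.Kˣ) : KT W.K)

lemma frob_PL (hE : Eig Φ b lam) {n S S' : ℕ} (hS : ∀ (i : Fin (n + 1)) (t : ℕ) (y : W.H X),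
      frob Φ (pw X n) (S * t) (W.map (pr X n i) y) = W.map (pr X n i) (frob Φ X (S' * t) y))
    (t : ℕ) (L : List (Fin (n + 1) × β)) : frob Φ (pw X n) (S * t) (PL b (ml X n L)) =
      (L.map fun a => lam a.2).prod ^ (S' * t) • PL b (ml X n L) := by
  induction L with
  | nil =>
    change frob Φ (pw X n) (S * t) 1 = _
    rw [frob_one']
    change _ = (1 : W.K) ^ (S' * t) • (1 : W.H (pw X n))
    rw [one_pow, one_smul]
  | cons a L ih =>
    change frob Φ (pw X n) (S * t) (PL b ((pr X n a.1, a.2) :: ml X n L)) =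
      ((a :: L).map fun a => lam a.2).prod ^ (S' * t) • PL b ((pr X n a.1, a.2) :: ml X n L)
    rw [PL_cons, Pool.Agent.R940.frob_mul', ih, hS, hE.eig, map_smul, smul_mul_smul_comm, List.map_cons,
      List.prod_cons, mul_pow]

lemma frob_mo (hE : Eig Φ b lam) {n S S' : ℕ} (hS : ∀ (i : Fin (n + 1)) (t : ℕ) (y : W.H X),
      frob Φ (pw X n) (S * t) (W.map (pr X n i) y) = W.map (pr X n i) (frob Φ X (S' * t) y))
    (t : ℕ) (s : Finset (Fin (n + 1) × β)) : frob Φ (pw X n) (S * t) (mo b n s) =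
      (∏ a ∈ s, lam a.2) ^ (S' * t) • mo b n s := by
  rw [mo, frob_PL hE hS, Finset.prod_map_toList]

/-- The comparison of the powers of eigenvalues. -/
lemma class_iff (hE : Eig Φ b lam) {n : ℕ} (s : Finset (Fin (n + 1) × β)) (j : ℕ) :
    (∏ a ∈ s, lc hE a.2 = qc Φ X ^ j) ↔
      ∃ t, 0 < t ∧ (∏ a ∈ s, lam a.2) ^ t = ((p : W.K) ^ Φ.e X) ^ (j * t) := by
  have h1 : ∏ a ∈ s, lc hE a.2 =
      ((∏ a ∈ s, (Units.mk0 (lam a.2) (hE.ne a.2) : W.Kˣ) : W.Kˣ) : KT W.K) := by
    exact (map_prod (QuotientGroup.mk' (CommGroup.torsion W.Kˣ)) _ _).symm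
  rw [h1, qc, ← QuotientGroup.mk_pow, kt_eq]
  refine exists_congr fun t => and_congr_right fun _ => ?_
  rw [Units.ext_iff]
  simp only [Units.val_pow_eq_pow_val, Units.coe_prod, Units.val_mk0, ← pow_mul]

lemma tate_of_TT (h : Letters b) (hE : Eig Φ b lam) {n : ℕ} {s : Finset (Fin (n + 1) × β)}
    (hs : cv s ∈ TT (qc Φ X) (lc hE)) : ∃ j, IsTate Φ (pw X n) j (mo b n s) := by
  rw [mem_TT, sum_cv, prod_cv] at hs
  obtain ⟨h1, h2⟩ := hs
  obtain ⟨j, hj⟩ := (Int.even_coe_nat _).1 h1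
  have hj' : s.card = 2 * j := by omega
  rw [hj', Nat.cast_mul, zpow_mul, Nat.cast_two, zpow_natCast] at h2
  have h3 : ∏ a ∈ s, lc hE a.2 = qc Φ X ^ j := by
    refine kt_pow_inj (n := 2) two_pos ?_
    rw [h2, ← pow_mul, mul_comm j 2, pow_mul]
    norm_cast
  obtain ⟨t, ht, h4⟩ := (class_iff hE s j).1 h3
  obtain ⟨S, S', hS, hS', hSS, hfr⟩ := frob_pr Φ X n
  refine ⟨j, isTate_iff.2 ⟨?_, S * t, Nat.mul_pos hS ht, ?_⟩⟩
  · rw [← hj']
    exact mo_gr h n s
  · rw [frob_mo hE hfr, mul_comm S' t, pow_mul, h4, card_pow, ← pow_mul, ← pow_mul]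
    congr 2
    calc Φ.e X * (j * t * S') = (S' * Φ.e X) * t * j := by ring
      _ = _ := by rw [← hSS]; ring

lemma TT_of_tate (h : Letters b) (hE : Eig Φ b lam) {n j : ℕ} {x : W.H (pw X n)}
    (hx : IsTate Φ (pw X n) j x) {s : Finset (Fin (n + 1) × β)}
    (hs : (mob h n).repr x s ≠ 0) : cv s ∈ TT (qc Φ X) (lc hE) := by
  obtain ⟨h1, r, hr, h2⟩ := isTate_iff.1 hx
  obtain ⟨S, S', hS, hS', hSS, hfr⟩ := frob_pr Φ X n
  have h3 := eig_mul' h2 S
  have hdeg : s.card = 2 * j := by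
    by_contra hne
    refine hs (repr_zero (W.isInternal (pw X n)).submodule_iSupIndep (mob h n)
      (fun s => s.card) (fun s => ?_) h1 hne)
    rw [mob_apply]
    exact mo_gr h n s
  have heig : (∏ a ∈ s, lam a.2) ^ (S' * r) = (card Φ (pw X n) (S * r) : W.K) ^ j := by
    by_contra hne
    apply hs
    have h4 : ∑ s', ((mob h n).repr x s' * ((∏ a ∈ s', lam a.2) ^ (S' * r) -
        (card Φ (pw X n) (S * r) : W.K) ^ j)) • mo b n s' = 0 := by
      have h5 : frob Φ (pw X n) (S * r) x = ∑ s', ((mob h n).repr x s' *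
          (∏ a ∈ s', lam a.2) ^ (S' * r)) • mo b n s' := by
        conv_lhs => rw [← (mob h n).sum_repr x]
        rw [map_sum]
        refine Finset.sum_congr rfl fun s' _ => ?_
        rw [map_smul, mob_apply, frob_mo hE hfr, smul_smul]
      have h6 : ((card Φ (pw X n) (S * r) : W.K) ^ j) • x = ∑ s', ((mob h n).repr x s' *
          (card Φ (pw X n) (S * r) : W.K) ^ j) • mo b n s' := by
        conv_lhs => rw [← (mob h n).sum_repr x]
        rw [Finset.smul_sum]
        refine Finset.sum_congr rfl fun s' _ => ?_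
        rw [smul_smul, mob_apply, mul_comm]
      simp only [mul_sub, sub_smul, Finset.sum_sub_distrib]
      rw [← h5, ← h6, h3, sub_self]
    have h7 := Fintype.linearIndependent_iff.1 (mo_li h n) _ h4 s
    exact (mul_eq_zero.1 h7).resolve_right (sub_ne_zero.2 hne)
  have h8 : ∏ a ∈ s, lc hE a.2 = qc Φ X ^ j := by
    refine (class_iff hE s j).2 ⟨S' * r, Nat.mul_pos hS' hr, ?_⟩
    rw [heig, card_pow, ← pow_mul]
    congr 1
    calc Φ.e (pw X n) * (S * r) * j = (S * Φ.e (pw X n)) * r * j := by ring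
      _ = _ := by rw [hSS]; ring
  rw [mem_TT, sum_cv, prod_cv, h8, hdeg]
  refine ⟨⟨j, by push_cast; ring⟩, ?_⟩
  rw [← pow_mul, mul_comm j 2]
  norm_cast

theorem TSpan_mo (h : Letters b) (hE : Eig Φ b lam) (n : ℕ) : TSpan Φ (pw X n) =
    Submodule.span W.K (mob h n '' {s | cv s ∈ TT (qc Φ X) (lc hE)}) := by
  apply le_antisymm
  · rw [TSpan, Submodule.span_le]
    rintro x ⟨j, hx⟩
    exact mem_span_sub _ _ fun s hs => TT_of_tate h hE hx hs
  · rw [Submodule.span_le]
    rintro _ ⟨s, hs, rfl⟩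
    obtain ⟨j, hj⟩ := tate_of_TT h hE hs
    rw [mob_apply]
    exact Submodule.subset_span ⟨j, hj⟩

/-- The dimension of the space of Tate classes. -/
theorem tateDim_mo (h : Letters b) (hE : Eig Φ b lam) (n : ℕ)
    [DecidablePred fun z : β → ℤ => z ∈ TT (qc Φ X) (lc hE)] : tateDim Φ (pw X n) =
    ((Finset.univ : Finset (Finset (Fin (n + 1) × β))).filter fun s =>
      cv s ∈ TT (qc Φ X) (lc hE)).card := by
  classical
  rw [tateDim_eq, TSpan_mo h hE, finrank_span_sub]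

end Pool.Agent.L7h94.SI
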