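import Pool.Agent.L7h94.SI.Main

/-!
# The index of the Tate classes on the powers of an abelian variety
-/

set_option linter.unusedVariables false
set_option linter.unusedSectionVars false
set_option autoImplicit false

open CategoryTheory AlgebraicGeometry CategoryTheory.Limits Filter Topology

open scoped ENNReal

universe u v w

namespace Pool.Agent.L7h94.SI

open Module
open Pool.Agent.H914 Pool.Agent.H914.VarClass Pool.Agent.H914.VarClass.Obj
  Pool.Agent.H914.WeilCohomology Pool.Agent.W534 Pool.Agent.H281R3.HT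
open Pool.Agent.Y133.Half (cycRank tateDim)
open Pool.Agent.R940 (HasIntegralPolys IsSlopeDenominator exists_ebasis)
open Pool.Agent.N181.Ab Pool.Agent.R908
open Pool.Agent.L7h94.GP (LW inc numClasses card_minpolys)
open Pool.Agent.L7h78.TI (IsTateIndex exists_tateIndex le_of_share)
open Pool.Agent.Y129 (pw)

variable {k : Type u} [Field k] {𝒱 : VarClass k} {ops : CycleOps 𝒱}
  {W : WeilCohomology.{u, v} ops} {X : 𝒱.Obj} {p : ℕ} [hp : Fact p.Prime] {Φ : FrobSystem W p}
  {σ : W.K →+* ℂ} {m : X.prod X ⟶ X} {D₀ : X.Cycles}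

lemma pw_eq (X : 𝒱.Obj) : ∀ n, pw X n = Pool.Agent.Y163.pw X n
  | 0 => rfl
  | n + 1 => by
    change X.prod (pw X n) = X.prod (Pool.Agent.Y163.pw X n)
    rw [pw_eq X n]

/-- **The share of the algebraic classes.** -/
theorem share_ab [IsAlgClosed W.K] [Nontrivial (W.H X)] (hA : IsAbelian Φ X m D₀) (n : ℕ) :
    tateDim Φ (pw X n) ^ 2 ≤ (4 * (n + 1)) ^ (X.dim - 1) * cycRank ops (pw X n) ^ 2 := by
  classical
  obtain ⟨ι, hfin, B, lam, hB⟩ := exists_ebasis Φ X
  have hft : Fintype ι := Fintype.ofFinite ι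
  have hfl : Fintype (LW B 1) := by unfold LW; infer_instance
  have h := data_ab hA one_ne_zero hB
  rw [pw_eq]
  exact h.share n

/-- **One power decides the index.** -/
theorem index_ab [IsAlgClosed W.K] [Nontrivial (W.H X)] (hA : IsAbelian Φ X m D₀)
    (hRH : RiemannHyp Φ σ X) (hint : HasIntegralPolys Φ σ X) {D : ℕ}
    (hD : IsSlopeDenominator Φ σ X D) {r n : ℕ} (hr : 1 ≤ r) {ε : ℝ} (hε : 0 < ε)
    (hn : (r : ℝ) ^ 4 / ε ^ 2 * Real.exp (60 * √(2 * X.dim * numClasses Φ σ X 1) *
      Real.log (4 * X.dim) * Real.log (4 * X.dim * D)) ≤ (n + 1 : ℕ))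
    (ht : (tateDim Φ (pw X n) : ℝ) < (r + 1) * (1 - ε) * cycRank ops (pw X n)) :
    (∀ n', tateDim Φ (pw X n') ≤ r * cycRank ops (pw X n')) ∧
      ∃ N : ℕ, 1 ≤ N ∧ N ≤ r ∧ IsTateIndex Φ X N := by
  classical
  have key : ∀ n', tateDim Φ (pw X n') ≤ r * cycRank ops (pw X n') := by
    intro n'
    obtain ⟨ι, hfin, B, lam, hB⟩ := exists_ebasis Φ X
    have hft : Fintype ι := Fintype.ofFinite ι
    have hfl : Fintype (LW B 1) := by unfold LW; infer_instance
    have h := data_ab hA one_ne_zero hB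
    have hcard := card_beta h.letters
    obtain ⟨τ, hτ⟩ := h.tau
    have hsh := fun {N : ℝ} (h2 : 2 ≤ N) hN => short_ab (N := N) hB hRH hint hD h.eig τ hτ hcard h2
      hN
    rw [pw_eq] at ht ⊢
    rcases Nat.eq_zero_or_pos X.dim with h0 | hdim
    · refine h.index (L := 2) (by norm_num) (hsh le_rfl ?_) (n := n) ?_ ht n'
      · rw [h0]
        norm_num
      · rw [h0]
        norm_num
        exact hε.le
    · have hk : 1 ≤ numClasses Φ σ X 1 := by
        refine le_trans ?_ (card_minpolys (σ := σ) hB 1)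
        have h1 : 0 < Fintype.card (LW B 1) := by omega
        obtain ⟨l⟩ := Fintype.card_pos_iff.1 h1
        exact Finset.card_pos.2 ⟨_, Finset.mem_image_of_mem _ (Finset.mem_univ l)⟩
      set E : ℝ := Real.exp (12 * √(2 * X.dim * numClasses Φ σ X 1) * Real.log (4 * X.dim) *
        Real.log (4 * X.dim * D)) with hE
      have hE16 : 16 * (X.dim : ℝ) ^ 2 ≤ E := E_ge hdim hD.1 hk
      have hE0 : 0 < E := Real.exp_pos _
      have hE2 : 2 ≤ E := by
        have h1 : (1 : ℝ) ≤ X.dim := by exact_mod_cast hdim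
        nlinarith
      have hE5 : Real.exp (60 * √(2 * X.dim * numClasses Φ σ X 1) * Real.log (4 * X.dim) *
          Real.log (4 * X.dim * D)) = E ^ 5 := by
        rw [hE, ← Real.exp_nat_mul]
        congr 1
        push_cast
        ring
      rw [hE5] at hn
      refine h.index (L := E) hE0.le (hsh hE2 (le_of_eq ?_)) (n := n)
        (cond_of_large hdim hε hE16 hE0 hn (by positivity)) ht n'
      rw [hE]
      congr 1
      have e1 : ((numClasses Φ σ X 1 : ℕ) : ℝ) * ((2 * X.dim : ℕ) : ℝ) =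
          2 * X.dim * numClasses Φ σ X 1 := by push_cast; ring
      have e2 : (2 : ℝ) * ((2 * X.dim : ℕ) : ℝ) = 4 * X.dim := by push_cast; ring
      have e3 : (2 : ℝ) * ((2 * X.dim : ℕ) : ℝ) * ((D * 1 : ℕ) : ℝ) = 4 * X.dim * D := by
        push_cast; ring
      rw [e1, e3, e2]
  refine ⟨key, ?_⟩
  obtain ⟨N, hN1, hN⟩ := exists_tateIndex Φ X
  have hδ : (0 : ℝ) < 1 / r := by
    have : (0 : ℝ) < r := by exact_mod_cast hr
    positivity
  obtain ⟨N', rfl, h2⟩ := le_of_share (t := fun n => tateDim Φ (pw X n))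
    (c := fun n => cycRank ops (pw X n)) hδ hN.tate (Filter.Frequently.of_forall fun n' => by
      have h1 : (tateDim Φ (pw X n') : ℝ) ≤ r * cycRank ops (pw X n') := by
        exact_mod_cast key n'
      have h3 : (0 : ℝ) < r := by exact_mod_cast hr
      rw [div_mul_eq_mul_div, one_mul, div_le_iff₀ h3, mul_comm]
      exact h1)
  refine ⟨N', by exact_mod_cast hN1, ?_, hN⟩
  have h3 : (0 : ℝ) < r := by exact_mod_cast hr
  rw [mul_one_div, div_le_one h3] at h2
  exact_mod_cast h2

end Pool.Agent.L7h94.SI
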