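import Pool.Agent.L7h94.SI.Index

/-!
# The number of subsets whose values lie in a subgroup: polynomial bound for the ratio
-/

set_option linter.unusedSectionVars false
set_option linter.unusedVariables false
set_option autoImplicit false

namespace Pool.Agent.L7h94.SI

open Finset AddMonoidAlgebra Real

noncomputable section

variable {Q : Type*} [AddCommGroup Q]

theorem coeff_zero_inv' (x : AddMonoidAlgebra ℝ Q) : (inv' x).coeff 0 = x.coeff 0 := by
  have h1 : ip 1 x = x.coeff 0 := by rw [one_eq, ip_single_left, one_mul]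
  rw [← h1, ip, one_mul]

/-- the coefficients of a product -/
theorem coeff_mul_eq_ip (x y : AddMonoidAlgebra ℝ Q) : (x * y).coeff 0 = ip x (inv' y) := by
  rw [ip, inv'_inv']

theorem coeff_mul_ge {x y : AddMonoidAlgebra ℝ Q} (hx : Nn x) (hy : Nn y) :
    x.coeff 0 * y.coeff 0 ≤ (x * y).coeff 0 := by
  classical
  rw [coeff_mul_eq_ip, ip_eq_sum x _ (s := insert 0 x.coeff.support) (subset_insert _ _)]
  refine le_trans (le_of_eq ?_) (single_le_sum (f := fun κ => x.coeff κ * (inv' y).coeff κ)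
    (fun κ _ => mul_nonneg (hx κ) (nn_inv' hy κ)) (mem_insert_self 0 _))
  rw [coeff_zero_inv']

theorem coeff_mul_le {x y : AddMonoidAlgebra ℝ Q} {C : ℝ} (hC : ∀ κ, x.coeff κ ≤ C) (hy : Nn y) :
    (x * y).coeff 0 ≤ C * aug y := by
  classical
  rw [coeff_mul_eq_ip, ip_eq_sum x _ (s := x.coeff.support ∪ (inv' y).coeff.support)
    subset_union_left, ← aug_inv' y, aug_eq (inv' y) subset_union_right, mul_sum]
  exact sum_le_sum fun κ _ => mul_le_mul_of_nonneg_right (hC κ) (nn_inv' hy κ)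

theorem coeff_prod_ge {ι : Type*} (s : Finset ι) (f : ι → AddMonoidAlgebra ℝ Q)
    (h : ∀ i ∈ s, Nn (f i)) {c : ℝ} (hc : 0 ≤ c) (h0 : ∀ i ∈ s, c ≤ (f i).coeff 0) :
    c ^ s.card ≤ (∏ i ∈ s, f i).coeff 0 := by
  classical
  induction s using Finset.induction_on with
  | empty =>
    rw [prod_empty, card_empty, pow_zero, one_eq, coeff_single, Finsupp.single_eq_same]
  | insert a s ha ih =>
    rw [prod_insert ha, card_insert_of_notMem ha, pow_succ']
    have h1 := ih (fun i hi => h i (mem_insert_of_mem hi)) fun i hi => h0 i (mem_insert_of_mem hi)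
    refine le_trans (mul_le_mul (h0 a (mem_insert_self a s)) h1 (by positivity) ?_) (coeff_mul_ge
      (h a (mem_insert_self a s)) (nn_prod fun i hi => h i (mem_insert_of_mem hi)))
    exact h a (mem_insert_self a s) 0

/-- the factor of one class -/
def uu (s : Q) (n : ℕ) : AddMonoidAlgebra ℝ Q :=
  (1 + single s 1) ^ n * inv' ((1 + single s 1) ^ n)

theorem uu_eq (s : Q) (n : ℕ) : uu s n =
    ∑ j ∈ range (2 * n + 1), (((2 * n).choose j : ℕ) : ℝ) • single (j • s - n • s) (1 : ℝ) := by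
  have h1 : inv' ((1 + single s (1 : ℝ)) ^ n) = single (-(n • s)) 1 * (1 + single s 1) ^ n := by
    have h2 : inv' (1 + single s (1 : ℝ)) = single (-s) 1 * (1 + single s 1) := by
      rw [map_add, map_one, inv'_single, mul_add, mul_one, single_mul_self', neg_add_cancel,
        ← one_eq, add_comm]
    rw [map_pow, h2, mul_pow, single_pow', smul_neg]
  rw [uu, h1, ← mul_assoc, mul_comm _ (single (-(n • s)) (1 : ℝ)), mul_assoc, ← pow_add, ← two_mul,
    b_pow, mul_sum]
  refine sum_congr rfl fun j _ => ?_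
  rw [mul_smul_comm, single_mul_self', neg_add_eq_sub]

theorem nn_uu (s : Q) (n : ℕ) : Nn (uu s n) := nn_mul (nn_pow (nn_b _) n) (nn_inv' (nn_pow (nn_b _) n))

theorem uu_coeff (s : Q) (n : ℕ) (κ : Q) [DecidableEq Q] : (uu s n).coeff κ =
    ∑ j ∈ range (2 * n + 1), if j • s - n • s = κ then (((2 * n).choose j : ℕ) : ℝ) else 0 := by
  rw [uu_eq, coeff_sum']
  refine sum_congr rfl fun j _ => ?_
  rw [AddMonoidAlgebra.coeff_smul, coeff_single]
  change (_ : ℝ) * _ = _
  rw [Finsupp.single_apply]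
  split_ifs <;> simp

theorem uu_zero_ge (s : Q) (n : ℕ) : ((n.centralBinom : ℕ) : ℝ) ≤ (uu s n).coeff 0 := by
  classical
  rw [uu_coeff]
  refine le_trans (le_of_eq ?_) (single_le_sum (f := fun j => if j • s - n • s = 0 then
    (((2 * n).choose j : ℕ) : ℝ) else 0) (fun j _ => by positivity)
    (mem_range.2 (show n < 2 * n + 1 by omega)))
  simp [Nat.centralBinom]

theorem uu_le {s : Q} (hs : ∀ k : ℕ, 1 ≤ k → k • s ≠ 0) (n : ℕ) (κ : Q) :
    (uu s n).coeff κ ≤ ((n.centralBinom : ℕ) : ℝ) := by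
  classical
  rw [uu_coeff]
  by_cases h : ∃ j ∈ range (2 * n + 1), j • s - n • s = κ
  · obtain ⟨j, hj, hjκ⟩ := h
    rw [Finset.sum_eq_single j]
    · rw [if_pos hjκ]
      exact_mod_cast Nat.choose_le_centralBinom j n
    · intro i _ hij
      rw [if_neg]
      intro hi
      have h1 : i • s = j • s := by
        have := hi.trans hjκ.symm
        exact sub_left_injective this
      rcases lt_or_gt_of_ne hij with h2 | h2
      · refine hs (j - i) (by omega) ?_
        have h3 : j • s = (j - i) • s + i • s := by rw [← add_smul]; congr 1; omega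
        rw [h1] at h3
        exact left_eq_add.1 (by rw [add_comm] at h3; exact h3) 
      · refine hs (i - j) (by omega) ?_
        have h3 : i • s = (i - j) • s + j • s := by rw [← add_smul]; congr 1; omega
        rw [h1] at h3
        exact left_eq_add.1 (by rw [add_comm] at h3; exact h3)
    · intro h; exact absurd hj h
  · push Not at h
    rw [sum_eq_zero fun j hj => if_neg (h j hj)]
    positivity

theorem central_sq : ∀ n : ℕ, 1 ≤ n → 16 ^ n ≤ 4 * n * n.centralBinom ^ 2 := by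
  intro n hn
  induction n, hn using Nat.le_induction with
  | base => simp [Nat.centralBinom, Nat.choose]
  | succ n hn ih =>
    have h1 := Nat.succ_mul_centralBinom_succ n
    -- (n + 1) * C (n + 1) = 2 * (2 * n + 1) * C n
    have h2 : (n + 1) * 16 ^ (n + 1) ≤ (n + 1) * (4 * (n + 1) * (n + 1).centralBinom ^ 2) := by
      calc (n + 1) * 16 ^ (n + 1) = 16 * (n + 1) * 16 ^ n := by ring
        _ ≤ 16 * (n + 1) * (4 * n * n.centralBinom ^ 2) := Nat.mul_le_mul_left _ ih
        _ = 16 * n.centralBinom ^ 2 * (4 * n * (n + 1)) := by ring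
        _ ≤ 16 * n.centralBinom ^ 2 * ((2 * n + 1) ^ 2) := Nat.mul_le_mul_left _ (by nlinarith)
        _ = 4 * (2 * (2 * n + 1) * n.centralBinom) ^ 2 := by ring
        _ = 4 * ((n + 1) * (n + 1).centralBinom) ^ 2 := by rw [← h1]
        _ = _ := by ring
    exact Nat.le_of_mul_le_mul_left h2 (Nat.succ_pos n)

variable {Λ β : Type*} [Fintype Λ] [DecidableEq Λ] [Fintype β] [DecidableEq β]

theorem ip_XX_eq (w : Λ → Q) (n : ℕ) : ip (XX w n) (XX w n) = (∏ i, uu (w i) n).coeff 0 := by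
  rw [ip, XX, map_prod, ← prod_mul_distrib]
  rfl

theorem ip_XX_ge' (w : Λ → Q) (n : ℕ) :
    ((n.centralBinom : ℕ) : ℝ) ^ Fintype.card Λ ≤ ip (XX w n) (XX w n) := by
  rw [ip_XX_eq, ← card_univ]
  exact coeff_prod_ge univ _ (fun i _ => nn_uu _ _) (Nat.cast_nonneg _) fun i _ => uu_zero_ge _ _

theorem aug_uu (s : Q) (n : ℕ) : aug (uu s n) = 4 ^ n := by
  rw [uu, map_mul, aug_inv', map_pow, aug_b, ← mul_pow]
  norm_num

theorem ip_XX_le (w : Λ → Q) (n : ℕ) {i₀ : Λ} (hi : ∀ k : ℕ, 1 ≤ k → k • w i₀ ≠ 0) :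
    ip (XX w n) (XX w n) ≤ ((n.centralBinom : ℕ) : ℝ) * 4 ^ (n * (Fintype.card Λ - 1)) := by
  rw [ip_XX_eq, ← mul_prod_erase univ _ (mem_univ i₀)]
  refine (coeff_mul_le (uu_le hi n) (nn_prod fun i _ => nn_uu _ _)).trans (le_of_eq ?_)
  congr 1
  rw [map_prod]
  simp only [aug_uu]
  rw [prod_const, ← pow_mul, card_erase_of_mem (mem_univ _), card_univ]

/-- **The polynomial bound.** -/
theorem share_le (w : β → Q) (e : Λ ⊕ Λ ≃ β) (he : ∀ i, w (e (Sum.inr i)) = - w (e (Sum.inl i)))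
    (H : AddSubgroup Q) (hH : H = ⊥ ∨ ∃ i₀ : Λ, ∀ k : ℕ, 1 ≤ k → k • w (e (Sum.inl i₀)) ∉ H)
    {n : ℕ} (hn : 1 ≤ n) :
    (tN w H n) ^ 2 ≤ (4 * n) ^ (Fintype.card Λ - 1) * (rN w n) ^ 2 := by
  classical
  rcases hH with rfl | ⟨i₀, hi₀⟩
  · have h1 : tN w ⊥ n = rN w n := by
      rw [tN, rN]
      simp only [AddSubgroup.mem_bot]
    rw [h1]
    refine Nat.le_mul_of_pos_left _ ?_
    positivity
  · set C : ℝ := ((n.centralBinom : ℕ) : ℝ) with hC
    have hg : 1 ≤ Fintype.card Λ := Fintype.card_pos_iff.2 ⟨i₀⟩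
    set g := Fintype.card Λ with hgdef
    -- the lower bound
    have h1 : C ^ g ≤ rN w n := by
      rw [rN_eq w e he, cor_zero]
      exact ip_XX_ge' _ _
    -- the upper bound
    have h2 : (tN w H n : ℝ) ≤ C * 4 ^ (n * (g - 1)) := by
      have h3 : tN w H n = rN (fun b => (QuotientAddGroup.mk (w b) : Q ⧸ H)) n := by
        rw [tN, rN]
        congr 1
        ext S
        simp only [mem_filter, mem_univ, true_and]
        rw [← QuotientAddGroup.eq_zero_iff]
        have h4 : ((∑ p ∈ S, w p.2 : Q) : Q ⧸ H) = ∑ p ∈ S, ((w p.2 : Q) : Q ⧸ H) :=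
          map_sum (QuotientAddGroup.mk' H) _ _
        rw [h4]
      rw [h3, rN_eq _ e (fun i => by rw [he]; rfl), cor_zero]
      refine ip_XX_le _ n (i₀ := i₀) fun k hk h4 => hi₀ k hk ?_
      rw [← QuotientAddGroup.eq_zero_iff]
      exact h4
    have hC0 : 0 ≤ C := Nat.cast_nonneg _
    have h3 : (16 : ℝ) ^ n ≤ 4 * n * C ^ 2 := by
      rw [hC]
      exact_mod_cast central_sq n hn
    have h4 : (tN w H n : ℝ) ^ 2 ≤ (4 * n) ^ (g - 1) * (rN w n : ℝ) ^ 2 := by
      calc (tN w H n : ℝ) ^ 2 ≤ (C * 4 ^ (n * (g - 1))) ^ 2 :=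
            pow_le_pow_left₀ (Nat.cast_nonneg _) h2 2
        _ = C ^ 2 * (16 ^ n) ^ (g - 1) := by
            rw [mul_pow, ← pow_mul, ← pow_mul, show (16 : ℝ) = 4 ^ 2 by norm_num, ← pow_mul]
            congr 2
            ring
        _ ≤ C ^ 2 * (4 * n * C ^ 2) ^ (g - 1) := by
            refine mul_le_mul_of_nonneg_left ?_ (by positivity)
            exact pow_le_pow_left₀ (by positivity) h3 _
        _ = (4 * n) ^ (g - 1) * (C ^ g) ^ 2 := by
            obtain ⟨r, hr⟩ : ∃ r, g = r + 1 := ⟨g - 1, by omega⟩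
            rw [hr, Nat.add_sub_cancel]
            ring
        _ ≤ _ := by
            refine mul_le_mul_of_nonneg_left ?_ (by positivity)
            exact pow_le_pow_left₀ (by positivity) h1 2
    exact_mod_cast h4

end

end Pool.Agent.L7h94.SI
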