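import Pool.Agent.L7h94.SI.Frob

/-!
# Letters of abelian varieties
-/

set_option linter.unusedVariables false
set_option linter.unusedSectionVars false
set_option autoImplicit false

open CategoryTheory AlgebraicGeometry CategoryTheory.Limits

universe u v w

namespace Pool.Agent.L7h94.SI

open Module
open Pool.Agent.H914 Pool.Agent.H914.VarClass Pool.Agent.H914.VarClass.Obj
  Pool.Agent.H914.WeilCohomology Pool.Agent.W534 Pool.Agent.H281R3.HT
open Pool.Agent.Y133.Half (algSys cycRank numRank_add TSpan isTate_iff tateSet tateDim tateDim_eq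
  eig_mul')
open Pool.Agent.Y163 (pw pr HBasis)
open Pool.Agent.R940 (frob_pr frob_one' repr_zero IsEig)
open Pool.Agent.N181.Ab Pool.Agent.R908
open Pool.Agent.L7h94.GP (LW inc fac mem_span_words)

variable {k : Type u} [Field k] {𝒱 : VarClass k} {ops : CycleOps 𝒱}
  {W : WeilCohomology.{u, v} ops} {X Y Z : 𝒱.Obj} {p : ℕ} {Φ : FrobSystem W p}

variable {ι : Type v} {B : HBasis W X ι} {lam : ι → W.K} {m : X.prod X ⟶ X}

/-- the letters of degree one -/
noncomputable def lb (B : HBasis W X ι) (l : LW B 1) : W.H X := B.b (inc B 1 l)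

lemma deg_one (l : LW B 1) : B.deg (inc B 1 l) = 1 := le_antisymm l.2.2 l.2.1

lemma lb_gr (l : LW B 1) : lb B l ∈ W.gr X 1 := by
  have h1 := B.mem (inc B 1 l)
  rwa [deg_one] at h1

lemma generated_one (hA : IsAbelianLike W X m) :
    Algebra.adjoin W.K {x : W.H X | ∃ i, i ≤ 1 ∧ x ∈ W.gr X i} = ⊤ := by
  classical
  have h0 : ∀ i, ∀ x ∈ W.gr X 1 ^ i,
      x ∈ Algebra.adjoin W.K {x : W.H X | ∃ i, i ≤ 1 ∧ x ∈ W.gr X i} := by
    intro i
    induction i with
    | zero =>
      intro x hx
      rw [pow_zero, Submodule.mem_one] at hx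
      obtain ⟨c, rfl⟩ := hx
      exact Subalgebra.algebraMap_mem _ c
    | succ i ih =>
      intro x hx
      rw [pow_succ'] at hx
      refine Submodule.mul_induction_on hx ?_ ?_
      · intro a ha c hc
        exact Subalgebra.mul_mem _ (Algebra.subset_adjoin ⟨1, le_rfl, ha⟩) (ih c hc)
      · intro a c ha hc
        exact Subalgebra.add_mem _ ha hc
  rw [eq_top_iff]
  intro x _
  have h1 : x ∈ ⨆ i, W.gr X i := by
    rw [(W.isInternal X).submodule_iSup_eq_top]
    trivial
  induction h1 using Submodule.iSup_induction' with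
  | mem i x hx => exact h0 i x (hA.gen i hx)
  | zero => exact Subalgebra.zero_mem _
  | add x y _ _ hx hy => exact Subalgebra.add_mem _ (hx trivial) (hy trivial)

lemma span_letters [Finite ι] (hA : IsAbelianLike W X m) (n : ℕ) (x : W.H (pw X n)) :
    x ∈ Submodule.span W.K (Set.range fun L : List (Fin (n + 1) × LW B 1) =>
      PL (lb B) (ml X n L)) := by
  have h1 := mem_span_words (B := B) (generated_one hA) n x
  rw [Set.image_univ] at h1
  refine Submodule.span_mono ?_ h1
  rintro _ ⟨L, rfl⟩
  refine ⟨L, ?_⟩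
  beta_reduce
  rw [PL, ml, List.map_map]
  rfl

/-! ### The product of all letters -/

lemma prod_pow_mem (L : List (LW B 1)) : (L.map (lb B)).prod ∈ W.gr X 1 ^ L.length := by
  induction L with
  | nil =>
    rw [List.map_nil, List.prod_nil, List.length_nil, pow_zero]
    exact Submodule.one_le.1 le_rfl
  | cons a L ih =>
    rw [List.map_cons, List.prod_cons, List.length_cons, pow_succ']
    exact Submodule.mul_mem_mul (lb_gr a) ih

lemma coord_deg [Finite ι] (l : LW B 1) : IsDeg W X (B.b.coord (inc B 1 l)) 1 := by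
  intro i hi a ha
  rw [Basis.coord_apply]
  refine repr_zero (W.isInternal X).submodule_iSupIndep B.b B.deg B.mem ha ?_
  rw [deg_one]
  exact hi.symm

lemma coord_lb [Finite ι] [DecidableEq (LW B 1)] (l l' : LW B 1) :
    B.b.coord (inc B 1 l) (lb B l') = if l' = l then 1 else 0 := by
  classical
  rw [Basis.coord_apply, lb, Basis.repr_self, Finsupp.single_apply]
  by_cases h : l' = l
  · rw [if_pos h, if_pos (by rw [h])]
  · have h2 : inc B 1 l' ≠ inc B 1 l := fun h' => h (Subtype.ext h')
    rw [if_neg h, if_neg h2]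

lemma prod_ne_zero [Finite ι] (hA : IsAbelianLike W X m) (h1 : (1 : W.H X) ≠ 0) :
    ∀ L : List (LW B 1), L.Nodup → (L.map (lb B)).prod ≠ 0 := by
  classical
  obtain ⟨ε, hε, hε1⟩ := exists_eps h1
  intro L
  induction L with
  | nil => intro _; exact h1
  | cons l L ih =>
    intro hL h0
    have hf := coord_deg (W := W) (X := X) (B := B) l
    have hzero : ∀ L' : List (LW B 1), l ∉ L' →
        io W m (B.b.coord (inc B 1 l)) (L'.map (lb B)).prod = 0 := by
      intro L'
      induction L' with
      | nil =>
        intro _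
        exact io_one hf
      | cons a L' ih' =>
        intro hl
        rw [List.mem_cons, not_or] at hl
        rw [List.map_cons, List.prod_cons, io_mul hε hε1 hf hA (lb_gr a) (prod_pow_mem L'),
          ih' hl.2, coord_lb, if_neg (Ne.symm hl.1), zero_smul, mul_zero, sub_zero]
    rw [List.nodup_cons] at hL
    rw [List.map_cons, List.prod_cons] at h0
    have h2 := io_mul hε hε1 hf hA (lb_gr l) (prod_pow_mem L)
    rw [h0, map_zero, hzero L hL.1, coord_lb, if_pos rfl, one_smul, mul_zero, sub_zero] at h2
    exact ih hL.2 h2.symm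

lemma PL_id (L : List (LW B 1)) :
    PL (lb B) (L.map fun l => (𝟙 X, l)) = (L.map (lb B)).prod := by
  rw [PL, List.map_map]
  congr 1
  refine List.map_congr_left fun l _ => ?_
  rw [Function.comp_apply, W.map_id]

/-- **The letters of an abelian variety.** -/
theorem letters_ab [Finite ι] [Fintype (LW B 1)] [DecidableEq (LW B 1)]
    (hA : IsAbelianLike W X m) (h1 : (1 : W.H X) ≠ 0) : Letters (W := W) (lb B) where
  gr := lb_gr
  span := span_letters hA
  top := by
    -- a product of letters with nonzero trace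
    obtain ⟨x, hx⟩ : ∃ x, W.tr X x ≠ 0 := by
      by_contra hcon
      push Not at hcon
      exact h1 (W.nondeg 1 fun c => hcon _)
    obtain ⟨L, hL⟩ : ∃ L : List (Fin (0 + 1) × LW B 1), W.tr X (PL (lb B) (ml X 0 L)) ≠ 0 := by
      by_contra hcon
      push Not at hcon
      apply hx
      have h2 : x ∈ LinearMap.ker (W.tr X) := by
        refine (Submodule.span_le.2 ?_) (span_letters (B := B) hA 0 x)
        rintro _ ⟨L, rfl⟩
        exact hcon L
      exact h2
    have h2 : ml X 0 L = (L.map Prod.snd).map fun l => (𝟙 X, l) := by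
      rw [ml, List.map_map]
      rfl
    rw [h2] at hL
    set L' := L.map Prod.snd with hL'
    have hnd : L'.Nodup := by
      by_contra hcon
      apply hL
      rw [PL_dup (b := lb B) lb_gr fun h3 => hcon h3.of_map, map_zero]
    have hlen : L'.length = 2 * X.dim := by
      by_contra hcon
      apply hL
      have h3 := PL_gr (b := lb B) lb_gr (L'.map fun l => (𝟙 X, l))
      rw [List.length_map] at h3
      exact W.tr_eq_zero h3 hcon
    have hcard : Fintype.card (LW B 1) ≤ 2 * X.dim := by
      by_contra hcon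
      have h3 := PL_gr (b := lb B) lb_gr (UL X (LW B 1))
      rw [UL, List.length_map, Finset.length_toList, Finset.card_univ,
        W.gr_eq_bot X _ (by omega), Submodule.mem_bot, PL_id] at h3
      exact prod_ne_zero hA h1 _ (Finset.nodup_toList _) h3
    have h3 : L'.toFinset = Finset.univ := by
      apply Finset.eq_univ_of_card
      apply le_antisymm (Finset.card_le_univ _)
      rw [List.toFinset_card_of_nodup hnd, hlen]
      exact hcard
    have hperm : (L'.map fun l => (𝟙 X, l)).Perm (UL X (LW B 1)) := by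
      refine List.Perm.map _ ?_
      rw [List.perm_ext_iff_of_nodup hnd (Finset.nodup_toList _)]
      intro a
      rw [Finset.mem_toList, ← h3, List.mem_toFinset]
    obtain ⟨ε, _, h4⟩ := PL_perm (b := lb B) lb_gr hperm
    rw [h4, map_smul] at hL
    exact (smul_ne_zero_iff.1 hL).2

/-! ### The letters are eigenvectors -/

lemma eig_of_squarefree {K V : Type*} [Field K] [AddCommGroup V] [Module K V]
    {F : Module.End K V} {f : Polynomial K} (hf : Squarefree f) {x : V}
    (hx : Polynomial.aeval F f x = 0) {μ : K} (hμ : x ∈ F.maxGenEigenspace μ) : F x = μ • x := by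
  classical
  obtain ⟨N, hN⟩ := (Module.End.mem_maxGenEigenspace F μ x).1 hμ
  set q : Polynomial K := Polynomial.X - Polynomial.C μ with hq
  have hq1 : Polynomial.aeval F q = F - μ • 1 := by
    rw [hq, map_sub, Polynomial.aeval_X, Polynomial.aeval_C, Algebra.algebraMap_eq_smul_one]
  have hirr : Irreducible q := Polynomial.irreducible_X_sub_C μ
  -- the greatest common divisor
  have h1 : ∃ u v : Polynomial K, ∃ j ≤ 1, u * f + v * q ^ N = q ^ j := by
    by_cases hdvd : q ∣ f
    · obtain ⟨r, hr⟩ := hdvd
      have hnr : ¬ q ∣ r := by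
        rintro ⟨r', hr'⟩
        apply hirr.not_isUnit
        apply hf q
        exact ⟨r', by rw [hr, hr', mul_assoc]⟩
      rcases Nat.eq_zero_or_pos N with hN0 | hN0
      · exact ⟨0, 1, 0, by omega, by rw [hN0]; ring⟩
      · have hcop : IsCoprime r (q ^ (N - 1)) := (((hirr.coprime_iff_not_dvd).2 hnr).symm).pow_right
        obtain ⟨u, v, huv⟩ := hcop
        refine ⟨u, v, 1, le_rfl, ?_⟩
        have h2 : q ^ N = q ^ (N - 1) * q := by
          rw [← pow_succ]
          congr 1
          omega
        rw [hr, h2, pow_one]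
        calc u * (q * r) + v * (q ^ (N - 1) * q) = (u * r + v * q ^ (N - 1)) * q := by ring
          _ = q := by rw [huv, one_mul]
    · have hcop : IsCoprime f (q ^ N) := (((hirr.coprime_iff_not_dvd).2 hdvd).symm).pow_right
      obtain ⟨u, v, huv⟩ := hcop
      exact ⟨u, v, 0, by omega, by rw [huv, pow_zero]⟩
  obtain ⟨u, v, j, hj, huv⟩ := h1
  have h2 : Polynomial.aeval F (q ^ j) x = 0 := by
    rw [← huv, map_add, map_mul, map_mul, LinearMap.add_apply, Module.End.mul_apply,
      Module.End.mul_apply, hx, map_zero, map_pow, hq1, hN, map_zero, add_zero]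
  have h3 : (F - μ • 1) x = 0 := by
    rcases Nat.lt_or_ge j 1 with h4 | h4
    · have hj0 : j = 0 := by omega
      rw [hj0, pow_zero, map_one, Module.End.one_apply] at h2
      rw [h2, map_zero]
    · have hj1 : j = 1 := by omega
      rw [hj1, pow_one, hq1] at h2
      exact h2
  rw [LinearMap.sub_apply, LinearMap.smul_apply, Module.End.one_apply, sub_eq_zero] at h3
  exact h3

lemma eig_ab (hB : IsEig Φ B lam) (hss : Pool.Agent.R908.SemisimpleOn (frobAll Φ X) (W.gr X 1)) :
    Eig (Φ := Φ) (lb B) (fun l : LW B 1 => lam (inc B 1 l)) := by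
  obtain ⟨f, hf, hf0⟩ := hss
  have h1 : ∀ l : LW B 1, frob Φ X 1 (lb B l) = lam (inc B 1 l) • lb B l := by
    intro l
    have h2 : frobAll Φ X = frob Φ X 1 := by
      apply LinearMap.ext
      intro x
      change W.map (Φ.Fr X) x = W.map (𝟙 X ≫ Φ.Fr X) x
      rw [Category.id_comp]
    have h3 := hf0 _ (lb_gr l)
    rw [h2] at h3
    exact eig_of_squarefree hf h3 (hB (inc B 1 l))
  refine ⟨fun l t => ?_, fun l h0 => ?_⟩
  · have h2 : frob Φ X t = frob Φ X 1 ^ t := by rw [← frob_mul_eq, one_mul]
    rw [h2]
    induction t with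
    | zero => rw [pow_zero, pow_zero, one_smul, Module.End.one_apply]
    | succ t ih =>
      rw [pow_succ, Module.End.mul_apply, h1, map_smul, ih (by rw [← frob_mul_eq, one_mul]),
        smul_smul, pow_succ, mul_comm]
  · have h2 := h1 l
    rw [h0, zero_smul] at h2
    have h3 : lb B l = 0 := by
      apply W534.map_iter_injective Φ 1
      rw [map_zero]
      exact h2
    exact B.b.ne_zero _ h3

end Pool.Agent.L7h94.SI
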