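import Pool.Agent.L7h94.SI.AbA

/-!
# Dual letters of abelian varieties
-/

set_option linter.unusedVariables false
set_option linter.unusedSectionVars false
set_option autoImplicit false

open CategoryTheory AlgebraicGeometry CategoryTheory.Limits

universe u v w

namespace Pool.Agent.L7h94.SI

open Module
open Pool.Agent.H914 Pool.Agent.H914.VarClass Pool.Agent.H914.VarClass.Obj
  Pool.Agent.H914.WeilCohomology Pool.Agent.W534 Pool.Agent.H281R3.HT
open Pool.Agent.Y133.Half (algSys cycRank numRank_add TSpan isTate_iff tateSet tateDim tateDim_eq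
  eig_mul')
open Pool.Agent.Y163 (pw pr HBasis)
open Pool.Agent.R940 (frob_pr frob_one' repr_zero IsEig)
open Pool.Agent.N181.Ab Pool.Agent.R908
open Pool.Agent.L7h94.GP (LW inc fac mem_span_words)

variable {k : Type u} [Field k] {𝒱 : VarClass k} {ops : CycleOps 𝒱}
  {W : WeilCohomology.{u, v} ops} {X Y Z : 𝒱.Obj} {p : ℕ} {Φ : FrobSystem W p}

variable {ι : Type v} {B : HBasis W X ι} {μ : LW B 1 → W.K} {m : X.prod X ⟶ X} {D : X.Cycles}

lemma lc_mul_iff (hE : Eig (Φ := Φ) (lb B) μ) (l l' : LW B 1) : lc hE l * lc hE l' = qc Φ X ↔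
    ∃ t, 0 < t ∧ (μ l * μ l') ^ t = ((p : W.K) ^ Φ.e X) ^ t := by
  have h1 : lc hE l * lc hE l' =
      ((Units.mk0 (μ l) (hE.ne l) * Units.mk0 (μ l') (hE.ne l') : W.Kˣ) : KT W.K) := rfl
  rw [h1, qc, kt_eq]
  refine exists_congr fun t => and_congr_right fun _ => ?_
  rw [Units.ext_iff]
  simp only [Units.val_pow_eq_pow_val, Units.val_mul, Units.val_mk0]

lemma cyc_scaled (hA : X.IsCyc 1 D) : ∃ s, 0 < s ∧ ∀ t,
    W.map (W534.iter (Φ.Fr X) (s * t)) (W.cl X D) =
      (((p : W.K) ^ Φ.e X) ^ (s * t)) • W.cl X D := by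
  obtain ⟨s, hs, h⟩ := Φ.cyc hA
  refine ⟨s, hs, fun t => ?_⟩
  rw [W534.frob_mul Φ h t, mul_one, pow_mul]

/-- **Products of dual letters are algebraic.** -/
theorem algPair_ab (hA : IsAbelian Φ X m D) (hE : Eig (Φ := Φ) (lb B) μ) :
    AlgPair (lb B) (fun c => qc Φ X / c) (lc hE) := by
  intro l l' h Y f f'
  have h1 : lc hE l * lc hE l' = qc Φ X := by
    rw [h]
    exact mul_div_cancel _ _
  obtain ⟨t, ht, h2⟩ := (lc_mul_iff hE l l').1 h1
  obtain ⟨s, hs, h3⟩ := cyc_scaled (Φ := Φ) hA.divisor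
  have h4 : μ l ^ (s * t) * μ l' ^ (s * t) = ((p : W.K) ^ Φ.e X) ^ (s * t) := by
    rw [← mul_pow, mul_comm s t, pow_mul, h2, ← pow_mul]
  have h5 := ext_pair hA (Nat.mul_pos hs ht) (pow_ne_zero _ (q_ne Φ X)) (h3 t) h4 (lb_gr l)
    (hE.eig l (s * t)) (lb_gr l') (hE.eig l' (s * t))
  have h6 := (algSys W).map (Obj.lift f f') (Pool.Agent.Y129.span_le_algSpan 1 h5)
  change W.map (Obj.lift f f') (W.map (fst X X) (lb B l) * W.map (snd X X) (lb B l')) ∈ _ at h6
  rw [map_mul, ← W.map_comp, ← W.map_comp, Obj.lift_fst, Obj.lift_snd] at h6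
  exact h6

/-! ### The pairing on the first cohomology group -/

/-- the Gram matrix of the Weil pairing -/
noncomputable def gm (B : HBasis W X ι) (D : X.Cycles) : Matrix (LW B 1) (LW B 1) W.K :=
  fun l l' => W.tr X (lb B l * lb B l' * W.cl X D ^ (X.dim - 1))

lemma class_of_gm (hA : X.IsCyc 1 D) (hdim : 1 ≤ X.dim) (hE : Eig (Φ := Φ) (lb B) μ)
    {l l' : LW B 1} (h : gm B D l l' ≠ 0) : lc hE l * lc hE l' = qc Φ X := by
  rw [lc_mul_iff]
  obtain ⟨s, hs, h3⟩ := cyc_scaled (Φ := Φ) hA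
  refine ⟨s, hs, ?_⟩
  have h1 := tr_iter Φ s (lb B l * lb B l' * W.cl X D ^ (X.dim - 1))
  have h4 := h3 1
  rw [mul_one] at h4
  have e1 : W.map (W534.iter (Φ.Fr X) s) (lb B l) = μ l ^ s • lb B l := hE.eig l s
  have e2 : W.map (W534.iter (Φ.Fr X) s) (lb B l') = μ l' ^ s • lb B l' := hE.eig l' s
  have e3 : W.map (W534.iter (Φ.Fr X) s) (lb B l * lb B l' * W.cl X D ^ (X.dim - 1)) =
      (μ l ^ s * μ l' ^ s * (((p : W.K) ^ Φ.e X) ^ s) ^ (X.dim - 1)) •
        (lb B l * lb B l' * W.cl X D ^ (X.dim - 1)) := by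
    rw [map_mul (W.map _), map_mul (W.map _), map_pow, h4, e1, e2, smul_mul_smul_comm, smul_pow,
      smul_mul_smul_comm]
  rw [e3, map_smul, smul_eq_mul] at h1
  have h5 := mul_right_cancel₀ h h1
  have h6 : ((p : W.K) ^ Φ.e X) ^ (s * (X.dim - 1)) ≠ 0 := pow_ne_zero _ (q_ne Φ X)
  refine mul_right_cancel₀ h6 ?_
  rw [mul_pow, pow_mul _ s (X.dim - 1), h5, ← pow_mul, ← pow_mul, ← pow_add]
  congr 1
  obtain ⟨r, hr⟩ : ∃ r, X.dim = r + 1 := ⟨X.dim - 1, by omega⟩
  rw [hr, Nat.add_sub_cancel]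
  ring

lemma mem_span_lb [Finite ι] {c : W.H X} (hc : c ∈ W.gr X 1) :
    c ∈ Submodule.span W.K (Set.range (lb B)) := by
  classical
  have hft : Fintype ι := Fintype.ofFinite ι
  rw [← B.b.sum_repr c]
  refine Submodule.sum_mem _ fun i _ => ?_
  by_cases h0 : B.b.repr c i = 0
  · rw [h0, zero_smul]
    exact Submodule.zero_mem _
  · refine Submodule.smul_mem _ _ (Submodule.subset_span ?_)
    have h1 : B.deg i = 1 := by
      by_contra hne
      exact h0 (repr_zero (W.isInternal X).submodule_iSupIndep B.b B.deg B.mem hc hne)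
    exact ⟨⟨i, by omega, by omega⟩, rfl⟩

lemma lb_li (B : HBasis W X ι) : LinearIndependent W.K (lb B) :=
  B.b.linearIndependent.comp (fun l : LW B 1 => inc B 1 l) fun l l' h => Subtype.ext h

/-- **The Weil pairing is nondegenerate.** -/
theorem det_gm [Finite ι] [Fintype (LW B 1)] [DecidableEq (LW B 1)] (hD : X.IsCyc 1 D)
    (hHL : HardLefschetz W X D) (hdim : 1 ≤ X.dim) : (gm B D).det ≠ 0 := by
  intro hdet
  obtain ⟨c, hc, h0⟩ := Matrix.exists_vecMul_eq_zero_iff.2 hdet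
  apply hc
  set x : W.H X := ∑ l, c l • lb B l with hx
  have hx1 : x ∈ W.gr X 1 := Submodule.sum_mem _ fun l _ => Submodule.smul_mem _ _ (lb_gr l)
  have hD2 : W.cl X D ∈ W.gr X (2 * 1) := W.cl_mem hD
  have hDp : ∀ n, W.cl X D ^ n ∈ W.gr X (2 * n) := by
    intro n
    induction n with
    | zero => rw [pow_zero, mul_zero]; exact W.one_mem X
    | succ n ih =>
      rw [pow_succ, show 2 * (n + 1) = 2 * n + 2 * 1 by ring]
      exact W.mul_mem ih hD2
  have h1 : ∀ y ∈ W.gr X 1, W.tr X (x * y * W.cl X D ^ (X.dim - 1)) = 0 := by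
    intro y hy
    have hsp := mem_span_lb (B := B) hy
    clear hy
    induction hsp using Submodule.span_induction with
    | mem y hy =>
      obtain ⟨l', rfl⟩ := hy
      have h2 := congrFun h0 l'
      rw [Matrix.vecMul, Pi.zero_apply, dotProduct] at h2
      rw [hx, Finset.sum_mul, Finset.sum_mul, map_sum]
      refine Eq.trans (Finset.sum_congr rfl fun l _ => ?_) h2
      rw [smul_mul_assoc, smul_mul_assoc, map_smul, smul_eq_mul]
      rfl
    | zero => rw [mul_zero, zero_mul, map_zero]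
    | add y y' _ _ h2 h3 => rw [mul_add, add_mul, map_add, h2, h3, add_zero]
    | smul a y _ h2 => rw [mul_smul_comm, smul_mul_assoc, map_smul, h2, smul_zero]
  have h2 : x * W.cl X D ^ (X.dim - 1) = 0 := by
    apply W.nondeg
    intro y
    refine gr_induction (W.isInternal X) (p := fun y =>
      W.tr X (x * W.cl X D ^ (X.dim - 1) * y) = 0) ?_ ?_ y
    · intro i y hy
      by_cases hi : i = 1
      · subst hi
        rw [mul_assoc, W.even_comm (hDp _), ← mul_assoc]
        exact h1 y hy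
      · refine W.tr_eq_zero (W.mul_mem (W.mul_mem hx1 (hDp _)) hy) ?_
        omega
    · intro y y' hy hy'
      rw [mul_add, map_add, hy, hy', add_zero]
  have h3 : x = 0 := by
    refine (hHL 1 hdim).1 x hx1 ?_
    rw [LinearMap.pow_mulLeft, LinearMap.mulLeft_apply, W.even_comm (hDp _)]
    exact h2
  funext l
  exact Fintype.linearIndependent_iff.1 (lb_li B) c h3 l

/-- **The involution of the letters.** -/
theorem exists_tau [Finite ι] [Fintype (LW B 1)] [DecidableEq (LW B 1)] (hD : X.IsCyc 1 D)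
    (hHL : HardLefschetz W X D) (hL : Letters (W := W) (lb B)) (hE : Eig (Φ := Φ) (lb B) μ) :
    ∃ τ : Equiv.Perm (LW B 1), ∀ l, lc hE (τ l) = qc Φ X / lc hE l := by
  rcases Nat.eq_zero_or_pos X.dim with h0 | hdim
  · have h1 := card_beta hL
    rw [h0, mul_zero, Fintype.card_eq_zero_iff] at h1
    exact ⟨Equiv.refl _, fun l => (h1.false l).elim⟩
  · have h1 := det_gm (B := B) hD hHL hdim
    rw [Matrix.det_apply] at h1
    obtain ⟨τ, _, h2⟩ := Finset.exists_ne_zero_of_sum_ne_zero h1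
    refine ⟨τ, fun l => ?_⟩
    have h3 : gm B D (τ l) l ≠ 0 := by
      intro h4
      apply h2
      have h5 : ∏ i, gm B D (τ i) i = 0 :=
        Finset.prod_eq_zero (f := fun i => gm B D (τ i) i) (Finset.mem_univ l) h4
      exact (congrArg (fun t => Equiv.Perm.sign τ • t) h5).trans (smul_zero _)
    have h4 := class_of_gm hD hdim hE h3
    exact eq_div_of_mul_eq' h4

end Pool.Agent.L7h94.SI
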