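import Pool.Agent.L7h94.SI.Mono

/-!
# Algebraic monomials
-/

set_option linter.unusedVariables false
set_option linter.unusedSectionVars false
set_option autoImplicit false

open CategoryTheory AlgebraicGeometry CategoryTheory.Limits

universe u v w

namespace Pool.Agent.L7h94.SI

open Module
open Pool.Agent.H914 Pool.Agent.H914.VarClass Pool.Agent.H914.VarClass.Obj
  Pool.Agent.H914.WeilCohomology Pool.Agent.W534 Pool.Agent.H281R3.HT
open Pool.Agent.Y133.Half (algSys cycRank numRank_add)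
open Pool.Agent.Y129 (mem_transcendental)
open Pool.Agent.Y163 (pw pr)

lemma finrank_span_sub {K V ι : Type*} [Field K] [AddCommGroup V] [Module K V] [Fintype ι]
    (bm : Basis ι K V) (P : ι → Prop) [DecidablePred P] :
    finrank K (Submodule.span K (bm '' {i | P i})) = (Finset.univ.filter P).card := by
  have h1 : bm '' {i | P i} = Set.range (bm ∘ (Subtype.val : {i // P i} → ι)) := by
    ext x
    constructor
    · rintro ⟨i, hi, rfl⟩
      exact ⟨⟨i, hi⟩, rfl⟩
    · rintro ⟨⟨i, hi⟩, rfl⟩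
      exact ⟨i, hi, rfl⟩
  rw [h1, finrank_span_eq_card (bm.linearIndependent.comp _ Subtype.val_injective),
    Fintype.card_subtype]

lemma mem_span_sub {K V ι : Type*} [Field K] [AddCommGroup V] [Module K V] [Fintype ι]
    (bm : Basis ι K V) (P : ι → Prop) {x : V} (hx : ∀ i, bm.repr x i ≠ 0 → P i) :
    x ∈ Submodule.span K (bm '' {i | P i}) := by
  rw [← bm.sum_repr x]
  refine Submodule.sum_mem _ fun i _ => ?_
  by_cases h0 : bm.repr x i = 0
  · rw [h0, zero_smul]
    exact Submodule.zero_mem _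
  · exact Submodule.smul_mem _ _ (Submodule.subset_span ⟨i, hx i h0, rfl⟩)

variable {k : Type u} [Field k] {𝒱 : VarClass k} {ops : CycleOps 𝒱}
  {W : WeilCohomology.{u, v} ops} {X Y Z : 𝒱.Obj}

variable {β : Type w} [Fintype β] [DecidableEq β] {b : β → W.H X}
variable {κ : Type*} [DecidableEq κ] {st : κ → κ} {cls : β → κ}

lemma cv_univ (n : ℕ) : cv (Finset.univ : Finset (Fin (n + 1) × β)) =
    (n + 1) • wt (Finset.univ : Finset β).toList := by
  rw [cv, Fintype.sum_prod_type, wt, Finset.sum_map_toList]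
  simp only
  rw [Finset.sum_const, Finset.card_univ, Fintype.card_fin]

lemma cv_compl {n : ℕ} (S : Finset (Fin (n + 1) × β)) :
    cv Sᶜ + cv S = cv (Finset.univ : Finset (Fin (n + 1) × β)) :=
  Finset.sum_compl_add_sum S _

lemma cv_compl_mem (hu : wt (Finset.univ : Finset β).toList ∈ Bal st cls) {n : ℕ}
    (S : Finset (Fin (n + 1) × β)) : cv Sᶜ + cv S ∈ Bal st cls := by
  rw [cv_compl, cv_univ]
  exact AddSubgroup.nsmul_mem _ hu _

variable (h : Letters b) (hst : ∀ c, st (st c) = c) (hp : AlgPair b st cls)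
  (hu : wt (Finset.univ : Finset β).toList ∈ Bal st cls)

include hu in
theorem repr_Rh {n : ℕ} {x : W.H (pw X n)} (hx : x ∈ algSpan W (pw X n))
    {S : Finset (Fin (n + 1) × β)} (hS : (mob h n).repr x S ≠ 0) : cv S ∈ Rh b st cls := by
  refine ⟨pw X n, x, ml X n Sᶜ.toList, hx, ?_, ?_⟩
  · change W.tr (pw X n) (x * mo b n Sᶜ) ≠ 0
    rw [tr_repr h]
    exact mul_ne_zero hS (tr_mo_ne h n S)
  · rw [wt_ml]
    exact cv_compl_mem hu S

include h hst hp hu in
theorem mo_alg_iff {n : ℕ} (S : Finset (Fin (n + 1) × β)) :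
    mo b n S ∈ algSpan W (pw X n) ↔ cv S ∈ Rh b st cls := by
  constructor
  · intro h1
    refine repr_Rh h hu h1 ?_
    rw [← mob_apply h, Basis.repr_self, Finsupp.single_eq_same]
    exact one_ne_zero
  · intro h1
    refine alg_of_Rh h.gr hst hp h1 _ ?_
    rw [wt_ml, sub_self]
    exact AddSubgroup.zero_mem _

include hst hp hu in
theorem algSpan_mo (n : ℕ) : algSpan W (pw X n) =
    Submodule.span W.K (mob h n '' {S | cv S ∈ Rh b st cls}) := by
  apply le_antisymm
  · intro x hx
    exact mem_span_sub _ _ fun S hS => repr_Rh h hu hx hS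
  · rw [Submodule.span_le]
    rintro _ ⟨S, hS, rfl⟩
    rw [mob_apply]
    exact (mo_alg_iff h hst hp hu S).2 hS

/-- the coordinates of an algebraic class -/
lemma repr_alg_eq_zero {n : ℕ} {x : W.H (pw X n)} (hx : x ∈ algSpan W (pw X n))
    (hu : wt (Finset.univ : Finset β).toList ∈ Bal st cls)
    {S : Finset (Fin (n + 1) × β)} (hS : cv S ∉ Rh b st cls) : (mob h n).repr x S = 0 := by
  by_contra hcon
  exact hS (repr_Rh h hu hx hcon)

include hst hp hu in
theorem num_mo (n : ℕ) : (algSpan W (pw X n) ⊓ transcendental W (pw X n)) =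
    Submodule.span W.K (mob h n '' {S | cv S ∈ Rh b st cls ∧ cv Sᶜ ∉ Rh b st cls}) := by
  apply le_antisymm
  · rintro x ⟨hx, hx'⟩
    refine mem_span_sub _ _ fun S hS => ⟨repr_Rh h hu hx hS, fun h1 => ?_⟩
    have h2 := mem_transcendental.1 hx' _ ((mo_alg_iff h hst hp hu Sᶜ).2 h1)
    rw [Pool.Agent.Y129.algSpan_even ((mo_alg_iff h hst hp hu Sᶜ).2 h1), tr_repr h] at h2
    exact mul_ne_zero hS (tr_mo_ne h n S) h2
  · rw [Submodule.span_le]
    rintro _ ⟨S, ⟨hS, hS'⟩, rfl⟩
    rw [mob_apply]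
    refine ⟨(mo_alg_iff h hst hp hu S).2 hS, mem_transcendental.2 fun d hd => ?_⟩
    have h1 := tr_repr h n d Sᶜ
    rw [compl_compl] at h1
    rw [h1, repr_alg_eq_zero h hd hu hS', zero_mul]

lemma Rh_neg_iff (hu : wt (Finset.univ : Finset β).toList ∈ Bal st cls) {n : ℕ}
    (S : Finset (Fin (n + 1) × β)) : cv Sᶜ ∈ Rh b st cls ↔ - cv S ∈ Rh b st cls := by
  have h1 := cv_compl_mem (st := st) (cls := cls) hu S
  constructor
  · intro h2
    refine Rh_bal h2 ?_
    have h3 : -cv S - cv Sᶜ = -(cv Sᶜ + cv S) := by abel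
    rw [h3]
    exact AddSubgroup.neg_mem _ h1
  · intro h2
    refine Rh_bal h2 ?_
    rwa [sub_neg_eq_add]

include h hst hp hu in
/-- The rank of the cycles modulo numerical equivalence. -/
theorem numRank_mo (n : ℕ) [DecidablePred fun z : β → ℤ => z ∈ Rh b st cls ∧ -z ∈ Rh b st cls] :
    cycRank ops (pw X n) = ((Finset.univ : Finset (Finset (Fin (n + 1) × β))).filter fun S =>
      cv S ∈ Rh b st cls ∧ - cv S ∈ Rh b st cls).card := by
  classical
  have h1 := numRank_add W (pw X n)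
  rw [num_mo h hst hp hu, algSpan_mo h hst hp hu, finrank_span_sub, finrank_span_sub,
    Pool.Agent.Y129.numRank_eq_sum] at h1
  have h2 : ((Finset.univ : Finset (Finset (Fin (n + 1) × β))).filter fun S =>
      cv S ∈ Rh b st cls).card = ((Finset.univ : Finset (Finset (Fin (n + 1) × β))).filter fun S =>
      cv S ∈ Rh b st cls ∧ - cv S ∈ Rh b st cls).card +
      ((Finset.univ : Finset (Finset (Fin (n + 1) × β))).filter fun S =>
      cv S ∈ Rh b st cls ∧ cv Sᶜ ∉ Rh b st cls).card := by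
    rw [← Finset.card_union_of_disjoint]
    · congr 1
      ext S
      simp only [Finset.mem_filter, Finset.mem_univ, true_and, Finset.mem_union, Rh_neg_iff hu]
      tauto
    · rw [Finset.disjoint_left]
      intro S h3 h4
      simp only [Finset.mem_filter, Finset.mem_univ, true_and, Rh_neg_iff hu] at h3 h4
      exact h4.2 h3.2
  rw [h2] at h1
  rw [cycRank]
  have h3 := Nat.add_right_cancel h1
  rw [h3]

include h hst hp hu in
lemma Rh_zero : (0 : β → ℤ) ∈ Rh b st cls := by
  have h1 : wt ((UL X β).map Prod.snd) = wt (Finset.univ : Finset β).toList := by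
    rw [UL, List.map_map]
    congr 1
    exact List.map_id _
  refine ⟨X, PL b (UL X β), [], PL_alg h.gr hst hp _ (by rw [h1]; exact hu), ?_, ?_⟩
  · rw [PL_nil, mul_one]
    exact h.top
  · rw [List.map_nil, wt_nil, add_zero]
    exact AddSubgroup.zero_mem _

/-- The group of the algebraic vectors modulo numerical equivalence. -/
def RG : AddSubgroup (β → ℤ) where
  carrier := {z | z ∈ Rh b st cls ∧ -z ∈ Rh b st cls}
  zero_mem' := by
    have h1 := Rh_zero h hst hp hu
    exact ⟨h1, by rwa [neg_zero]⟩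
  add_mem' {x y} hx hy := ⟨Rh_add hx.1 hy.1, by rw [neg_add]; exact Rh_add hx.2 hy.2⟩
  neg_mem' {x} hx := ⟨hx.2, by rw [neg_neg]; exact hx.1⟩

lemma mem_RG {z : β → ℤ} : z ∈ RG h hst hp hu ↔ z ∈ Rh b st cls ∧ -z ∈ Rh b st cls := Iff.rfl

lemma bal_le_RG : Bal st cls ≤ RG h hst hp hu := by
  intro z hz
  have h1 := Rh_zero h hst hp hu
  refine ⟨Rh_bal h1 (by rwa [sub_zero]), Rh_bal h1 ?_⟩
  rw [sub_zero]
  exact AddSubgroup.neg_mem _ hz

end Pool.Agent.L7h94.SI
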