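import Pool.Agent.L7h94.SI.Frob
import Pool.Agent.L7h94.SI.Share

/-!
# Counting Tate classes and algebraic classes
-/

set_option linter.unusedVariables false
set_option linter.unusedSectionVars false
set_option autoImplicit false

open CategoryTheory AlgebraicGeometry CategoryTheory.Limits

universe u v w

namespace Pool.Agent.L7h94.SI

open Module

/-! ### Balanced vectors -/

section Comb

variable {β κ : Type*} [Fintype β] [DecidableEq β] [CommGroup κ] [DecidableEq κ] {q : κ}
  {cls : β → κ}

lemma st_st (c : κ) : q / (q / c) = c := div_div_cancel q c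

lemma wt_univ (l : β) : wt (Finset.univ : Finset β).toList l = 1 := by
  rw [wt, Finset.sum_map_toList, Finset.sum_apply, Finset.sum_eq_single l]
  · rw [Pi.single_eq_same]
  · intro j _ hj
    rw [Pi.single_eq_of_ne hj.symm]
  · intro h; exact absurd (Finset.mem_univ _) h

lemma csum_univ (c : κ) : csum cls c (wt (Finset.univ : Finset β).toList) =
    ((Finset.univ.filter fun l => cls l = c).card : ℤ) := by
  change ∑ l, (if cls l = c then wt (Finset.univ : Finset β).toList l else 0) = _
  simp only [wt_univ]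
  rw [Finset.card_filter]
  push_cast
  rfl

/-- **The vector of all letters is balanced.** -/
theorem ones_mem (hκ : ∀ c d : κ, c ^ 2 = d ^ 2 → c = d) (τ : Equiv.Perm β)
    (hτ : ∀ l, cls (τ l) = q / cls l) (heven : Even (Fintype.card β)) :
    wt (Finset.univ : Finset β).toList ∈ Bal (fun c => q / c) cls := by
  have hn : ∀ c, (Finset.univ.filter fun l => cls l = c).card =
      (Finset.univ.filter fun l => cls l = q / c).card := by
    intro c
    refine Finset.card_bij (fun l _ => τ l) ?_ ?_ ?_
    · intro l hl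
      rw [Finset.mem_filter] at hl ⊢
      exact ⟨Finset.mem_univ _, by rw [hτ, hl.2]⟩
    · intro l _ l' _ h
      exact τ.injective h
    · intro l hl
      rw [Finset.mem_filter] at hl
      refine ⟨τ.symm l, ?_, τ.apply_symm_apply l⟩
      rw [Finset.mem_filter]
      refine ⟨Finset.mem_univ _, ?_⟩
      have h1 := hτ (τ.symm l)
      rw [τ.apply_symm_apply, hl.2] at h1
      rw [← st_st (q := q) (cls (τ.symm l)), ← h1, st_st]
  intro c
  rw [csum_univ, csum_univ]
  refine ⟨by exact_mod_cast hn c, fun hc => ?_⟩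
  rw [Int.even_coe_nat, ← ZMod.natCast_eq_zero_iff_even]
  set F : κ → ℕ := fun c => (Finset.univ.filter fun l => cls l = c).card with hF
  set s : Finset κ := Finset.univ.image cls with hs
  have hcard : Fintype.card β = ∑ c' ∈ s, F c' := by
    rw [← Finset.card_univ]
    exact Finset.card_eq_sum_card_fiberwise fun l _ => Finset.mem_image_of_mem _ (Finset.mem_univ l)
  have hmem : ∀ c', c' ∈ s ↔ 0 < F c' := by
    intro c'
    rw [hs, Finset.mem_image, hF]
    constructor
    · rintro ⟨l, _, hl⟩
      exact Finset.card_pos.2 ⟨l, Finset.mem_filter.2 ⟨Finset.mem_univ _, hl⟩⟩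
    · intro h
      obtain ⟨l, hl⟩ := Finset.card_pos.1 h
      exact ⟨l, Finset.mem_univ _, (Finset.mem_filter.1 hl).2⟩
  have h1 : ∑ c' ∈ s.erase c, (F c' : ZMod 2) = 0 := by
    refine Finset.sum_involution (fun c' _ => q / c') (fun c' _ => ?_) (fun c' hc' _ => ?_)
      (fun c' hc' => ?_) (fun c' _ => st_st c')
    · have h2 : F (q / c') = F c' := (hn c').symm
      rw [h2]
      exact CharTwo.add_self_eq_zero _
    · intro h2
      apply Finset.ne_of_mem_erase hc'
      apply hκ
      rw [div_eq_iff_eq_mul] at hc h2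
      rw [sq, sq, ← h2, ← hc]
    · refine Finset.mem_erase.2 ⟨fun h2 => ?_, ?_⟩
      · apply Finset.ne_of_mem_erase hc'
        rw [← st_st (q := q) c', h2]
        exact hc
      · rw [hmem]
        have h2 : F (q / c') = F c' := (hn c').symm
        rw [h2, ← hmem]
        exact Finset.mem_of_mem_erase hc'
  have h2 : (Fintype.card β : ZMod 2) = 0 := (ZMod.natCast_eq_zero_iff_even).2 heven
  rw [hcard, Nat.cast_sum] at h2
  by_cases hcs : c ∈ s
  · rw [← Finset.add_sum_erase _ _ hcs, h1, add_zero] at h2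
    exact h2
  · have h3 : F c = 0 := by
      by_contra h4
      exact hcs ((hmem c).2 (Nat.pos_of_ne_zero h4))
    change ((F c : ℕ) : ZMod 2) = 0
    rw [h3, Nat.cast_zero]

lemma pair_mem_bal {l l' : β} (h : cls l' = q / cls l) :
    (Pi.single l 1 + Pi.single l' 1 : β → ℤ) ∈ Bal (fun c => q / c) cls := by
  have h1 : (Pi.single l 1 + Pi.single l' 1 : β → ℤ) = wt [l, l'] := by
    rw [wt_cons, wt_cons, wt_nil, add_zero]
  rw [h1, wt_mem_bal]
  intro c
  simp only [List.map_cons, List.map_nil, List.count_cons, List.count_nil, beq_iff_eq, zero_add, h]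
  have e1 : (q / cls l = c) ↔ (cls l = q / c) :=
    ⟨fun h => by rw [← h, st_st], fun h => by rw [h, st_st]⟩
  have e2 : (q / cls l = q / c) ↔ (cls l = c) :=
    ⟨fun h => by rw [← st_st (q := q) (cls l), h, st_st], fun h => by rw [h]⟩
  simp only [e1, e2]
  refine ⟨by omega, fun h2 => ?_⟩
  rw [h2, ← two_mul]
  exact even_two_mul _

/-- In the supersingular case all Tate vectors are balanced. -/
lemma TT_le_bal (hκ : ∀ c d : κ, c ^ 2 = d ^ 2 → c = d) (h : ∀ l, cls l ^ 2 = q) :
    TT q cls ≤ Bal (fun c => q / c) cls := by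
  intro z hz c
  have h1 : ∀ l, q / cls l = cls l := fun l => by rw [div_eq_iff_eq_mul, ← sq, h]
  have h2 : ∀ l, (cls l = q / c) ↔ (cls l = c) := by
    intro l
    constructor
    · intro h3
      rw [← st_st (q := q) c, ← h3, h1]
    · intro h3
      rw [← h3, h1]
  refine ⟨?_, fun _ => ?_⟩
  · change ∑ l, (if cls l = c then z l else 0) = ∑ l, (if cls l = q / c then z l else 0)
    simp only [h2]
  · change Even (∑ l, (if cls l = c then z l else 0))
    by_cases h3 : ∃ l, cls l = c
    · obtain ⟨l, hl⟩ := h3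
      have h4 : ∀ l', cls l' = c := fun l' => by
        rw [← hl]
        exact hκ _ _ ((h l').trans (h l).symm)
      simp only [h4, if_true]
      exact hz.1
    · push Not at h3
      rw [Finset.sum_eq_zero fun l _ => if_neg (h3 l)]
      exact Even.zero

/-- Sets with a given vector. -/
lemma exists_cv (z : β → ℤ) : ∃ (N n : ℕ) (S : Finset (Fin (n + 1) × β)),
    cv S = z + N • wt (Finset.univ : Finset β).toList := by
  set N : ℕ := ∑ l, (z l).natAbs with hN
  have hle : ∀ l, (z l).natAbs ≤ N := fun l =>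
    Finset.single_le_sum (f := fun l => (z l).natAbs) (fun _ _ => Nat.zero_le _)
      (Finset.mem_univ l)
  set a : β → ℕ := fun l => (z l + N).toNat with ha
  set n : ℕ := 2 * N with hn
  refine ⟨N, n, Finset.univ.filter fun x : Fin (n + 1) × β => (x.1 : ℕ) < a x.2, ?_⟩
  funext l
  have h1 := hle l
  rw [cv, Finset.sum_apply, Pi.add_apply, Pi.smul_apply, wt_univ, Finset.sum_filter,
    Fintype.sum_prod_type]
  have h2 : ∀ i : Fin (n + 1), ∑ l' : β, (if ((i : ℕ) < a l') then
      (Pi.single l' 1 : β → ℤ) l else 0) = if (i : ℕ) < a l then 1 else 0 := by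
    intro i
    rw [Finset.sum_eq_single l]
    · rw [Pi.single_eq_same]
    · intro j _ hj
      rw [Pi.single_eq_of_ne hj.symm, ite_self]
    · intro h; exact absurd (Finset.mem_univ _) h
  have h3 : ∑ i : Fin (n + 1), (if (i : ℕ) < a l then (1 : ℤ) else 0) = a l := by
    rw [Fin.sum_univ_eq_sum_range (fun i => if i < a l then (1 : ℤ) else 0) (n + 1),
      ← Finset.sum_filter, Finset.sum_const, nsmul_eq_mul, mul_one]
    have h4 : (Finset.range (n + 1)).filter (fun i => i < a l) = Finset.range (a l) := by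
      ext i
      simp only [Finset.mem_filter, Finset.mem_range, ha, hn]
      omega
    rw [h4, Finset.card_range]
  refine (Finset.sum_congr rfl fun i _ => h2 i).trans (h3.trans ?_)
  rw [ha, nsmul_eq_mul, mul_one]
  simp only
  omega

end Comb

open Pool.Agent.H914 Pool.Agent.H914.VarClass Pool.Agent.H914.VarClass.Obj
  Pool.Agent.H914.WeilCohomology Pool.Agent.W534 Pool.Agent.H281R3.HT
open Pool.Agent.Y133.Half (algSys cycRank numRank_add TSpan isTate_iff tateSet tateDim tateDim_eq
  eig_mul' alg_le_trueTate)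
open Pool.Agent.Y163 (pw pr)

variable {k : Type u} [Field k] {𝒱 : VarClass k} {ops : CycleOps 𝒱}
  {W : WeilCohomology.{u, v} ops} {X Y Z : 𝒱.Obj} {p : ℕ} {Φ : FrobSystem W p}

variable {β : Type w} [Fintype β] [DecidableEq β] {b : β → W.H X} {lam : β → W.K}
  [DecidableEq (KT W.K)]

/-- The data of an abelian variety which are used in the proof. -/
structure Data (Φ : FrobSystem W p) (b : β → W.H X) (lam : β → W.K) : Prop where
  letters : Letters b
  eig : Eig (Φ := Φ) b lam
  pair : AlgPair b (fun c => qc Φ X / c) (lc eig)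
  tau : ∃ τ : Equiv.Perm β, ∀ l, lc eig (τ l) = qc Φ X / lc eig l

variable (h : Data Φ b lam)
include h

lemma Data.ones : wt (Finset.univ : Finset β).toList ∈ Bal (fun c => qc Φ X / c) (lc h.eig) := by
  obtain ⟨τ, hτ⟩ := h.tau
  refine ones_mem (fun c d hcd => kt_pow_inj two_pos hcd) τ hτ ?_
  rw [card_beta h.letters]
  exact even_two_mul _

/-- the group of algebraic vectors -/
noncomputable def Data.R : AddSubgroup (β → ℤ) := RG h.letters (fun c => st_st c) h.pair h.ones

/-- the group of Tate vectors -/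
noncomputable def Data.T : AddSubgroup (β → ℤ) := TT (qc Φ X) (lc h.eig)

lemma Data.T_of_Rh {n : ℕ} {S : Finset (Fin (n + 1) × β)}
    (hS : cv S ∈ Rh b (fun c => qc Φ X / c) (lc h.eig)) : cv S ∈ h.T := by
  classical
  have h1 := (mo_alg_iff h.letters (fun c => st_st c) h.pair h.ones S).2 hS
  have h2 : mo b n S ∈ TSpan Φ (pw X n) := alg_le_trueTate Φ (pw X n) h1
  rw [TSpan_mo h.letters h.eig, ← mob_apply h.letters, Basis.mem_span_image, Basis.repr_self] at h2
  refine h2 ?_
  rw [Finset.mem_coe, Finsupp.mem_support_iff, Finsupp.single_eq_same]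
  exact one_ne_zero

lemma Data.R_le_T : h.R ≤ h.T := by
  have h1 : ∀ {n : ℕ} {S : Finset (Fin (n + 1) × β)}, cv S ∈ h.R → cv S ∈ h.T :=
    fun hS => h.T_of_Rh ((mem_RG h.letters (fun c => st_st c) h.pair h.ones).1 hS).1
  have hones : wt (Finset.univ : Finset β).toList ∈ h.R :=
    bal_le_RG h.letters (fun c => st_st c) h.pair h.ones h.ones
  have hones' : wt (Finset.univ : Finset β).toList ∈ h.T := by
    have h2 : cv (Finset.univ : Finset (Fin (0 + 1) × β)) = wt (Finset.univ : Finset β).toList := by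
      rw [cv_univ, zero_add, one_smul]
    rw [← h2]
    apply h1
    rw [h2]
    exact hones
  intro z hz
  obtain ⟨N, n, S, hS⟩ := exists_cv z
  have h2 : cv S ∈ h.R := by
    rw [hS]
    exact h.R.add_mem hz (h.R.nsmul_mem hones N)
  have h3 := h1 h2
  rw [hS] at h3
  have h4 := h.T.sub_mem h3 (h.T.nsmul_mem hones' N)
  rwa [add_sub_cancel_right] at h4

/-- the letters in the quotient -/
noncomputable def Data.w (l : β) : (β → ℤ) ⧸ h.R := QuotientAddGroup.mk (Pi.single l 1)

/-- the Tate classes in the quotient -/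
noncomputable def Data.H : AddSubgroup ((β → ℤ) ⧸ h.R) := h.T.map (QuotientAddGroup.mk' h.R)

lemma Data.sum_w {n : ℕ} (S : Finset (Fin n × β)) : ∑ a ∈ S, h.w a.2 =
    QuotientAddGroup.mk' h.R (∑ a ∈ S, Pi.single a.2 1) := by
  rw [map_sum]
  rfl

lemma Data.mem_H {z : β → ℤ} : QuotientAddGroup.mk' h.R z ∈ h.H ↔ z ∈ h.T := by
  constructor
  · rintro ⟨y, hy, hyz⟩
    have h1 : y - z ∈ h.R := by
      rw [← QuotientAddGroup.eq_zero_iff]
      have h2 : (QuotientAddGroup.mk' h.R) (y - z) = 0 := by rw [map_sub, hyz, sub_self]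
      exact h2
    have h2 := h.T.sub_mem hy (h.R_le_T h1)
    rwa [sub_sub_cancel] at h2
  · intro hz
    exact ⟨z, hz, rfl⟩

/-- **The rank of the cycles.** -/
theorem Data.rank_eq (n : ℕ) : cycRank ops (pw X n) = rN h.w (n + 1) := by
  classical
  rw [numRank_mo h.letters (fun c => st_st c) h.pair h.ones, rN]
  congr 1
  ext S
  simp only [Finset.mem_filter, Finset.mem_univ, true_and]
  rw [h.sum_w, ← mem_RG h.letters (fun c => st_st c) h.pair h.ones]
  exact (QuotientAddGroup.eq_zero_iff (cv S)).symm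

/-- **The dimension of the Tate classes.** -/
theorem Data.tate_eq (n : ℕ) : tateDim Φ (pw X n) = tN h.w h.H (n + 1) := by
  classical
  rw [tateDim_mo h.letters h.eig, tN]
  congr 1
  ext S
  simp only [Finset.mem_filter, Finset.mem_univ, true_and]
  rw [h.sum_w, h.mem_H]
  exact Iff.rfl

lemma Data.pairing : ∃ e : Fin X.dim ⊕ Fin X.dim ≃ β,
    (∀ i, lc h.eig (e (Sum.inr i)) = qc Φ X / lc h.eig (e (Sum.inl i))) ∧
    ∀ i, h.w (e (Sum.inr i)) = - h.w (e (Sum.inl i)) := by
  obtain ⟨e, he⟩ := exists_pairing (fun c => st_st c) (card_beta h.letters) h.ones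
  refine ⟨e, he, fun i => ?_⟩
  rw [eq_neg_iff_add_eq_zero, Data.w, Data.w, ← QuotientAddGroup.mk_add,
    QuotientAddGroup.eq_zero_iff, add_comm]
  exact bal_le_RG h.letters (fun c => st_st c) h.pair h.ones (pair_mem_bal (he i))

/-- **The algebraic classes among the Tate classes.** -/
theorem Data.share (n : ℕ) :
    tateDim Φ (pw X n) ^ 2 ≤ (4 * (n + 1)) ^ (X.dim - 1) * cycRank ops (pw X n) ^ 2 := by
  classical
  obtain ⟨e, he, hew⟩ := h.pairing
  rw [h.tate_eq, h.rank_eq]
  have h1 := share_le h.w e hew h.H ?_ (n := n + 1) (by omega)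
  · rw [Fintype.card_fin] at h1
    exact h1
  · by_contra hcon
    push Not at hcon
    obtain ⟨hH, hi⟩ := hcon
    apply hH
    have h2 : ∀ i, lc h.eig (e (Sum.inl i)) ^ 2 = qc Φ X := by
      intro i
      obtain ⟨r, hr, h3⟩ := hi i
      have h4 : (r • (Pi.single (e (Sum.inl i)) 1 : β → ℤ)) ∈ h.T := by
        rw [← h.mem_H, map_nsmul]
        exact h3
      have h5 := h4.2
      have h6 : ∑ l, (r • (Pi.single (e (Sum.inl i)) 1 : β → ℤ)) l = r := by
        simp only [Pi.smul_apply, nsmul_eq_mul]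
        rw [← Finset.mul_sum, sum_single, mul_one]
      have h7 : ∏ l, lc h.eig l ^ (r • (Pi.single (e (Sum.inl i)) 1 : β → ℤ)) l =
          lc h.eig (e (Sum.inl i)) ^ r := by
        simp only [Pi.smul_apply, nsmul_eq_mul, mul_comm ((r : ℕ) : ℤ), zpow_mul]
        rw [Finset.prod_zpow, prod_single]
        norm_cast
      rw [h6, h7, ← pow_mul, mul_comm r 2, pow_mul, zpow_natCast] at h5
      exact kt_pow_inj (by omega) h5
    have h3 : ∀ l, lc h.eig l ^ 2 = qc Φ X := by
      intro l
      obtain ⟨a, rfl⟩ := e.surjective l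
      rcases a with i | i
      · exact h2 i
      · rw [he, div_pow, h2, sq, mul_div_cancel_right]
    have h4 : h.T ≤ h.R := (TT_le_bal (fun c d hcd => kt_pow_inj two_pos hcd) h3).trans
      (bal_le_RG h.letters (fun c => st_st c) h.pair h.ones)
    rw [eq_bot_iff]
    rintro _ ⟨z, hz, rfl⟩
    rw [AddSubgroup.mem_bot]
    exact (QuotientAddGroup.eq_zero_iff z).2 (h4 hz)

end Pool.Agent.L7h94.SI
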