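import Mathlib

/-!
# Random subsets and their values in an abelian group

Let `w 1, ..., w g` be elements of an abelian group `Q`. We study the number of the pairs of subsets
of the disjoint union of `n` copies of each of the `w i` the difference of whose values is a given
element of `Q`, in terms of the group algebra of `Q`.
-/

set_option linter.unusedSectionVars false
set_option linter.unusedVariables false
set_option autoImplicit false

namespace Pool.Agent.L7h94.SI

open Finset AddMonoidAlgebra

noncomputable section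

variable {Q : Type*} [AddCommGroup Q]

/-- the inversion of the group algebra -/
def inv' : AddMonoidAlgebra ℝ Q →+* AddMonoidAlgebra ℝ Q :=
  AddMonoidAlgebra.mapDomainRingHom ℝ (-(AddMonoidHom.id Q))

theorem inv'_single (u : Q) (r : ℝ) : inv' (single u r) = single (-u) r := by
  change mapDomain _ (single u r) = _
  rw [mapDomain_single]
  rfl

theorem single_mul_self' (u v : Q) :
    (single u (1 : ℝ)) * single v (1 : ℝ) = single (u + v) (1 : ℝ) := by
  rw [single_mul_single, one_mul]

theorem one_eq : (1 : AddMonoidAlgebra ℝ Q) = single 0 1 := rfl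

/-- induction on elements of the group algebra -/
theorem ga_induction {P : AddMonoidAlgebra ℝ Q → Prop} (x : AddMonoidAlgebra ℝ Q)
    (h0 : P 0) (h1 : ∀ u r, P (single u r)) (h2 : ∀ a b, P a → P b → P (a + b)) : P x := by
  classical
  have h3 : x.coeff.sum single = x := sum_coeff_single x
  rw [← h3, Finsupp.sum]
  refine Finset.sum_induction _ P h2 h0 fun u _ => h1 u _

theorem inv'_inv' (x : AddMonoidAlgebra ℝ Q) : inv' (inv' x) = x := by
  induction x using ga_induction with
  | h0 => rw [map_zero, map_zero]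
  | h1 u r => rw [inv'_single, inv'_single, neg_neg]
  | h2 a b ha hb => rw [map_add, map_add, ha, hb]

/-- the coefficient at zero of `x` times the inverse of `y` -/
def ip (x y : AddMonoidAlgebra ℝ Q) : ℝ := (x * inv' y).coeff 0

theorem coeff_add' (x y : AddMonoidAlgebra ℝ Q) (κ : Q) :
    (x + y).coeff κ = x.coeff κ + y.coeff κ := by
  rw [AddMonoidAlgebra.coeff_add]; rfl

theorem coeff_sum' {ι : Type*} (s : Finset ι) (f : ι → AddMonoidAlgebra ℝ Q) (κ : Q) :
    (∑ i ∈ s, f i).coeff κ = ∑ i ∈ s, (f i).coeff κ := by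
  rw [AddMonoidAlgebra.coeff_sum, Finsupp.finsetSum_apply]

theorem coeff_shift (u : Q) (x : AddMonoidAlgebra ℝ Q) (κ : Q) :
    (single u 1 * x).coeff κ = x.coeff (κ - u) := by
  rw [AddMonoidAlgebra.coeff_single_mul_apply, one_mul, neg_add_eq_sub]

theorem ip_add_left (x y z : AddMonoidAlgebra ℝ Q) : ip (x + y) z = ip x z + ip y z := by
  rw [ip, add_mul, coeff_add']; rfl

theorem ip_add_right (x y z : AddMonoidAlgebra ℝ Q) : ip z (x + y) = ip z x + ip z y := by
  rw [ip, map_add, mul_add, coeff_add']; rfl

theorem ip_zero_left (x : AddMonoidAlgebra ℝ Q) : ip 0 x = 0 := by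
  rw [ip, zero_mul]; rfl

theorem ip_zero_right (x : AddMonoidAlgebra ℝ Q) : ip x 0 = 0 := by
  rw [ip, RingHom.map_zero inv', mul_zero]; rfl

theorem ip_neg_left (x y : AddMonoidAlgebra ℝ Q) : ip (-x) y = - ip x y := by
  have h := ip_add_left x (-x) y
  rw [add_neg_cancel, ip_zero_left] at h
  linarith

theorem ip_neg_right (x y : AddMonoidAlgebra ℝ Q) : ip y (-x) = - ip y x := by
  have h := ip_add_right x (-x) y
  rw [add_neg_cancel, ip_zero_right] at h
  linarith

theorem ip_sub_left (x y z : AddMonoidAlgebra ℝ Q) : ip (x - y) z = ip x z - ip y z := by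
  rw [sub_eq_add_neg, ip_add_left, ip_neg_left, sub_eq_add_neg]

theorem ip_sub_right (x y z : AddMonoidAlgebra ℝ Q) : ip z (x - y) = ip z x - ip z y := by
  rw [sub_eq_add_neg, ip_add_right, ip_neg_right, sub_eq_add_neg]

/-- moving a factor to the other side -/
theorem ip_mul_left (a x y : AddMonoidAlgebra ℝ Q) : ip (a * x) y = ip x (inv' a * y) := by
  rw [ip, ip, map_mul, inv'_inv', mul_comm a x, mul_assoc]

theorem ip_single_left (u : Q) (r : ℝ) (y : AddMonoidAlgebra ℝ Q) :
    ip (single u r) y = r * y.coeff u := by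
  induction y using ga_induction with
  | h0 => rw [ip_zero_right]; simp
  | h1 v s =>
    classical
    rw [ip, inv'_single, single_mul_single, coeff_single, coeff_single, Finsupp.single_apply,
      Finsupp.single_apply]
    by_cases h : v = u
    · rw [if_pos (by rw [h]; abel), if_pos h]
    · rw [if_neg (fun h' => h (by
        have h2 : u = v := by
          rw [← sub_eq_zero, sub_eq_add_neg]; exact h'
        exact h2.symm)), if_neg h, mul_zero]
  | h2 a b ha hb => rw [ip_add_right, ha, hb, coeff_add']; ring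

/-- the formula for the inner product -/
theorem ip_eq_sum (x y : AddMonoidAlgebra ℝ Q) {s : Finset Q} (hs : x.coeff.support ⊆ s) :
    ip x y = ∑ κ ∈ s, x.coeff κ * y.coeff κ := by
  classical
  have h1 : ip x y = ∑ κ ∈ x.coeff.support, x.coeff κ * y.coeff κ := by
    have h3 : x.coeff.sum single = x := sum_coeff_single x
    conv_lhs => rw [← h3]
    rw [Finsupp.sum]
    have h4 : ∀ t : Finset Q, ip (∑ κ ∈ t, single κ (x.coeff κ)) y =
        ∑ κ ∈ t, x.coeff κ * y.coeff κ := by
      intro t
      induction t using Finset.induction_on with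
      | empty => rw [sum_empty, sum_empty, ip_zero_left]
      | insert a t ha ih => rw [sum_insert ha, sum_insert ha, ip_add_left, ih, ip_single_left]
    exact h4 _
  rw [h1]
  refine sum_subset hs fun κ _ h => ?_
  rw [Finsupp.notMem_support_iff.1 h, zero_mul]

theorem ip_self_eq (x : AddMonoidAlgebra ℝ Q) {s : Finset Q} (hs : x.coeff.support ⊆ s) :
    ip x x = ∑ κ ∈ s, x.coeff κ ^ 2 := by
  rw [ip_eq_sum x x hs]
  exact sum_congr rfl fun κ _ => (sq _).symm

theorem ip_self_nonneg (x : AddMonoidAlgebra ℝ Q) : 0 ≤ ip x x := by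
  rw [ip_self_eq x subset_rfl]
  exact sum_nonneg fun κ _ => sq_nonneg _

theorem ip_comm (x y : AddMonoidAlgebra ℝ Q) : ip x y = ip y x := by
  classical
  rw [ip_eq_sum x y (s := x.coeff.support ∪ y.coeff.support) subset_union_left,
    ip_eq_sum y x (s := x.coeff.support ∪ y.coeff.support) subset_union_right]
  exact sum_congr rfl fun κ _ => mul_comm _ _

/-- the inequality of Cauchy and Schwarz -/
theorem ip_sq_le (x y : AddMonoidAlgebra ℝ Q) : ip x y ^ 2 ≤ ip x x * ip y y := by
  classical
  rw [ip_eq_sum x y (s := x.coeff.support ∪ y.coeff.support) subset_union_left,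
    ip_self_eq x (s := x.coeff.support ∪ y.coeff.support) subset_union_left,
    ip_self_eq y (s := x.coeff.support ∪ y.coeff.support) subset_union_right]
  exact sum_mul_sq_le_sq_mul_sq _ _ _

/-- translations are isometries -/
theorem ip_shift (u : Q) (x y : AddMonoidAlgebra ℝ Q) :
    ip (single u 1 * x) (single u 1 * y) = ip x y := by
  rw [ip_mul_left, ← mul_assoc, inv'_single, single_mul_self', neg_add_cancel, ← one_eq, one_mul]

/-- the correlation function -/
def cor (x : AddMonoidAlgebra ℝ Q) (u : Q) : ℝ := ip (single u 1 * x) x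

theorem cor_zero (x : AddMonoidAlgebra ℝ Q) : cor x 0 = ip x x := by
  rw [cor, ← one_eq, one_mul]

theorem cor_neg (x : AddMonoidAlgebra ℝ Q) (u : Q) : cor x (-u) = cor x u := by
  rw [cor, cor, ← ip_shift u, ← mul_assoc, single_mul_self', add_neg_cancel, ← one_eq, one_mul,
    ip_comm]

theorem cor_le (x : AddMonoidAlgebra ℝ Q) (u : Q) : cor x u ≤ cor x 0 := by
  have h1 := ip_sq_le (single u 1 * x) x
  rw [ip_shift] at h1
  rw [cor_zero]
  have h2 := ip_self_nonneg x
  nlinarith [abs_le_of_sq_le_sq' (a := cor x u) (b := ip x x) (by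
    rw [cor]; nlinarith) h2]

/-- the square of the norm of `x` minus its translate -/
def df (x : AddMonoidAlgebra ℝ Q) (u : Q) : ℝ := ip (x - single u 1 * x) (x - single u 1 * x)

theorem df_eq (x : AddMonoidAlgebra ℝ Q) (u : Q) : df x u = 2 * (cor x 0 - cor x u) := by
  rw [df, ip_sub_left, ip_sub_right, ip_sub_right, ip_shift, cor_zero, cor,
    ip_comm x (single u 1 * x)]
  ring

/-- the norm of a sum -/
theorem ip_sum_le {ι : Type*} (s : Finset ι) (f : ι → AddMonoidAlgebra ℝ Q) :
    ip (∑ i ∈ s, f i) (∑ i ∈ s, f i) ≤ s.card * ∑ i ∈ s, ip (f i) (f i) := by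
  classical
  set t : Finset Q := (∑ i ∈ s, f i).coeff.support ∪ s.biUnion fun i => (f i).coeff.support
  have h1 : ∀ i ∈ s, (f i).coeff.support ⊆ t := fun i hi =>
    (subset_biUnion_of_mem (fun i => (f i).coeff.support) hi).trans subset_union_right
  rw [ip_self_eq _ (s := t) subset_union_left, sum_congr rfl fun i hi => ip_self_eq _ (h1 i hi),
    sum_comm, mul_sum]
  refine sum_le_sum fun κ _ => ?_
  rw [coeff_sum']
  exact sq_sum_le_card_mul_sum_sq

/-- **The triangle inequality.** -/
theorem df_sum_le (x : AddMonoidAlgebra ℝ Q) (L : ℕ) (u : ℕ → Q) :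
    df x (∑ j ∈ range L, u j) ≤ L * ∑ j ∈ range L, df x (u j) := by
  have h1 : x - single (∑ j ∈ range L, u j) 1 * x =
      ∑ j ∈ range L, single (∑ i ∈ range j, u i) 1 * (x - single (u j) 1 * x) := by
    induction L with
    | zero => rw [range_zero, sum_empty, sum_empty, ← one_eq, one_mul, sub_self]
    | succ L ih =>
      rw [sum_range_succ (fun j => single (∑ i ∈ range j, u i) 1 * (x - single (u j) 1 * x)), ← ih,
        mul_sub, ← mul_assoc, single_mul_self', ← sum_range_succ]
      abel
  have h2 := ip_sum_le (range L) (fun j => single (∑ i ∈ range j, u i) 1 *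
    (x - single (u j) 1 * x))
  rw [← h1, card_range] at h2
  refine h2.trans (le_of_eq ?_)
  congr 1
  exact sum_congr rfl fun j _ => ip_shift _ _ _

/-! ### Logarithmic convexity -/

theorem bb_sq (w : Q) (y : AddMonoidAlgebra ℝ Q) :
    ip ((1 + single w 1) * y) ((1 + single w 1) * y) ^ 2 ≤
      ip ((1 + single w 1) * ((1 + single w 1) * y)) ((1 + single w 1) * ((1 + single w 1) * y)) *
        ip y y := by
  set b : AddMonoidAlgebra ℝ Q := 1 + single w 1 with hb
  have h1 : ip (b * y) (b * y) = ip (inv' b * (b * y)) y := by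
    rw [ip_mul_left (inv' b), inv'_inv']
  have h2 : inv' b = single (-w) 1 * b := by
    rw [hb, map_add, map_one, inv'_single, mul_add, mul_one, single_mul_self', neg_add_cancel,
      ← one_eq, add_comm]
  have h3 := ip_sq_le (inv' b * (b * y)) y
  rw [← h1] at h3
  refine h3.trans (le_of_eq ?_)
  congr 1
  rw [h2, mul_assoc, ip_shift]

end

end Pool.Agent.L7h94.SI
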