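import Pool.Agent.L7h94.SI.Smooth

/-!
# Counting subsets whose values lie in a subgroup
-/

set_option linter.unusedSectionVars false
set_option linter.unusedVariables false
set_option autoImplicit false

namespace Pool.Agent.L7h94.SI

open Finset AddMonoidAlgebra Real

noncomputable section

variable {Q : Type*} [AddCommGroup Q]

theorem df_nonneg (x : AddMonoidAlgebra ℝ Q) (u : Q) : 0 ≤ df x u := ip_self_nonneg _

theorem df_zero (x : AddMonoidAlgebra ℝ Q) : df x 0 = 0 := by
  rw [df_eq, sub_self, mul_zero]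

theorem df_neg (x : AddMonoidAlgebra ℝ Q) (u : Q) : df x (-u) = df x u := by
  rw [df_eq, df_eq, cor_neg]

theorem sqrt_df_add (x : AddMonoidAlgebra ℝ Q) (u v : Q) :
    √(df x (u + v)) ≤ √(df x u) + √(df x v) := by
  set a := x - single u 1 * x with ha
  set b := single u 1 * (x - single v 1 * x) with hb
  have h1 : x - single (u + v) 1 * x = a + b := by
    rw [ha, hb, mul_sub, ← mul_assoc, single_mul_self']
    abel
  have h2 : ip b b = df x v := by rw [hb, ip_shift]; rfl
  have h3 : ip a a = df x u := rfl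
  have h4 : df x (u + v) = ip a a + 2 * ip a b + ip b b := by
    change ip (x - single (u + v) 1 * x) (x - single (u + v) 1 * x) = _
    rw [h1, ip_add_left, ip_add_right, ip_add_right, ip_comm b a]
    ring
  rw [h2, h3] at h4
  have h5 : ip a b ≤ √(df x u) * √(df x v) := by
    have h6 := ip_sq_le a b
    rw [h2, h3] at h6
    rw [← Real.sqrt_mul (df_nonneg x u)]
    exact Real.le_sqrt_of_sq_le h6
  rw [Real.sqrt_le_left (by positivity), h4, add_sq, Real.sq_sqrt (df_nonneg x u),
    Real.sq_sqrt (df_nonneg x v)]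
  linarith

theorem sqrt_df_nsmul (x : AddMonoidAlgebra ℝ Q) (u : Q) (k : ℕ) :
    √(df x (k • u)) ≤ k * √(df x u) := by
  induction k with
  | zero => rw [zero_smul, df_zero]; simp
  | succ k ih =>
    rw [succ_nsmul]
    refine (sqrt_df_add x _ _).trans ?_
    push_cast
    linarith

theorem sqrt_df_zsmul (x : AddMonoidAlgebra ℝ Q) (u : Q) (k : ℤ) :
    √(df x (k • u)) ≤ |(k : ℝ)| * √(df x u) := by
  obtain ⟨m, rfl | rfl⟩ := Int.eq_nat_or_neg k
  · rw [natCast_zsmul]
    refine (sqrt_df_nsmul x u m).trans (le_of_eq ?_)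
    congr 1
    rw [Int.cast_natCast, abs_of_nonneg (Nat.cast_nonneg m)]
  · rw [neg_smul, natCast_zsmul, df_neg]
    refine (sqrt_df_nsmul x u m).trans (le_of_eq ?_)
    congr 1
    rw [Int.cast_neg, Int.cast_natCast, abs_neg, abs_of_nonneg (Nat.cast_nonneg m)]

theorem sqrt_df_sum {β : Type*} (x : AddMonoidAlgebra ℝ Q) (s : Finset β) (z : β → ℤ)
    (w : β → Q) : √(df x (∑ l ∈ s, z l • w l)) ≤ ∑ l ∈ s, |(z l : ℝ)| * √(df x (w l)) := by
  classical
  induction s using Finset.induction_on with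
  | empty => rw [sum_empty, sum_empty, df_zero, Real.sqrt_zero]
  | insert a s ha ih =>
    rw [sum_insert ha, sum_insert ha]
    exact (sqrt_df_add x _ _).trans (add_le_add (sqrt_df_zsmul x _ _) ih)

variable {Λ β : Type*} [Fintype Λ] [DecidableEq Λ] [Fintype β] [DecidableEq β]

theorem coeff_eq_cor (x : AddMonoidAlgebra ℝ Q) (κ : Q) : (x * inv' x).coeff κ = cor x κ := by
  rw [← cor_neg, cor, ip, mul_assoc, coeff_shift]
  congr 1
  abel

theorem inv'_XX (w : Λ → Q) (n : ℕ) : inv' (XX w n) = XX (fun i => - w i) n := by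
  rw [XX, XX, map_prod]
  refine prod_congr rfl fun i _ => ?_
  rw [map_pow, map_add, map_one, inv'_single]

/-- **The generating function.** -/
theorem card_eq (w : β → Q) (e : Λ ⊕ Λ ≃ β) (he : ∀ i, w (e (Sum.inr i)) = - w (e (Sum.inl i)))
    (n : ℕ) (κ : Q) [DecidableEq Q] :
    (((univ : Finset (Finset (Fin n × β))).filter fun S => ∑ p ∈ S, w p.2 = κ).card : ℝ) =
      cor (XX (fun i => w (e (Sum.inl i))) n) κ := by
  rw [← coeff_eq_cor]
  have h1 : XX (fun i => w (e (Sum.inl i))) n * inv' (XX (fun i => w (e (Sum.inl i))) n) =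
      ∏ p : Fin n × β, (1 + single (w p.2) (1 : ℝ)) := by
    have h0 : ∏ p : Fin n × β, (1 + single (w p.2) (1 : ℝ)) =
        ∏ _i : Fin n, ∏ b : β, (1 + single (w b) (1 : ℝ)) := Fintype.prod_prod_type _
    rw [h0, inv'_XX, prod_const, card_univ, Fintype.card_fin,
      ← e.prod_comp (fun b => 1 + single (w b) (1 : ℝ)), Fintype.prod_sum_type, mul_pow,
      ← prod_pow, ← prod_pow]
    simp only [XX, he]
  have h2 : ∀ S : Finset (Fin n × β), ∏ p ∈ S, single (w p.2) (1 : ℝ) =
      single (∑ p ∈ S, w p.2) (1 : ℝ) := by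
    intro S
    induction S using Finset.induction_on with
    | empty => rw [prod_empty, sum_empty, one_eq]
    | insert a S ha ih => rw [prod_insert ha, sum_insert ha, ih, single_mul_self']
  rw [h1, prod_one_add, coeff_sum', powerset_univ, card_filter, Nat.cast_sum]
  refine sum_congr rfl fun S _ => ?_
  rw [h2, coeff_single, Finsupp.single_apply]
  split_ifs <;> simp

/-- the norm of an integral vector -/
def l1 (z : β → ℤ) : ℝ := ∑ l, |(z l : ℝ)|

theorem l1_add (z z' : β → ℤ) : l1 (z + z') ≤ l1 z + l1 z' := by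
  rw [l1, l1, l1, ← sum_add_distrib]
  refine sum_le_sum fun l _ => ?_
  rw [Pi.add_apply, Int.cast_add]
  exact abs_add_le _ _

theorem l1_neg (z : β → ℤ) : l1 (-z) = l1 z := by
  rw [l1, l1]
  refine sum_congr rfl fun l _ => ?_
  rw [Pi.neg_apply, Int.cast_neg, abs_neg]

theorem l1_nonneg (z : β → ℤ) : 0 ≤ l1 z := sum_nonneg fun _ _ => abs_nonneg _

/-- the element of the group given by an integral vector -/
def elt (w : β → Q) : (β → ℤ) →+ Q where
  toFun z := ∑ l, z l • w l
  map_zero' := by simp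
  map_add' z z' := by simp only [Pi.add_apply, add_smul, sum_add_distrib]

theorem elt_apply (w : β → Q) (z : β → ℤ) : elt w z = ∑ l, z l • w l := rfl

/-- **The correlation at short vectors.** -/
theorem cor_short (w : β → Q) (e : Λ ⊕ Λ ≃ β) (he : ∀ i, w (e (Sum.inr i)) = - w (e (Sum.inl i)))
    {n : ℕ} (hn : 1 ≤ n) (z : β → ℤ) :
    (1 - 2 * l1 z ^ 2 * (Fintype.card Λ * log (n + 1) / n)) *
        cor (XX (fun i => w (e (Sum.inl i))) n) 0 ≤
      cor (XX (fun i => w (e (Sum.inl i))) n) (elt w z) := by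
  set x := XX (fun i => w (e (Sum.inl i))) n with hx
  set θ := Fintype.card Λ * log (n + 1) / n with hθ
  have hc0 : 0 < cor x 0 := by rw [cor_zero]; exact ip_XX_pos _ _
  have hθ0 : 0 ≤ θ := by
    rw [hθ]
    have h1 : 0 ≤ log ((n : ℝ) + 1) := log_nonneg (by
      have : (0 : ℝ) ≤ n := Nat.cast_nonneg n
      linarith)
    positivity
  have h1 : ∀ b : β, df x (w b) ≤ 4 * θ * cor x 0 := by
    have h2 : ∀ i : Λ, df x (w (e (Sum.inl i))) ≤ 4 * θ * cor x 0 := by
      intro i
      have h3 := smooth (fun i => w (e (Sum.inl i))) hn i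
      rw [df_eq]
      linarith
    intro b
    obtain ⟨a, rfl⟩ := e.surjective b
    rcases a with i | i
    · exact h2 i
    · rw [he, df_neg]
      exact h2 i
  have h2 : √(df x (elt w z)) ≤ l1 z * √(4 * θ * cor x 0) := by
    rw [elt_apply]
    refine (sqrt_df_sum x univ z w).trans ?_
    rw [l1, sum_mul]
    exact sum_le_sum fun l _ => mul_le_mul_of_nonneg_left (Real.sqrt_le_sqrt (h1 l)) (abs_nonneg _)
  have h3 : df x (elt w z) ≤ l1 z ^ 2 * (4 * θ * cor x 0) := by
    have h4 := pow_le_pow_left₀ (Real.sqrt_nonneg _) h2 2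
    rw [Real.sq_sqrt (df_nonneg _ _), mul_pow, Real.sq_sqrt (by positivity)] at h4
    exact h4
  rw [df_eq] at h3
  linarith

variable (w : β → Q)

/-- the number of the subsets with value zero -/
def rN (n : ℕ) : ℕ := by
  classical
  exact ((univ : Finset (Finset (Fin n × β))).filter fun S => ∑ p ∈ S, w p.2 = 0).card

/-- the number of the subsets with values in a subgroup -/
def tN (H : AddSubgroup Q) (n : ℕ) : ℕ := by
  classical
  exact ((univ : Finset (Finset (Fin n × β))).filter fun S => ∑ p ∈ S, w p.2 ∈ H).card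

theorem rN_eq (e : Λ ⊕ Λ ≃ β) (he : ∀ i, w (e (Sum.inr i)) = - w (e (Sum.inl i))) (n : ℕ) :
    (rN w n : ℝ) = cor (XX (fun i => w (e (Sum.inl i))) n) 0 := by
  classical
  rw [← card_eq w e he n 0, rN]

theorem sum_le_tN (e : Λ ⊕ Λ ≃ β) (he : ∀ i, w (e (Sum.inr i)) = - w (e (Sum.inl i)))
    (H : AddSubgroup Q) (n : ℕ) (s : Finset Q) (hs : ∀ κ ∈ s, κ ∈ H) :
    ∑ κ ∈ s, cor (XX (fun i => w (e (Sum.inl i))) n) κ ≤ tN w H n := by
  classical
  have h1 : ∀ κ ∈ s, cor (XX (fun i => w (e (Sum.inl i))) n) κ =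
      ((((univ : Finset (Finset (Fin n × β))).filter fun S => ∑ p ∈ S, w p.2 ∈ H).filter
        fun S => ∑ p ∈ S, w p.2 = κ).card : ℝ) := by
    intro κ hκ
    rw [← card_eq w e he n κ, filter_filter]
    congr 2
    ext S
    simp only [mem_filter, mem_univ, true_and]
    constructor
    · intro h; exact ⟨by rw [h]; exact hs κ hκ, h⟩
    · exact fun h => h.2
  rw [sum_congr rfl h1, ← Nat.cast_sum]
  have h2 : ∑ κ ∈ s, (((univ : Finset (Finset (Fin n × β))).filter
      fun S => ∑ p ∈ S, w p.2 ∈ H).filter fun S => ∑ p ∈ S, w p.2 = κ).card ≤ tN w H n := by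
    rw [tN, ← card_biUnion]
    · refine card_le_card ?_
      intro S hS
      obtain ⟨κ, _, h⟩ := mem_biUnion.1 hS
      exact (mem_filter.1 h).1
    · intro κ _ κ' _ hne
      rw [Function.onFun, disjoint_left]
      intro S h h'
      exact hne ((mem_filter.1 h).2.symm.trans (mem_filter.1 h').2)
  exact_mod_cast h2

/-- **The index is bounded by the share on one power.** -/
theorem index_le (e : Λ ⊕ Λ ≃ β) (he : ∀ i, w (e (Sum.inr i)) = - w (e (Sum.inl i)))
    (H : AddSubgroup Q) {L : ℝ} (hL : 0 ≤ L)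
    (hgen : ∀ H' : AddSubgroup Q, (∀ z : β → ℤ, elt w z ∈ H → l1 z ≤ L → elt w z ∈ H') → H ≤ H')
    {m n : ℕ} (hn : 1 ≤ n) {ε : ℝ}
    (h1 : 2 * (m * L) ^ 2 * (Fintype.card Λ * log (n + 1) / n) ≤ ε)
    (ht : (tN w H n : ℝ) < (m + 1) * (1 - ε) * rN w n) (s : Finset Q) (hs : ∀ κ ∈ s, κ ∈ H) :
    s.card ≤ m := by
  classical
  by_contra hcon
  push Not at hcon
  let A : ℕ → Set Q := fun j => {κ | ∃ z : β → ℤ, elt w z = κ ∧ κ ∈ H ∧ l1 z ≤ j * L}
  have hmono : ∀ j, A j ⊆ A (j + 1) := by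
    rintro j κ ⟨z, h2, h3, h4⟩
    refine ⟨z, h2, h3, h4.trans ?_⟩
    push_cast
    nlinarith
  have h0 : ∀ j, (0 : Q) ∈ A j := by
    intro j
    refine ⟨0, map_zero _, H.zero_mem, ?_⟩
    have : l1 (0 : β → ℤ) = 0 := by simp [l1]
    rw [this]
    positivity
  have hadd : ∀ j (κ : Q) (z : β → ℤ), κ ∈ A j → elt w z ∈ H → l1 z ≤ L →
      κ + elt w z ∈ A (j + 1) := by
    rintro j κ z ⟨z', h2, h3, h4⟩ hz hz'
    refine ⟨z' + z, by rw [map_add, h2], H.add_mem h3 hz, (l1_add _ _).trans ?_⟩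
    push_cast
    linarith
  have key : ∀ j, ((H : Set Q) ⊆ A j) ∨ ∃ s' : Finset Q, s'.card = j + 1 ∧ (s' : Set Q) ⊆ A j := by
    intro j
    induction j with
    | zero =>
      right
      refine ⟨{0}, by simp, ?_⟩
      rw [coe_singleton, Set.singleton_subset_iff]
      exact h0 0
    | succ j ih =>
      rcases ih with ih | ⟨s', hc, hs'⟩
      · exact Or.inl (ih.trans (hmono j))
      · by_cases h2 : ∃ κ ∈ A (j + 1), κ ∉ s'
        · obtain ⟨κ, h3, h4⟩ := h2
          right
          refine ⟨insert κ s', by rw [card_insert_of_notMem h4, hc], ?_⟩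
          rw [coe_insert]
          exact Set.insert_subset h3 (hs'.trans (hmono j))
        · push Not at h2
          left
          have h3 : ∀ κ ∈ A (j + 1), κ ∈ A j := fun κ hκ => hs' (h2 κ hκ)
          let H' : AddSubgroup Q :=
            { carrier := {κ | ∀ a ∈ A j, a + κ ∈ A j ∧ a - κ ∈ A j}
              zero_mem' := fun a ha => by rw [add_zero, sub_zero]; exact ⟨ha, ha⟩
              add_mem' := fun {κ κ'} hκ hκ' a ha => by
                refine ⟨?_, ?_⟩
                · rw [← add_assoc]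
                  exact (hκ' _ (hκ a ha).1).1
                · rw [← sub_sub]
                  exact (hκ' _ (hκ a ha).2).2
              neg_mem' := fun {κ} hκ a ha => by
                refine ⟨?_, ?_⟩
                · rw [← sub_eq_add_neg]
                  exact (hκ a ha).2
                · rw [sub_neg_eq_add]
                  exact (hκ a ha).1 }
          have h4 : H ≤ H' := by
            refine hgen H' fun z hz hz' a ha => ⟨h3 _ (hadd j a z ha hz hz'), ?_⟩
            have h5 := h3 _ (hadd j a (-z) ha (by rw [map_neg]; exact H.neg_mem hz)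
              (by rw [l1_neg]; exact hz'))
            rwa [map_neg, ← sub_eq_add_neg] at h5
          have h5 : A j ⊆ A (j + 1) := hmono j
          intro κ hκ
          have h6 := (h4 hκ 0 (h0 j)).1
          rw [zero_add] at h6
          exact h5 h6
  obtain ⟨s', hc, hs'⟩ : ∃ s' : Finset Q, s'.card = m + 1 ∧ (s' : Set Q) ⊆ A m := by
    rcases key m with h2 | h2
    · obtain ⟨s'', h3, h4⟩ := exists_subset_card_eq (s := s) (n := m + 1) hcon
      exact ⟨s'', h4, fun κ hκ => h2 (hs κ (h3 hκ))⟩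
    · exact h2
  have h2 := sum_le_tN w e he H n s' fun κ hκ => by
    obtain ⟨z, _, h, _⟩ := hs' hκ
    exact h
  have hc0 : 0 < cor (XX (fun i => w (e (Sum.inl i))) n) 0 := by
    rw [cor_zero]; exact ip_XX_pos _ _
  have hθ0 : 0 ≤ Fintype.card Λ * log ((n : ℝ) + 1) / n := by
    have h1 : 0 ≤ log ((n : ℝ) + 1) := log_nonneg (by
      have : (0 : ℝ) ≤ n := Nat.cast_nonneg n
      linarith)
    positivity
  have h3 : ∀ κ ∈ s', (1 - ε) * cor (XX (fun i => w (e (Sum.inl i))) n) 0 ≤
      cor (XX (fun i => w (e (Sum.inl i))) n) κ := by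
    intro κ hκ
    obtain ⟨z, hz, _, hz'⟩ := hs' hκ
    have h4 := cor_short w e he hn z
    rw [hz] at h4
    refine le_trans (mul_le_mul_of_nonneg_right ?_ hc0.le) h4
    have h5 : l1 z ^ 2 ≤ (m * L) ^ 2 := pow_le_pow_left₀ (l1_nonneg z) hz' 2
    have h6 := mul_le_mul_of_nonneg_right h5 hθ0
    nlinarith
  have h4 := sum_le_sum h3
  rw [sum_const, hc, nsmul_eq_mul, ← rN_eq w e he] at h4
  push_cast at h4
  linarith

/-- If the index is at most `m`. -/
theorem tN_le (e : Λ ⊕ Λ ≃ β) (he : ∀ i, w (e (Sum.inr i)) = - w (e (Sum.inl i)))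
    (H : AddSubgroup Q) {m : ℕ} (hm : ∀ s : Finset Q, (∀ κ ∈ s, κ ∈ H) → s.card ≤ m) (n : ℕ) :
    tN w H n ≤ m * rN w n := by
  classical
  set F := (univ : Finset (Finset (Fin n × β))).filter fun S => ∑ p ∈ S, w p.2 ∈ H with hF
  set s := F.image fun S => ∑ p ∈ S, w p.2 with hs
  have h1 : ∀ κ ∈ s, κ ∈ H := by
    intro κ hκ
    obtain ⟨S, hS, rfl⟩ := mem_image.1 hκ
    exact (mem_filter.1 hS).2
  have h2 : tN w H n = ∑ κ ∈ s, (F.filter fun S => ∑ p ∈ S, w p.2 = κ).card := by
    rw [tN, ← hF]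
    exact card_eq_sum_card_fiberwise fun S hS => mem_image_of_mem _ hS
  have h3 : ∀ κ ∈ s, (F.filter fun S => ∑ p ∈ S, w p.2 = κ).card ≤ rN w n := by
    intro κ _
    have h4 : ((F.filter fun S => ∑ p ∈ S, w p.2 = κ).card : ℝ) ≤ rN w n := by
      rw [rN_eq w e he]
      refine le_trans ?_ (cor_le _ κ)
      rw [← card_eq w e he n κ]
      have h5 : (F.filter fun S => ∑ p ∈ S, w p.2 = κ).card ≤
          ((univ : Finset (Finset (Fin n × β))).filter fun S => ∑ p ∈ S, w p.2 = κ).card :=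
        card_le_card (filter_subset_filter _ (subset_univ _))
      exact_mod_cast h5
    exact_mod_cast h4
  rw [h2]
  refine (sum_le_card_nsmul s _ _ h3).trans ?_
  rw [smul_eq_mul]
  exact Nat.mul_le_mul_right _ (hm s h1)

end

end Pool.Agent.L7h94.SI
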