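import Pool.Agent.L7h94.SI.Match
import Pool.Agent.L7h94.GP.Main
import Pool.Agent.L7h78.TI.Main
import Pool.Agent.N181.Ab.Pair

/-!
# Products of letters
-/

set_option linter.unusedVariables false
set_option linter.unusedSectionVars false
set_option autoImplicit false

open CategoryTheory AlgebraicGeometry CategoryTheory.Limits

universe u v w

namespace Pool.Agent.L7h94.SI

open Module
open Pool.Agent.H914 Pool.Agent.H914.VarClass Pool.Agent.H914.VarClass.Obj
  Pool.Agent.H914.WeilCohomology Pool.Agent.W534 Pool.Agent.H281R3.HT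
open Pool.Agent.Y133.Half (algSys)
open Pool.Agent.Y163 (pw pr)

variable {k : Type u} [Field k] {𝒱 : VarClass k} {ops : CycleOps 𝒱}
  {W : WeilCohomology.{u, v} ops} {X Y Z : 𝒱.Obj}

/-! ### Products of classes of degree one -/

lemma anti {x y : W.H Y} (hx : x ∈ W.gr Y 1) (hy : y ∈ W.gr Y 1) : x * y = -(y * x) := by
  rw [W.comm hx hy]
  simp

lemma sq_zero {x : W.H Y} (hx : x ∈ W.gr Y 1) : x * x = 0 := by
  have h1 := anti hx hx
  have h2 : (2 : W.K) • (x * x) = 0 := by
    rw [two_smul]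
    nth_rewrite 1 [h1]
    exact neg_add_cancel _
  exact (smul_eq_zero.1 h2).resolve_left two_ne_zero

lemma list_perm {L L' : List (W.H Y)} (h : L.Perm L') (hL : ∀ x ∈ L, x ∈ W.gr Y 1) :
    ∃ ε : W.K, ε ≠ 0 ∧ L.prod = ε • L'.prod := by
  induction h with
  | nil => exact ⟨1, one_ne_zero, by rw [one_smul]⟩
  | cons x h ih =>
    obtain ⟨ε, h1, h2⟩ := ih fun y hy => hL y (List.mem_cons_of_mem _ hy)
    exact ⟨ε, h1, by rw [List.prod_cons, List.prod_cons, h2, mul_smul_comm]⟩
  | swap x y l =>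
    refine ⟨-1, neg_ne_zero.2 one_ne_zero, ?_⟩
    rw [List.prod_cons, List.prod_cons, List.prod_cons, List.prod_cons, ← mul_assoc, ← mul_assoc,
      anti (hL y (by simp)) (hL x (by simp)), neg_mul, neg_smul, one_smul]
  | trans h h' ih ih' =>
    obtain ⟨ε, h1, h2⟩ := ih hL
    obtain ⟨ε', h1', h2'⟩ := ih' fun x hx => hL x (h.symm.subset hx)
    exact ⟨ε * ε', mul_ne_zero h1 h1', by rw [h2, h2', smul_smul]⟩

variable {β : Type w} (b : β → W.H X)

/-- the product of letters -/
noncomputable def PL {Y : 𝒱.Obj} (L : List ((Y ⟶ X) × β)) : W.H Y :=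
  (L.map fun a => W.map a.1 (b a.2)).prod

@[simp] lemma PL_nil : PL b ([] : List ((Y ⟶ X) × β)) = 1 := rfl

lemma PL_cons (a : (Y ⟶ X) × β) (L : List ((Y ⟶ X) × β)) :
    PL b (a :: L) = W.map a.1 (b a.2) * PL b L := by
  rw [PL, List.map_cons, List.prod_cons]
  rfl

lemma PL_append (L L' : List ((Y ⟶ X) × β)) : PL b (L ++ L') = PL b L * PL b L' := by
  rw [PL, List.map_append, List.prod_append]
  rfl

/-- the pull-back of a list -/
def pl {Y Z : 𝒱.Obj} (f : Z ⟶ Y) (L : List ((Y ⟶ X) × β)) : List ((Z ⟶ X) × β) :=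
  L.map fun a => (f ≫ a.1, a.2)

lemma pl_snd (f : Z ⟶ Y) (L : List ((Y ⟶ X) × β)) :
    (pl f L).map Prod.snd = L.map Prod.snd := by
  rw [pl, List.map_map]
  rfl

lemma PL_map (f : Z ⟶ Y) (L : List ((Y ⟶ X) × β)) : W.map f (PL b L) = PL b (pl f L) := by
  rw [PL, PL, pl, map_list_prod, List.map_map, List.map_map]
  congr 1
  refine List.map_congr_left fun a _ => ?_
  rw [Function.comp_apply, Function.comp_apply, ← W.map_comp]

variable {b} (hb : ∀ l, b l ∈ W.gr X 1)
include hb

lemma PL_gr (L : List ((Y ⟶ X) × β)) : PL b L ∈ W.gr Y L.length := by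
  induction L with
  | nil => exact W.one_mem Y
  | cons a L ih =>
    rw [PL_cons, List.length_cons, add_comm]
    exact W.mul_mem (W.map_mem _ (hb _)) ih

lemma PL_perm {L L' : List ((Y ⟶ X) × β)} (h : L.Perm L') :
    ∃ ε : W.K, ε ≠ 0 ∧ PL b L = ε • PL b L' := by
  refine list_perm (h.map _) fun x hx => ?_
  obtain ⟨a, _, rfl⟩ := List.mem_map.1 hx
  exact W.map_mem _ (hb _)

lemma PL_dup {L : List ((Y ⟶ X) × β)} (h : ¬ L.Nodup) : PL b L = 0 := by
  classical
  obtain ⟨a, ha⟩ : ∃ a, List.Sublist [a, a] L := by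
    by_contra hcon
    push Not at hcon
    exact h (List.nodup_iff_sublist.2 hcon)
  obtain ⟨L', hL'⟩ := ha.exists_perm_append
  obtain ⟨ε, _, h2⟩ := PL_perm (b := b) hb hL'
  rw [h2, List.cons_append, List.cons_append, List.nil_append, PL_cons, PL_cons, ← mul_assoc,
    sq_zero (W.map_mem _ (hb _)), zero_mul, smul_zero]

omit hb

/-! ### Balanced products -/

section Alg

variable {κ : Type*} [DecidableEq κ] {st : κ → κ} {cls : β → κ} [Fintype β] [DecidableEq β]

/-- The products of dual letters are algebraic. -/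
def AlgPair (b : β → W.H X) (st : κ → κ) (cls : β → κ) : Prop :=
  ∀ l l', cls l' = st (cls l) → ∀ (Y : 𝒱.Obj) (f f' : Y ⟶ X),
    W.map f (b l) * W.map f' (b l') ∈ algSpan W Y

include hb in
/-- **Balanced products of letters are algebraic.** -/
theorem PL_alg (hst : ∀ c, st (st c) = c) (hp : AlgPair b st cls) (L : List ((Y ⟶ X) × β))
    (h : wt (L.map Prod.snd) ∈ Bal st cls) : PL b L ∈ algSpan W Y := by
  have h1 : BalL st (L.map fun a => cls a.2) := by
    have h2 := wt_mem_bal.1 h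
    rwa [List.map_map] at h2
  obtain ⟨P, hP, hperm⟩ := matching hst (fun a : (Y ⟶ X) × β => cls a.2) _ L le_rfl h1
  obtain ⟨ε, _, h2⟩ := PL_perm hb hperm
  rw [h2]
  refine Submodule.smul_mem _ _ ?_
  clear h2 hperm
  induction P with
  | nil => exact (algSys W).one Y
  | cons x P ih =>
    rw [List.flatMap_cons, PL_append, PL_cons, PL_cons, PL_nil, mul_one]
    refine (algSys W).mul (hp _ _ (hP x (by simp)) _ _ _) ?_
    exact ih fun y hy => hP y (List.mem_cons_of_mem _ hy)

/-- The vectors `z` such that the products of letters with the vector `z` modulo balanced vectors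
are algebraic. -/
def Rh (b : β → W.H X) (st : κ → κ) (cls : β → κ) : Set (β → ℤ) :=
  {z | ∃ (Z : 𝒱.Obj) (x : W.H Z) (L : List ((Z ⟶ X) × β)), x ∈ algSpan W Z ∧
    W.tr Z (x * PL b L) ≠ 0 ∧ wt (L.map Prod.snd) + z ∈ Bal st cls}

include hb in
/-- **Products of letters are algebraic if an algebraic class pairs nontrivially with the dual
product.** -/
theorem alg_of_Rh (hst : ∀ c, st (st c) = c) (hp : AlgPair b st cls) {z : β → ℤ}
    (hz : z ∈ Rh b st cls) (L' : List ((Y ⟶ X) × β)) (h : wt (L'.map Prod.snd) - z ∈ Bal st cls) :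
    PL b L' ∈ algSpan W Y := by
  obtain ⟨Z, x, L, h1, h2, h3⟩ := hz
  have h4 : PL b (pl (fst Z Y) L ++ pl (snd Z Y) L') ∈ algSpan W (Z.prod Y) := by
    refine PL_alg hb hst hp _ ?_
    rw [List.map_append, wt_append, pl_snd, pl_snd]
    have h5 := (Bal st cls).add_mem h3 h
    have h6 : wt (L.map Prod.snd) + wt (L'.map Prod.snd) =
        wt (L.map Prod.snd) + z + (wt (L'.map Prod.snd) - z) := by abel
    rwa [h6]
  rw [PL_append, ← PL_map, ← PL_map] at h4
  have h5 := (algSys W).push (snd Z Y) ((algSys W).mul ((algSys W).map (fst Z Y) h1) h4)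
  rw [← mul_assoc, ← map_mul, W.push_snd] at h5
  have h6 := Submodule.smul_mem _ (W.tr Z (x * PL b L))⁻¹ h5
  rwa [smul_smul, inv_mul_cancel₀ h2, one_smul] at h6

lemma Rh_bal {z z' : β → ℤ} (hz : z ∈ Rh b st cls) (h : z' - z ∈ Bal st cls) :
    z' ∈ Rh b st cls := by
  obtain ⟨Z, x, L, h1, h2, h3⟩ := hz
  refine ⟨Z, x, L, h1, h2, ?_⟩
  have h4 := (Bal st cls).add_mem h3 h
  have h5 : wt (L.map Prod.snd) + z' = wt (L.map Prod.snd) + z + (z' - z) := by abel
  rwa [h5]

/-- Additivity. -/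
lemma Rh_add {z z' : β → ℤ} (hz : z ∈ Rh b st cls) (hz' : z' ∈ Rh b st cls) :
    z + z' ∈ Rh b st cls := by
  obtain ⟨Z, x, L, h1, h2, h3⟩ := hz
  obtain ⟨Z', x', L', h1', h2', h3'⟩ := hz'
  refine ⟨Z.prod Z', W.map (fst Z Z') x * W.map (snd Z Z') x',
    pl (fst Z Z') L ++ pl (snd Z Z') L', (algSys W).mul ((algSys W).map _ h1)
      ((algSys W).map _ h1'), ?_, ?_⟩
  · rw [PL_append, ← PL_map, ← PL_map]
    have h4 : W.map (snd Z Z') x' * W.map (fst Z Z') (PL b L) =
        W.map (fst Z Z') (PL b L) * W.map (snd Z Z') x' :=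
      Pool.Agent.Y129.algSpan_even ((algSys W).map (snd Z Z') h1') _
    have h5 : W.map (fst Z Z') x * W.map (snd Z Z') x' *
        (W.map (fst Z Z') (PL b L) * W.map (snd Z Z') (PL b L')) =
        W.map (fst Z Z') (x * PL b L) * W.map (snd Z Z') (x' * PL b L') := by
      rw [map_mul, map_mul, mul_assoc, ← mul_assoc (W.map (snd Z Z') x'), h4]
      simp only [mul_assoc]
    rw [h5, W.tr_prod]
    exact mul_ne_zero h2 h2'
  · rw [List.map_append, wt_append, pl_snd, pl_snd]
    have h4 := (Bal st cls).add_mem h3 h3'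
    have h5 : wt (L.map Prod.snd) + wt (L'.map Prod.snd) + (z + z') =
        wt (L.map Prod.snd) + z + (wt (L'.map Prod.snd) + z') := by abel
    rwa [h5]

end Alg

end Pool.Agent.L7h94.SI
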