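import Pool.Agent.L7h94.SI.Assem
import Pool.Agent.L7h94.SI.AbB

/-!
# The share of the algebraic classes among the Tate classes on the powers of an abelian variety
-/

set_option linter.unusedVariables false
set_option linter.unusedSectionVars false
set_option autoImplicit false

open CategoryTheory AlgebraicGeometry CategoryTheory.Limits Filter Topology

universe u v w

namespace Pool.Agent.L7h94.SI

open Module
open Pool.Agent.H914 Pool.Agent.H914.VarClass Pool.Agent.H914.VarClass.Obj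
  Pool.Agent.H914.WeilCohomology Pool.Agent.W534 Pool.Agent.H281R3.HT
open Pool.Agent.Y133.Half (algSys cycRank TSpan tateDim)
open Pool.Agent.Y163 (pw pr HBasis)
open Pool.Agent.R940 (IsEig IsT IsWeilFamily weilFamily exists_ebasis HasIntegralPolys
  IsSlopeDenominator)
open Pool.Agent.N181.Ab Pool.Agent.R908
open Pool.Agent.L7h94.GP (LW inc zv zv_add family_gen letters_stable card_minpolys numClasses
  numeric_N)
open Pool.Agent.L7h78.TI (IsTateIndex exists_tateIndex le_of_share)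

lemma elt_mk {β : Type*} [Fintype β] [DecidableEq β] (R : AddSubgroup (β → ℤ)) (z : β → ℤ) :
    elt (fun l => (QuotientAddGroup.mk (Pi.single l 1) : (β → ℤ) ⧸ R)) z =
      QuotientAddGroup.mk' R z := by
  have h1 : z = ∑ l, z l • (Pi.single l 1 : β → ℤ) := by
    funext j
    rw [Finset.sum_apply, Finset.sum_eq_single j]
    · rw [Pi.smul_apply, Pi.single_eq_same, smul_eq_mul, mul_one]
    · intro l _ hl
      rw [Pi.smul_apply, Pi.single_eq_of_ne hl.symm, smul_zero]
    · intro h; exact absurd (Finset.mem_univ _) h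
  rw [elt_apply]
  conv_rhs => rw [h1]
  rw [map_sum]
  exact Finset.sum_congr rfl fun l _ => (map_zsmul (QuotientAddGroup.mk' R) _ _).symm

variable {k : Type u} [Field k] {𝒱 : VarClass k} {ops : CycleOps 𝒱}
  {W : WeilCohomology.{u, v} ops} {X Y Z : 𝒱.Obj} {p : ℕ}

section Index

variable {Φ : FrobSystem W p} {β : Type w} [Fintype β] [DecidableEq β] {b : β → W.H X}
  {lam : β → W.K} [DecidableEq (KT W.K)] (h : Data Φ b lam)
include h

/-- **One power decides the index.** -/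
theorem Data.index {L : ℝ} (hL : 0 ≤ L)
    (hgen : ∀ z ∈ h.T, z ∈ AddSubgroup.closure {y : β → ℤ | y ∈ h.T ∧ l1 y ≤ L}) {r n : ℕ} {ε : ℝ}
    (h1 : 2 * (r * L) ^ 2 * (X.dim * Real.log ((n + 1 : ℕ) + 1) / (n + 1 : ℕ)) ≤ ε)
    (ht : (tateDim Φ (pw X n) : ℝ) < (r + 1) * (1 - ε) * cycRank ops (pw X n)) (n' : ℕ) :
    tateDim Φ (pw X n') ≤ r * cycRank ops (pw X n') := by
  classical
  obtain ⟨e, he, hew⟩ := h.pairing
  rw [h.tate_eq, h.rank_eq] at ht
  rw [h.tate_eq, h.rank_eq]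
  refine tN_le h.w e hew h.H (fun s hs => ?_) (n' + 1)
  refine index_le h.w e hew h.H hL ?_ (n := n + 1) (by omega) (by rw [Fintype.card_fin]; exact h1)
    ht s hs
  intro H' hH'
  rintro _ ⟨z, hz, rfl⟩
  have h2 := hgen z hz
  clear hz
  induction h2 using AddSubgroup.closure_induction with
  | mem y hy =>
    have h3 := hH' y
    have h4 : elt h.w y = QuotientAddGroup.mk' h.R y := elt_mk h.R y
    rw [h4] at h3
    exact h3 (h.mem_H.2 hy.1) hy.2
  | zero => rw [map_zero]; exact H'.zero_mem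
  | add x y _ _ hx hy => rw [map_add]; exact H'.add_mem hx hy
  | neg x _ hx => rw [map_neg]; exact H'.neg_mem hx

end Index

/-! ### Short relations -/

section Short

variable {Φ : FrobSystem W p} {β : Type w} [Fintype β] [DecidableEq β] {b : β → W.H X}
  {lam : β → W.K}

lemma zv_mem_iff (hE : Eig (Φ := Φ) b lam) {deg : β → ℕ} (hdeg : ∀ l, deg l = 1) (a : β → ℕ) :
    zv a ∈ TT (qc Φ X) (lc hE) ↔ IsT (p ^ Φ.e X) lam deg a := by
  rw [mem_TT, IsT]
  simp only [hdeg, one_mul]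
  have h1 : ∑ l, zv a l = ((∑ l, a l : ℕ) : ℤ) := by
    simp only [zv]
    push_cast
    rfl
  have h2 : ∏ l, lc hE l ^ zv a l =
      ((∏ l, (Units.mk0 (lam l) (hE.ne l) : W.Kˣ) ^ a l : W.Kˣ) : KT W.K) := by
    refine Eq.trans ?_ (map_prod (QuotientGroup.mk' (CommGroup.torsion W.Kˣ)) _ _).symm
    refine Finset.prod_congr rfl fun l _ => ?_
    rw [zv, zpow_natCast, map_pow]
    rfl
  rw [h1, h2, Int.even_coe_nat, zpow_natCast, qc, ← QuotientGroup.mk_pow, ← QuotientGroup.mk_pow,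
    kt_eq]
  refine and_congr_right fun _ => exists_congr fun s => and_congr_right fun _ => ?_
  rw [Units.ext_iff]
  simp only [Units.val_pow_eq_pow_val, Units.coe_prod, Units.val_mk0, ← pow_mul]
  rw [Nat.cast_pow, ← pow_mul, mul_comm s]

/-- **The Tate vectors are generated by short ones.** -/
theorem short_gen (hE : Eig (Φ := Φ) b lam) (τ : β → β)
    (hτ : ∀ l, lc hE (τ l) = qc Φ X / lc hE l) {N : ℝ} (hN2 : 2 ≤ N)
    (hnat : ∀ a : β → ℕ, zv a ∈ TT (qc Φ X) (lc hE) →
      zv a ∈ AddSubgroup.closure {y : β → ℤ | y ∈ TT (qc Φ X) (lc hE) ∧ l1 y ≤ N})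
    (z : β → ℤ) (hz : z ∈ TT (qc Φ X) (lc hE)) :
    z ∈ AddSubgroup.closure {y : β → ℤ | y ∈ TT (qc Φ X) (lc hE) ∧ l1 y ≤ N} := by
  classical
  set C := AddSubgroup.closure {y : β → ℤ | y ∈ TT (qc Φ X) (lc hE) ∧ l1 y ≤ N} with hC
  let P : β → (β → ℤ) := fun l => Pi.single l 1 + Pi.single (τ l) 1
  have hP : ∀ l, P l ∈ TT (qc Φ X) (lc hE) := by
    intro l
    rw [mem_TT]
    have e1 : ∑ j, P l j = 2 := by
      simp only [P, Pi.add_apply, Finset.sum_add_distrib, sum_single]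
      norm_num
    have e2 : ∏ j, lc hE j ^ P l j = qc Φ X := by
      simp only [P, Pi.add_apply, zpow_add, Finset.prod_mul_distrib, prod_single]
      rw [hτ]
      exact mul_div_cancel _ _
    rw [e1, e2]
    exact ⟨even_two, by norm_cast⟩
  have hPC : ∀ l, P l ∈ C := by
    intro l
    refine AddSubgroup.subset_closure ⟨hP l, ?_⟩
    have h1 : ∀ j : β, l1 (Pi.single j 1 : β → ℤ) = 1 := by
      intro j
      rw [l1, Finset.sum_eq_single j]
      · rw [Pi.single_eq_same]; norm_num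
      · intro i _ hi
        rw [Pi.single_eq_of_ne hi]; norm_num
      · intro h; exact absurd (Finset.mem_univ _) h
    refine (l1_add _ _).trans ?_
    rw [h1, h1]
    linarith
  -- making the vector positive
  let a : β → ℤ := z + ∑ l, (z l).natAbs • P l
  have ha : ∀ j, 0 ≤ a j := by
    intro j
    have h1 : ∀ l, 0 ≤ ((z l).natAbs • P l) j := by
      intro l
      simp only [P, Pi.smul_apply, Pi.add_apply, nsmul_eq_mul]
      have h2 : ∀ i : β, 0 ≤ (Pi.single i 1 : β → ℤ) j := by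
        intro i
        rw [Pi.single_apply]
        split_ifs <;> norm_num
      have h3 := h2 l
      have h4 := h2 (τ l)
      positivity
    have h2 : ((z j).natAbs : ℤ) ≤ ((z j).natAbs • P j) j := by
      simp only [P, Pi.smul_apply, Pi.add_apply, nsmul_eq_mul, Pi.single_eq_same]
      have h3 : 0 ≤ (Pi.single (τ j) 1 : β → ℤ) j := by
        rw [Pi.single_apply]
        split_ifs <;> norm_num
      nlinarith
    have h3 : ((z j).natAbs • P j) j ≤ ∑ l, ((z l).natAbs • P l) j :=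
      Finset.single_le_sum (f := fun l => ((z l).natAbs • P l) j) (fun l _ => h1 l)
        (Finset.mem_univ j)
    change 0 ≤ z j + (∑ l, (z l).natAbs • P l) j
    rw [Finset.sum_apply]
    omega
  have h1 : a = zv (fun l => (a l).toNat) := by
    funext j
    rw [zv]
    exact (Int.toNat_of_nonneg (ha j)).symm
  have h2 : a ∈ TT (qc Φ X) (lc hE) :=
    AddSubgroup.add_mem _ hz (AddSubgroup.sum_mem _ fun l _ => AddSubgroup.nsmul_mem _ (hP l) _)
  rw [h1] at h2
  have h3 := hnat _ h2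
  rw [← h1] at h3
  have h4 := C.sub_mem h3 (C.sum_mem (t := Finset.univ) fun l _ => C.nsmul_mem (hPC l) (z l).natAbs)
  have h5 : a - ∑ l, (z l).natAbs • P l = z := add_sub_cancel_right _ _
  rwa [h5] at h4

end Short

variable [hp : Fact p.Prime] {Φ : FrobSystem W p} {σ : W.K →+* ℂ}

section Ab

variable {ι : Type v} {B : HBasis W X ι} {lam : ι → W.K} {m : X.prod X ⟶ X} {D₀ : X.Cycles}

/-- the Tate vectors of abelian varieties -/
theorem short_ab [IsAlgClosed W.K] [Fintype ι] [DecidableEq ι] [Fintype (LW B 1)]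
    [DecidableEq (LW B 1)] (hB : IsEig Φ B lam) (hRH : RiemannHyp Φ σ X)
    (hint : HasIntegralPolys Φ σ X) {D : ℕ} (hD : IsSlopeDenominator Φ σ X D)
    (hE : Eig (Φ := Φ) (lb B) (fun l : LW B 1 => lam (inc B 1 l)))
    (τ : LW B 1 → LW B 1) (hτ : ∀ l, lc hE (τ l) = qc Φ X / lc hE l)
    {g : ℕ} (hg : Fintype.card (LW B 1) = 2 * g) {N : ℝ} (hN2 : 2 ≤ N)
    (hN : Real.exp (12 * √(numClasses Φ σ X 1 * (2 * g : ℕ)) * Real.log (2 * (2 * g : ℕ)) *
      Real.log (2 * (2 * g : ℕ) * (D * 1 : ℕ))) ≤ N) (z : LW B 1 → ℤ)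
    (hz : z ∈ TT (qc Φ X) (lc hE)) :
    z ∈ AddSubgroup.closure {y : LW B 1 → ℤ | y ∈ TT (qc Φ X) (lc hE) ∧ l1 y ≤ N} := by
  classical
  refine short_gen hE τ hτ hN2 (fun a ha => ?_) z hz
  rw [zv_mem_iff hE (deg := fun l : LW B 1 => B.deg (inc B 1 l)) deg_one] at ha
  have hfam := weilFamily (σ := σ) hB hRH hint hD
  have hfam' : IsWeilFamily p (Φ.e X) D (fun l : LW B 1 => lam (inc B 1 l))
      (fun l => B.deg (inc B 1 l)) :=
    ⟨fun l => hfam.int _, fun l => hfam.arch _, fun l => hfam.slope _⟩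
  have hr := card_minpolys (σ := σ) hB 1
  have hr1 : 1 ≤ Fintype.card (LW B 1) → 1 ≤ numClasses Φ σ X 1 := by
    intro hc
    refine le_trans ?_ hr
    obtain ⟨l⟩ := Fintype.card_pos_iff.1 hc
    exact Finset.card_pos.2 ⟨_, Finset.mem_image_of_mem _ (Finset.mem_univ l)⟩
  refine family_gen (Φ.e_pos X) hD.1 hfam' (fun l y hy => letters_stable Φ hB hint l y hy) le_rfl
    (fun l => l.2.2) hr hN2 (fun g' hg' => ?_) (fun a => zv a ∈ AddSubgroup.closure
      {y : LW B 1 → ℤ | y ∈ TT (qc Φ X) (lc hE) ∧ l1 y ≤ N}) ?_ ?_ ?_ ?_ ha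
  · exact numeric_N hD.1 le_rfl hg.le hg' hr1 (by linarith) hN
  · have h1 : zv (0 : LW B 1 → ℕ) = 0 := by funext l; simp [zv]
    rw [h1]
    exact AddSubgroup.zero_mem _
  · intro a b ha hb
    rw [zv_add]
    exact AddSubgroup.add_mem _ ha hb
  · intro a l l' hll hdeg ha
    rw [zv_add] at ha
    have h1 : (zv (Pi.single l 1 + Pi.single l' 1 : LW B 1 → ℕ)) =
        Pi.single l 1 + Pi.single l' 1 := by
      rw [zv_add]
      congr 1
      · funext j
        simp only [zv, Pi.single_apply]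
        split_ifs <;> simp
      · funext j
        simp only [zv, Pi.single_apply]
        split_ifs <;> simp
    have h2 : lc hE l * lc hE l' = qc Φ X := by
      rw [lc_mul_iff]
      refine ⟨1, one_pos, ?_⟩
      rw [pow_one, pow_one, hll, deg_one, pow_one, Nat.cast_pow]
    have h3 : (Pi.single l 1 + Pi.single l' 1 : LW B 1 → ℤ) ∈ AddSubgroup.closure
        {y : LW B 1 → ℤ | y ∈ TT (qc Φ X) (lc hE) ∧ l1 y ≤ N} := by
      refine AddSubgroup.subset_closure ⟨?_, ?_⟩
      · rw [mem_TT]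
        have e1 : ∑ j, (Pi.single l 1 + Pi.single l' 1 : LW B 1 → ℤ) j = 2 := by
          simp only [Pi.add_apply, Finset.sum_add_distrib, sum_single]
          norm_num
        have e2 : ∏ j, lc hE j ^ (Pi.single l 1 + Pi.single l' 1 : LW B 1 → ℤ) j = qc Φ X := by
          simp only [Pi.add_apply, zpow_add, Finset.prod_mul_distrib, prod_single]
          exact h2
        rw [e1, e2]
        exact ⟨even_two, by norm_cast⟩
      · have h1 : ∀ j : LW B 1, l1 (Pi.single j 1 : LW B 1 → ℤ) = 1 := by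
          intro j
          rw [l1, Finset.sum_eq_single j]
          · rw [Pi.single_eq_same]; norm_num
          · intro i _ hi
            rw [Pi.single_eq_of_ne hi]; norm_num
          · intro h; exact absurd (Finset.mem_univ _) h
        refine (l1_add _ _).trans ?_
        rw [h1, h1]
        linarith
    rw [h1] at ha
    have h4 := AddSubgroup.sub_mem _ ha h3
    rwa [add_sub_cancel_right] at h4
  · intro a ha haN
    refine AddSubgroup.subset_closure ⟨?_, ?_⟩
    · rw [zv_mem_iff hE (deg := fun l : LW B 1 => B.deg (inc B 1 l)) deg_one]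
      exact ha
    · refine le_trans (le_of_eq ?_) haN
      rw [l1]
      push_cast
      refine Finset.sum_congr rfl fun l _ => ?_
      rw [zv, Int.cast_natCast, abs_of_nonneg (Nat.cast_nonneg _)]

/-- The data of an abelian variety. -/
theorem data_ab [Finite ι] [Fintype (LW B 1)] [DecidableEq (LW B 1)]
    (hA : IsAbelian Φ X m D₀) (h1 : (1 : W.H X) ≠ 0) (hB : IsEig Φ B lam) :
    Data Φ (lb B) (fun l : LW B 1 => lam (inc B 1 l)) := by
  have hL := letters_ab (B := B) hA.abelianLike h1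
  have hE := eig_ab hB hA.semisimple
  exact ⟨hL, hE, algPair_ab hA hE, exists_tau hA.divisor hA.lefschetz hL hE⟩

end Ab

/-! ### Numerical estimates -/

lemma log_le_sqrt {x : ℝ} (hx : 0 ≤ x) : Real.log (x + 1) ≤ 2 * √x := by
  have h1 : 0 < √(x + 1) := Real.sqrt_pos.2 (by linarith)
  have h2 : Real.log (x + 1) = 2 * Real.log (√(x + 1)) := by
    rw [Real.log_sqrt (by linarith)]
    ring
  have h3 : Real.log (√(x + 1)) ≤ √(x + 1) - 1 := Real.log_le_sub_one_of_pos h1
  have h4 : √(x + 1) ≤ √x + 1 := by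
    rw [Real.sqrt_le_left (by positivity), add_sq, Real.sq_sqrt hx]
    have := Real.sqrt_nonneg x
    linarith
  linarith

lemma cond_of_large {r g : ℕ} {E ε x : ℝ} (hg : 1 ≤ g) (hε : 0 < ε) (hE : 16 * (g : ℝ) ^ 2 ≤ E)
    (hE0 : 0 < E) (hx : (r : ℝ) ^ 4 / ε ^ 2 * E ^ 5 ≤ x) (hx0 : 0 < x) :
    2 * (r * E) ^ 2 * (g * Real.log (x + 1) / x) ≤ ε := by
  have h1 : Real.log (x + 1) / x ≤ 2 / √x := by
    rw [div_le_div_iff₀ hx0 (Real.sqrt_pos.2 hx0)]
    have h2 := log_le_sqrt hx0.le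
    have h3 := Real.mul_self_sqrt hx0.le
    have h4 := Real.sqrt_nonneg x
    nlinarith
  have h2 : (4 * (r : ℝ) ^ 2 * E ^ 2 * g) ^ 2 ≤ ε ^ 2 * x := by
    have h3 : (r : ℝ) ^ 4 * E ^ 5 ≤ ε ^ 2 * x := by
      have h4 := mul_le_mul_of_nonneg_left hx (sq_nonneg ε)
      have h5 : ε ^ 2 * ((r : ℝ) ^ 4 / ε ^ 2 * E ^ 5) = (r : ℝ) ^ 4 * E ^ 5 := by
        field_simp
      rwa [h5] at h4
    refine le_trans ?_ h3
    calc (4 * (r : ℝ) ^ 2 * E ^ 2 * g) ^ 2 = (r : ℝ) ^ 4 * E ^ 4 * (16 * (g : ℝ) ^ 2) := by ring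
      _ ≤ (r : ℝ) ^ 4 * E ^ 4 * E := mul_le_mul_of_nonneg_left hE (by positivity)
      _ = _ := by ring
  have h3 : 4 * (r : ℝ) ^ 2 * E ^ 2 * g ≤ ε * √x := by
    have h4 : ε ^ 2 * x = (ε * √x) ^ 2 := by rw [mul_pow, Real.sq_sqrt hx0.le]
    rw [h4] at h2
    exact abs_le_of_sq_le_sq' h2 (by positivity) |>.2
  calc 2 * (r * E) ^ 2 * (g * Real.log (x + 1) / x)
      = 2 * (r * E) ^ 2 * g * (Real.log (x + 1) / x) := by ring
    _ ≤ 2 * (r * E) ^ 2 * g * (2 / √x) := mul_le_mul_of_nonneg_left h1 (by positivity)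
    _ = 4 * (r : ℝ) ^ 2 * E ^ 2 * g / √x := by ring
    _ ≤ ε := by
        rw [div_le_iff₀ (Real.sqrt_pos.2 hx0)]
        exact h3

lemma E_ge {g D k : ℕ} (hg : 1 ≤ g) (hD : 1 ≤ D) (hk : 1 ≤ k) : 16 * (g : ℝ) ^ 2 ≤
    Real.exp (12 * √(2 * g * k) * Real.log (4 * g) * Real.log (4 * g * D)) := by
  have e1 : (1 : ℝ) ≤ g := by exact_mod_cast hg
  have e2 : (1 : ℝ) ≤ D := by exact_mod_cast hD
  have e3 : (1 : ℝ) ≤ k := by exact_mod_cast hk
  have h1 : 1 ≤ √(2 * g * k : ℝ) := by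
    rw [Real.one_le_sqrt]
    nlinarith
  have h2 : (1 : ℝ) ≤ Real.log 4 := by
    rw [show (4 : ℝ) = 2 ^ 2 by norm_num, Real.log_pow]
    have := Real.log_two_gt_d9
    push_cast
    linarith
  have h3 : Real.log 4 ≤ Real.log (4 * g) := Real.log_le_log (by norm_num) (by linarith)
  have h4 : Real.log 4 ≤ Real.log (4 * g * D) := Real.log_le_log (by norm_num) (by nlinarith)
  have h5 : 16 * (g : ℝ) ^ 2 = Real.exp (2 * Real.log (4 * g)) := by
    rw [two_mul, Real.exp_add, Real.exp_log (by positivity)]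
    ring
  rw [h5]
  apply Real.exp_le_exp.2
  set s := √(2 * g * k : ℝ)
  set a := Real.log (4 * (g : ℝ))
  set c := Real.log (4 * (g : ℝ) * D)
  have h6 : 1 ≤ s * c := by nlinarith
  calc 2 * a ≤ 12 * (s * c) * a := by nlinarith
    _ = _ := by ring

end Pool.Agent.L7h94.SI
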