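import Mathlib

/-!
# Matchings of lists with dual classes
-/

set_option linter.unusedSectionVars false
set_option linter.unusedVariables false
set_option autoImplicit false

namespace Pool.Agent.L7h94.SI

open Finset

noncomputable section

section Matching

variable {α κ : Type*} [DecidableEq κ]

/-- The numbers of the elements of dual classes are equal, and even for the self-dual classes. -/
def BalL (st : κ → κ) (L : List κ) : Prop :=
  ∀ c, L.count c = L.count (st c) ∧ (st c = c → Even (L.count c))

/-- **Balanced lists are products of dual pairs.** -/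
theorem matching {st : κ → κ} (hst : ∀ c, st (st c) = c) (cl : α → κ) :
    ∀ (n : ℕ) (L : List α), L.length ≤ n → BalL st (L.map cl) →
      ∃ P : List (α × α), (∀ x ∈ P, cl x.2 = st (cl x.1)) ∧
        L.Perm (P.flatMap fun x => [x.1, x.2]) := by
  intro n
  induction n with
  | zero =>
    intro L hL _
    obtain rfl := List.eq_nil_of_length_eq_zero (Nat.le_zero.1 hL)
    exact ⟨[], by simp, by simp⟩
  | succ n ih =>
    intro L hL hbal
    rcases L with _ | ⟨a, L⟩
    · exact ⟨[], by simp, by simp⟩
    · have h1 : st (cl a) ∈ L.map cl := by
        rw [← List.count_pos_iff]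
        have h2 := hbal (cl a)
        rw [List.map_cons, List.count_cons_self] at h2
        by_cases h3 : st (cl a) = cl a
        · rw [h3]
          obtain ⟨r, hr⟩ := h2.2 h3
          omega
        · rw [List.count_cons_of_ne (Ne.symm h3)] at h2
          omega
      obtain ⟨b, hb, hcb⟩ := List.mem_map.1 h1
      obtain ⟨s, t, rfl⟩ := List.append_of_mem hb
      have hperm : (a :: (s ++ b :: t)).Perm (a :: b :: (s ++ t)) :=
        List.Perm.cons a List.perm_middle
      have hcount : ∀ c, ((a :: (s ++ b :: t)).map cl).count c =
          ((s ++ t).map cl).count c + (if cl a = c then 1 else 0) +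
            (if cl b = c then 1 else 0) := by
        intro c
        rw [(hperm.map cl).count_eq c, List.map_cons, List.map_cons, List.count_cons,
          List.count_cons]
        simp only [beq_iff_eq]
        omega
      obtain ⟨P, hP, hPL⟩ := ih (s ++ t) (by
        simp only [List.length_cons, List.length_append] at hL ⊢
        omega) (by
        intro c
        have h2 := hbal c
        rw [hcount, hcount, hcb] at h2
        have e1 : (st (cl a) = c) ↔ (cl a = st c) :=
          ⟨fun h => by rw [← h, hst], fun h => by rw [h, hst]⟩
        have e2 : (st (cl a) = st c) ↔ (cl a = c) :=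
          ⟨fun h => by rw [← hst (cl a), h, hst], fun h => by rw [h]⟩
        simp only [e1, e2] at h2
        refine ⟨by omega, fun h3 => ?_⟩
        have h4 := h2.2 h3
        rw [h3, add_assoc, ← two_mul] at h4
        exact (Nat.even_add.1 h4).2 (even_two_mul _))
      refine ⟨(a, b) :: P, ?_, ?_⟩
      · intro x hx
        rcases List.mem_cons.1 hx with rfl | hx
        · exact hcb
        · exact hP x hx
      · rw [List.flatMap_cons]
        exact hperm.trans ((hPL.cons b).cons a)

end Matching

section Vec

variable {κ β : Type*} [DecidableEq κ] [Fintype β] [DecidableEq β]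

/-- the sum over a class -/
def csum (cls : β → κ) (c : κ) : (β → ℤ) →+ ℤ where
  toFun z := ∑ l, if cls l = c then z l else 0
  map_zero' := by simp
  map_add' x y := by
    rw [← sum_add_distrib]
    refine sum_congr rfl fun l _ => ?_
    split_ifs <;> simp

theorem csum_single (cls : β → κ) (c : κ) (l : β) :
    csum cls c (Pi.single l 1) = if cls l = c then 1 else 0 := by
  change (∑ j, if cls j = c then (Pi.single l 1 : β → ℤ) j else 0) = _
  rw [Finset.sum_eq_single l]
  · rw [Pi.single_eq_same]
  · intro j _ hj
    rw [Pi.single_eq_of_ne hj, ite_self]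
  · intro h; exact absurd (mem_univ _) h

/-- the balanced vectors -/
def Bal (st : κ → κ) (cls : β → κ) : AddSubgroup (β → ℤ) where
  carrier := {z | ∀ c, csum cls c z = csum cls (st c) z ∧ (st c = c → Even (csum cls c z))}
  zero_mem' c := by simp
  add_mem' {x y} hx hy c := by
    refine ⟨by rw [map_add, map_add, (hx c).1, (hy c).1], fun h => ?_⟩
    rw [map_add]
    exact ((hx c).2 h).add ((hy c).2 h)
  neg_mem' {x} hx c := by
    refine ⟨by rw [map_neg, map_neg, (hx c).1], fun h => ?_⟩
    rw [map_neg]
    exact ((hx c).2 h).neg

/-- the vector of a list -/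
def wt (L : List β) : β → ℤ := (L.map fun l => Pi.single l 1).sum

@[simp] theorem wt_nil : wt ([] : List β) = 0 := rfl

@[simp] theorem wt_cons (a : β) (L : List β) : wt (a :: L) = Pi.single a 1 + wt L := by
  simp [wt]

@[simp] theorem wt_append (L L' : List β) : wt (L ++ L') = wt L + wt L' := by
  simp [wt]

theorem wt_perm {L L' : List β} (h : L.Perm L') : wt L = wt L' :=
  (h.map _).sum_eq

theorem csum_wt (cls : β → κ) (c : κ) (L : List β) :
    csum cls c (wt L) = ((L.map cls).count c : ℕ) := by
  induction L with
  | nil => simp
  | cons a L ih =>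
    rw [wt_cons, map_add, ih, csum_single, List.map_cons, List.count_cons]
    simp only [beq_iff_eq]
    push_cast
    ring

theorem wt_mem_bal {st : κ → κ} {cls : β → κ} {L : List β} :
    wt L ∈ Bal st cls ↔ BalL st (L.map cls) := by
  constructor
  · intro h c
    have h1 := h c
    rw [csum_wt, csum_wt] at h1
    exact ⟨by exact_mod_cast h1.1, fun h2 => by exact_mod_cast h1.2 h2⟩
  · intro h c
    rw [csum_wt, csum_wt]
    exact ⟨by exact_mod_cast (h c).1, fun h2 => by exact_mod_cast (h c).2 h2⟩

/-- a pairing of the elements -/
theorem exists_pairing {st : κ → κ} (hst : ∀ c, st (st c) = c) {cls : β → κ} {g : ℕ}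
    (hg : Fintype.card β = 2 * g) (h : wt (univ : Finset β).toList ∈ Bal st cls) :
    ∃ e : Fin g ⊕ Fin g ≃ β, ∀ i, cls (e (Sum.inr i)) = st (cls (e (Sum.inl i))) := by
  obtain ⟨P, hP, hperm⟩ := matching hst cls _ _ le_rfl (wt_mem_bal.1 h)
  have hlen : P.length = g := by
    have h1 := hperm.length_eq
    rw [Finset.length_toList, card_univ, hg, List.length_flatMap] at h1
    have h2 : (P.map fun x => [x.1, x.2].length).sum = 2 * P.length := by
      clear h1 hperm hP
      induction P with
      | nil => simp
      | cons a P ih =>
        rw [List.map_cons, List.sum_cons, ih]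
        simp
        ring
    omega
  subst hlen
  let f : Fin P.length ⊕ Fin P.length → β := Sum.elim (fun i => (P.get i).1) fun i => (P.get i).2
  have hf : Function.Bijective f := by
    rw [Fintype.bijective_iff_surjective_and_card]
    constructor
    · intro b
      have h1 : b ∈ P.flatMap fun x => [x.1, x.2] :=
        hperm.subset (Finset.mem_toList.2 (mem_univ b))
      obtain ⟨x, hx, hb⟩ := List.mem_flatMap.1 h1
      obtain ⟨i, hi⟩ := List.get_of_mem hx
      simp only [List.mem_cons, List.not_mem_nil, or_false] at hb
      rcases hb with rfl | rfl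
      · exact ⟨Sum.inl i, by simp [f, ← hi]⟩
      · exact ⟨Sum.inr i, by simp [f, ← hi]⟩
    · rw [Fintype.card_sum, Fintype.card_fin, hg]
      ring
  exact ⟨Equiv.ofBijective f hf, fun i => hP _ (List.get_mem _ _)⟩

end Vec

end

end Pool.Agent.L7h94.SI
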