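import Pool.Agent.L7h94.SI.Letters

/-!
# Monomials in letters on the powers of a variety
-/

set_option linter.unusedVariables false
set_option linter.unusedSectionVars false
set_option autoImplicit false

open CategoryTheory AlgebraicGeometry CategoryTheory.Limits

universe u v w

namespace Pool.Agent.L7h94.SI

open Module
open Pool.Agent.H914 Pool.Agent.H914.VarClass Pool.Agent.H914.VarClass.Obj
  Pool.Agent.H914.WeilCohomology Pool.Agent.W534 Pool.Agent.H281R3.HT
open Pool.Agent.Y133.Half (algSys)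
open Pool.Agent.Y163 (pw pr)

variable {k : Type u} [Field k] {𝒱 : VarClass k} {ops : CycleOps 𝒱}
  {W : WeilCohomology.{u, v} ops} {X Y Z : 𝒱.Obj}

variable {β : Type w} [Fintype β] [DecidableEq β] {b : β → W.H X}

/-- lists of letters on the power -/
noncomputable def ml (X : 𝒱.Obj) {β : Type w} (n : ℕ) (L : List (Fin (n + 1) × β)) :
    List ((pw X n ⟶ X) × β) :=
  L.map fun a => (pr X n a.1, a.2)

lemma ml_snd (n : ℕ) (L : List (Fin (n + 1) × β)) :
    (ml X n L).map Prod.snd = L.map Prod.snd := by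
  rw [ml, List.map_map]
  rfl

lemma ml_append (n : ℕ) (L L' : List (Fin (n + 1) × β)) :
    ml X n (L ++ L') = ml X n L ++ ml X n L' := List.map_append

/-- the monomials -/
noncomputable def mo (b : β → W.H X) (n : ℕ) (S : Finset (Fin (n + 1) × β)) : W.H (pw X n) :=
  PL b (ml X n S.toList)

/-- the vector of a set of letters -/
def cv {n : ℕ} (S : Finset (Fin (n + 1) × β)) : β → ℤ := ∑ a ∈ S, Pi.single a.2 1

lemma wt_ml {n : ℕ} (S : Finset (Fin (n + 1) × β)) :
    wt ((ml X n S.toList).map Prod.snd) = cv S := by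
  rw [ml_snd, wt, List.map_map, cv, ← Finset.sum_map_toList]
  rfl

/-- all letters of `X` -/
noncomputable def UL (X : 𝒱.Obj) (β : Type w) [Fintype β] : List ((X ⟶ X) × β) :=
  (Finset.univ : Finset β).toList.map fun l => (𝟙 X, l)

/-- The letters generate the cohomology of the powers of `X`, and the product of all letters of `X`
is not zero in the top degree. -/
structure Letters (b : β → W.H X) : Prop where
  gr : ∀ l, b l ∈ W.gr X 1
  top : W.tr X (PL b (UL X β)) ≠ 0
  span : ∀ (n : ℕ) (x : W.H (pw X n)), x ∈ Submodule.span W.K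
    (Set.range fun L : List (Fin (n + 1) × β) => PL b (ml X n L))

variable (h : Letters b)
include h

lemma mo_of_nodup {n : ℕ} {L : List (Fin (n + 1) × β)} (hL : L.Nodup)
    {S : Finset (Fin (n + 1) × β)} (hS : L.toFinset = S) :
    ∃ ε : W.K, ε ≠ 0 ∧ PL b (ml X n L) = ε • mo b n S := by
  refine PL_perm h.gr (List.Perm.map _ ?_)
  rw [List.perm_ext_iff_of_nodup hL S.nodup_toList]
  intro a
  rw [Finset.mem_toList, ← hS, List.mem_toFinset]

lemma PL_of_not_nodup {n : ℕ} {L : List (Fin (n + 1) × β)} (hL : ¬ L.Nodup) :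
    PL b (ml X n L) = 0 :=
  PL_dup h.gr fun h' => hL h'.of_map

lemma tr_full (n : ℕ) : W.tr (pw X n) (mo b n Finset.univ) ≠ 0 := by
  induction n with
  | zero =>
    set A : List (Fin (0 + 1) × β) := (Finset.univ : Finset β).toList.map fun l => (0, l) with hA
    have h1 : A.Nodup := (Finset.nodup_toList _).map fun x y hxy => (Prod.ext_iff.1 hxy).2
    have h2 : A.toFinset = Finset.univ := by
      rw [Finset.eq_univ_iff_forall]
      rintro ⟨i, l⟩
      rw [List.mem_toFinset, hA, List.mem_map]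
      exact ⟨l, Finset.mem_toList.2 (Finset.mem_univ _), by
        obtain rfl : i = 0 := Fin.ext (by omega)
        rfl⟩
    obtain ⟨ε, _, h4⟩ := mo_of_nodup h h1 h2
    have h5 : ml X 0 A = UL X β := by
      rw [hA, ml, UL, List.map_map]
      rfl
    rw [h5] at h4
    intro h6
    apply h.top
    have h7 : W.tr X (PL b (UL X β)) = ε • W.tr (pw X 0) (mo b 0 Finset.univ) := by
      rw [← map_smul, ← h4]
      rfl
    rw [h7, h6, smul_zero]
  | succ n ih =>
    set A₁ : List (Fin (n + 1 + 1) × β) := (Finset.univ : Finset β).toList.map fun l => (0, l)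
      with hA₁
    set A₂ : List (Fin (n + 1 + 1) × β) := (Finset.univ : Finset (Fin (n + 1) × β)).toList.map
      fun a => (a.1.succ, a.2) with hA₂
    have h1 : (A₁ ++ A₂).Nodup := by
      refine List.Nodup.append ((Finset.nodup_toList _).map fun x y hxy => (Prod.ext_iff.1 hxy).2)
        ((Finset.nodup_toList _).map ?_) ?_
      · rintro ⟨i, l⟩ ⟨i', l'⟩ hxy
        rw [Prod.mk.injEq] at hxy
        exact Prod.ext (Fin.succ_injective _ hxy.1) hxy.2
      · intro a ha ha'
        obtain ⟨l, _, rfl⟩ := List.mem_map.1 ha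
        obtain ⟨c, _, hc⟩ := List.mem_map.1 ha'
        exact Fin.succ_ne_zero _ (Prod.ext_iff.1 hc).1
    have h2 : (A₁ ++ A₂).toFinset = Finset.univ := by
      rw [Finset.eq_univ_iff_forall]
      rintro ⟨i, l⟩
      rw [List.mem_toFinset, List.mem_append]
      refine Fin.cases ?_ (fun j => ?_) i
      · exact Or.inl (List.mem_map.2 ⟨l, Finset.mem_toList.2 (Finset.mem_univ _), rfl⟩)
      · exact Or.inr (List.mem_map.2 ⟨(j, l), Finset.mem_toList.2 (Finset.mem_univ _), rfl⟩)
    obtain ⟨ε, _, h4⟩ := mo_of_nodup h h1 h2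
    have h5 : ml X (n + 1) A₁ = pl (fst X (pw X n)) (UL X β) := by
      rw [hA₁, ml, UL, pl, List.map_map, List.map_map]
      refine List.map_congr_left fun l _ => ?_
      change (fst X (pw X n), l) = (fst X (pw X n) ≫ 𝟙 X, l)
      rw [Category.comp_id]
    have h6 : ml X (n + 1) A₂ = pl (snd X (pw X n)) (ml X n (Finset.univ).toList) := by
      rw [hA₂, ml, pl, ml, List.map_map, List.map_map]
      rfl
    rw [ml_append, PL_append, h5, h6] at h4
    have h9 : W.map (fst X (pw X n)) (PL b (UL X β)) *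
        W.map (snd X (pw X n)) (PL b (ml X n (Finset.univ).toList)) =
        (ε • mo b (n + 1) Finset.univ : W.H (X.prod (pw X n))) := by
      rw [PL_map, PL_map]
      exact h4
    intro h7
    have h8 : W.tr (X.prod (pw X n)) (W.map (fst X (pw X n)) (PL b (UL X β)) *
        W.map (snd X (pw X n)) (PL b (ml X n (Finset.univ).toList))) =
        ε • W.tr (pw X (n + 1)) (mo b (n + 1) Finset.univ) := by
      rw [h9]
      exact map_smul (W.tr (pw X (n + 1))) ε (mo b (n + 1) Finset.univ)
    rw [h7, smul_zero, W.tr_prod] at h8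
    exact (mul_ne_zero h.top ih) h8

lemma mo_gr (n : ℕ) (S : Finset (Fin (n + 1) × β)) : mo b n S ∈ W.gr (pw X n) S.card := by
  have h1 := PL_gr h.gr (ml X n S.toList)
  rwa [ml, List.length_map, Finset.length_toList] at h1

lemma card_letters_eq (n : ℕ) : Fintype.card (Fin (n + 1) × β) = 2 * (pw X n).dim := by
  by_contra hcon
  exact tr_full h n (W.tr_eq_zero (mo_gr h n _) hcon)

lemma card_beta : Fintype.card β = 2 * X.dim := by
  have h1 := card_letters_eq h 0
  rw [Fintype.card_prod, Fintype.card_fin] at h1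
  change 1 * _ = 2 * X.dim at h1
  rwa [one_mul] at h1

lemma mo_mul_mo (n : ℕ) (S S' : Finset (Fin (n + 1) × β)) :
    mo b n S * mo b n S' = PL b (ml X n (S.toList ++ S'.toList)) := by
  rw [mo, mo, ← PL_append, ml_append]

lemma tr_mo_ne (n : ℕ) (S : Finset (Fin (n + 1) × β)) :
    W.tr (pw X n) (mo b n S * mo b n Sᶜ) ≠ 0 := by
  have h1 : (S.toList ++ Sᶜ.toList).Nodup := by
    refine List.Nodup.append S.nodup_toList (Finset.nodup_toList _) ?_
    intro a ha ha'
    rw [Finset.mem_toList] at ha ha'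
    exact Finset.mem_compl.1 ha' ha
  have h2 : (S.toList ++ Sᶜ.toList).toFinset = Finset.univ := by
    rw [List.toFinset_append, Finset.toList_toFinset, Finset.toList_toFinset,
      Finset.union_compl]
  obtain ⟨ε, h3, h4⟩ := mo_of_nodup h h1 h2
  rw [mo_mul_mo h, h4, map_smul, smul_eq_mul]
  exact mul_ne_zero h3 (tr_full h n)

lemma tr_mo_eq (n : ℕ) {S S' : Finset (Fin (n + 1) × β)} (hne : S ≠ S') :
    W.tr (pw X n) (mo b n S * mo b n S'ᶜ) = 0 := by
  rw [mo_mul_mo h]
  by_cases hnd : (S.toList ++ S'ᶜ.toList).Nodup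
  · have h1 := PL_gr h.gr (ml X n (S.toList ++ S'ᶜ.toList))
    refine W.tr_eq_zero h1 fun h2 => hne ?_
    rw [← card_letters_eq h, ml, List.length_map] at h2
    have h3 : (S.toList ++ S'ᶜ.toList).toFinset = Finset.univ := by
      apply Finset.eq_univ_of_card
      rw [List.toFinset_card_of_nodup hnd, h2]
    rw [List.toFinset_append, Finset.toList_toFinset, Finset.toList_toFinset] at h3
    have h4 : Disjoint S S'ᶜ := by
      rw [Finset.disjoint_left]
      intro a ha ha'
      exact (List.disjoint_of_nodup_append hnd) (Finset.mem_toList.2 ha) (Finset.mem_toList.2 ha')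
    have h5 : IsCompl S S'ᶜ := ⟨h4, by
      rw [codisjoint_iff]
      exact h3⟩
    rw [h5.eq_compl, compl_compl]
  · rw [PL_of_not_nodup h hnd, map_zero]

lemma mo_li (n : ℕ) : LinearIndependent W.K (mo b n) := by
  rw [Fintype.linearIndependent_iff]
  intro c hc S
  have h1 : W.tr (pw X n) ((∑ S', c S' • mo b n S') * mo b n Sᶜ) = 0 := by
    rw [hc, zero_mul, map_zero]
  rw [Finset.sum_mul, map_sum, Finset.sum_eq_single S] at h1
  · rw [smul_mul_assoc, map_smul, smul_eq_mul] at h1
    exact (mul_eq_zero.1 h1).resolve_right (tr_mo_ne h n S)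
  · intro S' _ hne
    rw [smul_mul_assoc, map_smul, tr_mo_eq h n hne, smul_zero]
  · intro h'
    exact absurd (Finset.mem_univ _) h'

lemma mo_span (n : ℕ) : ⊤ ≤ Submodule.span W.K (Set.range (mo b n)) := by
  intro x _
  refine (Submodule.span_le.2 ?_) (h.span n x)
  rintro _ ⟨L, rfl⟩
  beta_reduce
  by_cases hL : L.Nodup
  · obtain ⟨ε, _, h1⟩ := mo_of_nodup h hL rfl
    rw [h1]
    exact Submodule.smul_mem _ _ (Submodule.subset_span ⟨_, rfl⟩)
  · rw [PL_of_not_nodup h hL]
    exact Submodule.zero_mem _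

/-- the basis of monomials -/
noncomputable def mob (n : ℕ) : Basis (Finset (Fin (n + 1) × β)) W.K (W.H (pw X n)) :=
  Basis.mk (mo_li h n) (mo_span h n)

lemma mob_apply (n : ℕ) (S : Finset (Fin (n + 1) × β)) : mob h n S = mo b n S :=
  Basis.mk_apply _ _ _

/-- the coordinates -/
lemma tr_repr (n : ℕ) (x : W.H (pw X n)) (S : Finset (Fin (n + 1) × β)) :
    W.tr (pw X n) (x * mo b n Sᶜ) =
      (mob h n).repr x S * W.tr (pw X n) (mo b n S * mo b n Sᶜ) := by
  conv_lhs => rw [← (mob h n).sum_repr x]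
  rw [Finset.sum_mul, map_sum, Finset.sum_eq_single S]
  · rw [smul_mul_assoc, map_smul, smul_eq_mul, mob_apply]
  · intro S' _ hne
    rw [smul_mul_assoc, map_smul, mob_apply, tr_mo_eq h n hne, smul_zero]
  · intro h'
    exact absurd (Finset.mem_univ _) h'

end Pool.Agent.L7h94.SI
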