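import Pool.Agent.L7h94.SI.Core

/-!
# The distribution of the values of random subsets is smooth
-/

set_option linter.unusedSectionVars false
set_option linter.unusedVariables false
set_option autoImplicit false

namespace Pool.Agent.L7h94.SI

open Finset AddMonoidAlgebra Real

noncomputable section

/-- A logarithmically convex sequence. -/
theorem conv_seq {M : ℕ → ℝ} (h0 : ∀ j, 0 < M j) (h : ∀ j, M (j + 1) ^ 2 ≤ M (j + 2) * M j)
    (n : ℕ) : M n ≤ M 0 * (M (n + 1) / M n) ^ n := by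
  have hr : ∀ j, M (j + 1) / M j ≤ M (j + 2) / M (j + 1) := by
    intro j
    rw [div_le_div_iff₀ (h0 j) (h0 (j + 1)), ← sq]
    exact h j
  have hmono : Monotone fun j => M (j + 1) / M j := monotone_nat_of_le_succ hr
  have key : ∀ j, j ≤ n → M j ≤ M 0 * (M (n + 1) / M n) ^ j := by
    intro j
    induction j with
    | zero => intro _; rw [pow_zero, mul_one]
    | succ j ih =>
      intro hj
      have h1 := ih (by omega)
      have h2 := hmono (show j ≤ n by omega)
      have h3 : M (j + 1) = M (j + 1) / M j * M j := by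
        rw [div_mul_cancel₀ _ (h0 j).ne']
      rw [h3, pow_succ, ← mul_assoc, mul_comm]
      exact mul_le_mul h1 h2 (div_pos (h0 _) (h0 _)).le (le_trans (h0 j).le h1)
  exact key n le_rfl

variable {Q : Type*} [AddCommGroup Q]

/-- the coefficients are not negative -/
def Nn (x : AddMonoidAlgebra ℝ Q) : Prop := ∀ κ, 0 ≤ x.coeff κ

theorem nn_shift {x : AddMonoidAlgebra ℝ Q} (h : Nn x) (u : Q) : Nn (single u 1 * x) := by
  intro κ
  rw [coeff_shift]
  exact h _

theorem nn_add {x y : AddMonoidAlgebra ℝ Q} (hx : Nn x) (hy : Nn y) : Nn (x + y) := by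
  intro κ
  rw [coeff_add']
  exact add_nonneg (hx κ) (hy κ)

theorem nn_one : Nn (1 : AddMonoidAlgebra ℝ Q) := by
  classical
  intro κ
  rw [one_eq, coeff_single, Finsupp.single_apply]
  split_ifs <;> norm_num

theorem nn_sum {ι : Type*} {s : Finset ι} {f : ι → AddMonoidAlgebra ℝ Q}
    (h : ∀ i ∈ s, Nn (f i)) : Nn (∑ i ∈ s, f i) := by
  intro κ
  rw [coeff_sum']
  exact sum_nonneg fun i hi => h i hi κ

theorem nn_smul {x : AddMonoidAlgebra ℝ Q} (h : Nn x) {c : ℝ} (hc : 0 ≤ c) : Nn (c • x) := by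
  intro κ
  rw [AddMonoidAlgebra.coeff_smul]
  exact mul_nonneg hc (h κ)

theorem decomp (x : AddMonoidAlgebra ℝ Q) :
    x = ∑ κ ∈ x.coeff.support, x.coeff κ • single κ (1 : ℝ) := by
  have h3 : x.coeff.sum single = x := sum_coeff_single x
  conv_lhs => rw [← h3]
  rw [Finsupp.sum]
  refine sum_congr rfl fun κ _ => ?_
  rw [AddMonoidAlgebra.smul_single, smul_eq_mul, mul_one]

theorem nn_mul {x y : AddMonoidAlgebra ℝ Q} (hx : Nn x) (hy : Nn y) : Nn (x * y) := by
  rw [decomp x, sum_mul]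
  refine nn_sum fun κ _ => ?_
  rw [smul_mul_assoc]
  exact nn_smul (nn_shift hy κ) (hx κ)

theorem nn_b (u : Q) : Nn (1 + single u (1 : ℝ)) := by
  refine nn_add nn_one ?_
  have h := nn_shift (nn_one (Q := Q)) u
  rwa [mul_one] at h

theorem nn_pow {x : AddMonoidAlgebra ℝ Q} (hx : Nn x) (n : ℕ) : Nn (x ^ n) := by
  induction n with
  | zero => rw [pow_zero]; exact nn_one
  | succ n ih => rw [pow_succ]; exact nn_mul ih hx

theorem nn_prod {ι : Type*} {s : Finset ι} {f : ι → AddMonoidAlgebra ℝ Q}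
    (h : ∀ i ∈ s, Nn (f i)) : Nn (∏ i ∈ s, f i) := by
  classical
  induction s using Finset.induction_on with
  | empty => rw [prod_empty]; exact nn_one
  | insert a s ha ih =>
    rw [prod_insert ha]
    exact nn_mul (h a (mem_insert_self a s)) (ih fun i hi => h i (mem_insert_of_mem hi))

theorem nn_inv' {x : AddMonoidAlgebra ℝ Q} (hx : Nn x) : Nn (inv' x) := by
  rw [decomp x, map_sum]
  refine nn_sum fun κ _ => ?_
  have h1 : inv' (x.coeff κ • single κ (1 : ℝ)) = x.coeff κ • (single (-κ) 1) := by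
    rw [AddMonoidAlgebra.smul_single, inv'_single, AddMonoidAlgebra.smul_single]
  rw [h1]
  refine nn_smul ?_ (hx κ)
  have h := nn_shift (nn_one (Q := Q)) (-κ)
  rwa [mul_one] at h

/-- the sum of the coefficients -/
def aug : AddMonoidAlgebra ℝ Q →+* ℝ :=
  (AddMonoidAlgebra.lift ℝ ℝ Q (1 : Multiplicative Q →* ℝ)).toRingHom

theorem aug_single (u : Q) (r : ℝ) : aug (single u r) = r := by
  change AddMonoidAlgebra.lift ℝ ℝ Q (1 : Multiplicative Q →* ℝ) (single u r) = r
  rw [AddMonoidAlgebra.lift_single]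
  simp

theorem aug_eq (x : AddMonoidAlgebra ℝ Q) {s : Finset Q} (hs : x.coeff.support ⊆ s) :
    aug x = ∑ κ ∈ s, x.coeff κ := by
  classical
  have h1 : aug x = ∑ κ ∈ x.coeff.support, x.coeff κ := by
    have h3 : x.coeff.sum single = x := sum_coeff_single x
    conv_lhs => rw [← h3]
    rw [Finsupp.sum, map_sum]
    exact sum_congr rfl fun κ _ => aug_single _ _
  rw [h1]
  exact sum_subset hs fun κ _ h => Finsupp.notMem_support_iff.1 h

theorem aug_b (u : Q) : aug (1 + single u (1 : ℝ)) = 2 := by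
  rw [map_add, map_one, aug_single]
  norm_num

theorem aug_inv' (x : AddMonoidAlgebra ℝ Q) : aug (inv' x) = aug x := by
  induction x using ga_induction with
  | h0 => rw [map_zero]
  | h1 u r => rw [inv'_single, aug_single, aug_single]
  | h2 a b ha hb => rw [map_add, map_add, map_add, ha, hb]

theorem coeff_le_aug {x : AddMonoidAlgebra ℝ Q} (h : Nn x) (κ : Q) : x.coeff κ ≤ aug x := by
  classical
  rw [aug_eq x (s := insert κ x.coeff.support) (subset_insert _ _)]
  exact single_le_sum (f := fun κ => x.coeff κ) (fun κ _ => h κ) (mem_insert_self _ _)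

theorem ip_le_aug {x : AddMonoidAlgebra ℝ Q} (h : Nn x) : ip x x ≤ aug x ^ 2 := by
  have h1 := coeff_le_aug (nn_mul h (nn_inv' h)) 0
  rw [map_mul, aug_inv', ← sq] at h1
  exact h1

theorem aug_sq_le (x : AddMonoidAlgebra ℝ Q) {s : Finset Q} (hs : x.coeff.support ⊆ s) :
    aug x ^ 2 ≤ s.card * ip x x := by
  rw [aug_eq x hs, ip_self_eq x hs]
  exact sq_sum_le_card_mul_sum_sq

variable {Λ : Type*} [Fintype Λ] [DecidableEq Λ]

/-- The distribution of the values of the subsets of `n` copies of `Λ`. -/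
def XX (w : Λ → Q) (n : ℕ) : AddMonoidAlgebra ℝ Q := ∏ i, (1 + single (w i) (1 : ℝ)) ^ n

theorem nn_XX (w : Λ → Q) (n : ℕ) : Nn (XX w n) := nn_prod fun i _ => nn_pow (nn_b _) n

theorem aug_XX (w : Λ → Q) (n : ℕ) : aug (XX w n) = 2 ^ (n * Fintype.card Λ) := by
  rw [XX, map_prod]
  simp only [map_pow, aug_b]
  rw [prod_const, ← pow_mul, card_univ]

theorem single_pow' (u : Q) (j : ℕ) : (single u (1 : ℝ)) ^ j = single (j • u) (1 : ℝ) := by
  induction j with
  | zero => rw [pow_zero, zero_smul, one_eq]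
  | succ j ih => rw [pow_succ, ih, single_mul_self', succ_nsmul]

theorem b_pow (u : Q) (n : ℕ) : (1 + single u (1 : ℝ)) ^ n =
    ∑ j ∈ range (n + 1), ((n.choose j : ℕ) : ℝ) • single (j • u) (1 : ℝ) := by
  rw [add_comm, add_pow]
  refine sum_congr rfl fun j _ => ?_
  rw [one_pow, mul_one, single_pow', mul_comm, ← nsmul_eq_mul, Nat.cast_smul_eq_nsmul]

theorem support_XX (w : Λ → Q) (n : ℕ) : ∃ s : Finset Q, (XX w n).coeff.support ⊆ s ∧
    s.card ≤ (n + 1) ^ Fintype.card Λ := by
  classical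
  refine ⟨(Fintype.piFinset fun _ : Λ => range (n + 1)).image fun a => ∑ i, a i • w i, ?_, ?_⟩
  · intro κ hκ
    by_contra hcon
    rw [Finsupp.mem_support_iff] at hκ
    apply hκ
    rw [XX]
    simp only [b_pow]
    rw [prod_univ_sum, coeff_sum']
    refine sum_eq_zero fun a ha => ?_
    have h1 : ∏ i, (((n.choose (a i) : ℕ) : ℝ) • single ((a i) • w i) (1 : ℝ)) =
        (∏ i, ((n.choose (a i) : ℕ) : ℝ)) • single (∑ i, a i • w i) (1 : ℝ) := by
      have h2 : ∀ t : Finset Λ, ∏ i ∈ t, (((n.choose (a i) : ℕ) : ℝ) • single ((a i) • w i) (1 : ℝ)) =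
          (∏ i ∈ t, ((n.choose (a i) : ℕ) : ℝ)) • single (∑ i ∈ t, a i • w i) (1 : ℝ) := by
        intro t
        induction t using Finset.induction_on with
        | empty => rw [prod_empty, prod_empty, sum_empty, one_smul, one_eq]
        | insert b t hb ih =>
          rw [prod_insert hb, prod_insert hb, sum_insert hb, ih, smul_mul_smul_comm,
            single_mul_self']
      exact h2 _
    rw [h1, AddMonoidAlgebra.coeff_smul, coeff_single]
    change _ * _ = (0 : ℝ)
    rw [Finsupp.single_apply, if_neg, mul_zero]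
    intro h
    apply hcon
    rw [mem_image]
    exact ⟨a, ha, h⟩
  · refine card_image_le.trans (le_of_eq ?_)
    rw [Fintype.card_piFinset]
    simp

theorem ip_XX_ge (w : Λ → Q) (n : ℕ) :
    (4 : ℝ) ^ (n * Fintype.card Λ) ≤ (n + 1) ^ Fintype.card Λ * ip (XX w n) (XX w n) := by
  obtain ⟨s, hs, hc⟩ := support_XX w n
  have h1 := aug_sq_le _ hs
  rw [aug_XX, ← pow_mul, mul_comm _ 2, pow_mul] at h1
  norm_num at h1
  refine h1.trans (mul_le_mul_of_nonneg_right ?_ (ip_self_nonneg _))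
  exact_mod_cast hc

theorem ip_XX_pos (w : Λ → Q) (n : ℕ) : 0 < ip (XX w n) (XX w n) := by
  have h1 := ip_XX_ge w n
  by_contra hcon
  have h2 : ip (XX w n) (XX w n) = 0 := le_antisymm (not_lt.1 hcon) (ip_self_nonneg _)
  rw [h2, mul_zero] at h1
  have h3 : (0 : ℝ) < 4 ^ (n * Fintype.card Λ) := by positivity
  linarith

/-- multiplication by `1 + u` -/
theorem ip_b (u : Q) (x : AddMonoidAlgebra ℝ Q) :
    ip ((1 + single u 1) * x) ((1 + single u 1) * x) = 2 * ip x x + 2 * cor x u := by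
  rw [add_mul, one_mul, ip_add_left, ip_add_right, ip_add_right, ip_shift, cor,
    ip_comm x (single u 1 * x)]
  ring

/-- **The distribution is smooth.** -/
theorem smooth (w : Λ → Q) {n : ℕ} (hn : 1 ≤ n) (l : Λ) :
    cor (XX w n) 0 - cor (XX w n) (w l) ≤
      2 * (Fintype.card Λ * log (n + 1) / n) * cor (XX w n) 0 := by
  classical
  set g := Fintype.card Λ with hg
  have hg1 : 1 ≤ g := Fintype.card_pos_iff.2 ⟨l⟩
  set y : AddMonoidAlgebra ℝ Q := ∏ i ∈ univ.erase l, (1 + single (w i) (1 : ℝ)) ^ n with hy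
  have hyn : Nn y := nn_prod fun i _ => nn_pow (nn_b _) n
  have hyaug : aug y = 2 ^ (n * (g - 1)) := by
    rw [hy, map_prod]
    simp only [map_pow, aug_b]
    rw [prod_const, ← pow_mul, card_erase_of_mem (mem_univ _), card_univ]
  set b : AddMonoidAlgebra ℝ Q := 1 + single (w l) (1 : ℝ) with hb
  set M : ℕ → ℝ := fun j => ip (b ^ j * y) (b ^ j * y) with hM
  have hX : XX w n = b ^ n * y := by
    rw [XX, ← mul_prod_erase univ _ (mem_univ l)]
  have hMn : M n = cor (XX w n) 0 := by rw [cor_zero, hX]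
  have hM0 : M 0 ≤ 4 ^ (n * (g - 1)) := by
    have h1 := ip_le_aug hyn
    rw [hyaug, ← pow_mul, mul_comm _ 2, pow_mul] at h1
    norm_num at h1
    simpa [hM] using h1
  have hpos : ∀ j, 0 < M j := by
    intro j
    have hnn : Nn (b ^ j * y) := nn_mul (nn_pow (nn_b _) j) hyn
    have haug : aug (b ^ j * y) = 2 ^ j * 2 ^ (n * (g - 1)) := by
      rw [map_mul, map_pow, aug_b, hyaug]
    have h1 := aug_sq_le (b ^ j * y) subset_rfl
    have h2 : 0 < aug (b ^ j * y) ^ 2 := by rw [haug]; positivity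
    by_contra hcon
    have h3 : ip (b ^ j * y) (b ^ j * y) = 0 := le_antisymm (not_lt.1 hcon) (ip_self_nonneg _)
    rw [h3, mul_zero] at h1
    linarith
  have hconv : ∀ j, M (j + 1) ^ 2 ≤ M (j + 2) * M j := by
    intro j
    have h1 := bb_sq (w l) (b ^ j * y)
    rw [← hb] at h1
    have h2 : b * (b ^ j * y) = b ^ (j + 1) * y := by ring
    have h3 : b * (b ^ (j + 1) * y) = b ^ (j + 2) * y := by ring
    rw [h2, h3] at h1
    exact h1
  have h1 := conv_seq hpos hconv n
  have hM1 : M (n + 1) = 2 * M n + 2 * cor (XX w n) (w l) := by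
    have h2 : b ^ (n + 1) * y = b * (b ^ n * y) := by ring
    change ip (b ^ (n + 1) * y) (b ^ (n + 1) * y) = _
    rw [h2, hb, ip_b, ← hb, ← hX, hMn, cor_zero]
  have hlow := ip_XX_ge w n
  rw [← cor_zero, ← hMn, ← hg] at hlow
  -- the ratio
  set r := M (n + 1) / M n with hr
  have hrpos : 0 < r := div_pos (hpos _) (hpos _)
  have hn0 : (0 : ℝ) < n := by exact_mod_cast hn
  have h4 : (4 : ℝ) ^ n ≤ (n + 1) ^ g * r ^ n := by
    have e1 : (4 : ℝ) ^ (n * g) = 4 ^ n * 4 ^ (n * (g - 1)) := by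
      rw [← pow_add]
      congr 1
      obtain ⟨h, hh⟩ : ∃ h, g = h + 1 := ⟨g - 1, by omega⟩
      rw [hh, Nat.add_sub_cancel]
      ring
    have e2 : M n ≤ 4 ^ (n * (g - 1)) * r ^ n :=
      h1.trans (mul_le_mul_of_nonneg_right hM0 (by positivity))
    have e3 : (4 : ℝ) ^ n * 4 ^ (n * (g - 1)) ≤
        ((n + 1) ^ g * r ^ n) * 4 ^ (n * (g - 1)) := by
      rw [← e1]
      refine hlow.trans ?_
      calc ((n : ℝ) + 1) ^ g * M n ≤ (n + 1) ^ g * (4 ^ (n * (g - 1)) * r ^ n) :=
            mul_le_mul_of_nonneg_left e2 (by positivity)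
        _ = _ := by ring
    exact le_of_mul_le_mul_right e3 (by positivity)
  have h5 : n * log 4 ≤ g * log (n + 1) + n * log r := by
    have e1 := log_le_log (by positivity) h4
    rw [log_pow, log_mul (by positivity) (by positivity), log_pow, log_pow] at e1
    exact e1
  have h6 : 4 * (1 - g * log (n + 1) / n) ≤ r := by
    have e1 : -(g * log (n + 1) / n) ≤ log (r / 4) := by
      rw [log_div hrpos.ne' (by norm_num), neg_le_iff_add_nonneg, add_div' _ _ _ hn0.ne']
      apply div_nonneg _ hn0.le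
      nlinarith
    have e2 : 1 - g * log (n + 1) / n ≤ r / 4 := by
      have e3 := add_one_le_exp (-(g * log (n + 1) / n))
      have e4 : exp (-(g * log (n + 1) / n)) ≤ r / 4 := by
        rw [← exp_log (show 0 < r / 4 by positivity)]
        exact exp_le_exp.2 e1
      linarith
    linarith
  have h7 : M (n + 1) = r * M n := by rw [hr, div_mul_cancel₀ _ (hpos n).ne']
  have h8 := mul_le_mul_of_nonneg_right h6 (hpos n).le
  rw [← h7, hM1] at h8
  rw [← hMn]
  have h9 : 2 * ((g : ℝ) * log (n + 1) / n) * M n = 2 * M n - 2 * ((1 - g * log (n + 1) / n) * M n) := by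
    ring
  rw [h9]
  linarith

end

end Pool.Agent.L7h94.SI
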